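import Pool.Agent.H85.Forcing.Defs

/-!
# The Ostaszewski square inside a model of set theory

All notions are relativized to a structure `(M, E)`; `E x y` is read `x ∈ y`.
-/

namespace H85.Forcing

variable {M : Type*} (E : M → M → Prop)

/-- `p = {a, b}` -/
def IsPair (a b p : M) : Prop := ∀ z, E z p ↔ z = a ∨ z = b

/-- `p = (a, b)`, the Kuratowski ordered pair `{{a}, {a, b}}` -/
def IsOPair (a b p : M) : Prop := ∃ s d, IsPair E a a s ∧ IsPair E a b d ∧ IsPair E s d p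

/-- `(x, y) ∈ r` -/
def Rel (r x y : M) : Prop := ∃ p, IsOPair E x y p ∧ E p r

/-- `x` is a transitive set -/
def IsTrans (x : M) : Prop := ∀ y, E y x → ∀ z, E z y → E z x

/-- `x` is an ordinal (von Neumann) -/
def IsOrd (x : M) : Prop := IsTrans E x ∧ ∀ y, E y x → IsTrans E y

/-- `x` is a limit ordinal (nonzero, with no largest element) -/
def IsLim (x : M) : Prop := IsOrd E x ∧ (∃ y, E y x) ∧ ∀ y, E y x → ∃ z, E z x ∧ E y z

/-- `y = x ∪ {x}` (for ordinals: `y = x + 1`) -/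
def IsSucc (x y : M) : Prop := ∀ z, E z y ↔ E z x ∨ z = x

/-- `f` is, on `x`, a function from `x` to `y` -/
def IsFun (f x y : M) : Prop :=
  ∀ u, E u x → ∃ v, E v y ∧ Rel E f u v ∧ ∀ w, Rel E f u w → w = v

/-- `lam` is an uncountable regular cardinal: an ordinal `> ω` such that no function from a smaller
ordinal to `lam` is unbounded in `lam` -/
def IsUncReg (lam : M) : Prop :=
  IsOrd E lam ∧ (∃ w, E w lam ∧ IsLim E w) ∧
  ∀ x, E x lam → ∀ f, IsFun E f x lam →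
    ∃ β, E β lam ∧ ∀ u, E u x → ∀ v, Rel E f u v → E v β

/-- `f` is a function on (a part of) `x` and its range contains `y` -/
def MapsOnto (f x y : M) : Prop :=
  (∀ u, E u x → ∀ v w, Rel E f u v → Rel E f u w → v = w) ∧
  ∀ v, E v y → ∃ u, E u x ∧ Rel E f u v

/-- `kap = lam⁺`: every ordinal below `kap` is an image of `lam` and `kap` is not -/
def IsSuccCard (lam kap : M) : Prop :=
  IsOrd E kap ∧ (∀ x, E x kap → ∃ f, MapsOnto E f lam x) ∧ ¬ ∃ f, MapsOnto E f lam kap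

/-- A set `c` of ordered pairs codes the sequence `⟨C_x : x ∈ kap⟩` of subsets of `kap` with
`C_x = {y ∈ kap : (x, y) ∈ c}`. `InC E kap c x y` is `y ∈ C_x`. -/
def InC (kap c x y : M) : Prop := E y kap ∧ Rel E c x y

/-- `C_x ∩ y` is unbounded in `y` -/
def UnbIn (kap c x y : M) : Prop := ∀ z, E z y → ∃ w, E w y ∧ InC E kap c x w ∧ E z w

/-- `e` is an isomorphism from `(θ, ∈)` onto `(C_x, ∈)`; so `otp(C_x) = θ` and
`C_x(i) = e(i)` for `i ∈ θ` -/
def IsEnum (kap c x θ e : M) : Prop :=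
  (∀ i, E i θ → ∃ y, InC E kap c x y ∧ Rel E e i y) ∧
  (∀ y, InC E kap c x y → ∃ i, E i θ ∧ Rel E e i y) ∧
  (∀ i, E i θ → ∀ j, E j θ → ∀ y z, Rel E e i y → Rel E e j z →
    (i = j → y = z) ∧ (E i j → E y z))

/-- `c` codes a `□_lam`-sequence `⟨C_x : x ∈ kap⟩`, `kap = lam⁺`: for every limit `x ∈ kap`,
`C_x` is a subset of `x`, unbounded and closed in `x`, of order type `≤ lam`, and
`C_y = C_x ∩ y` for all `y ∈ acc(C_x)`. -/
def IsSquareSeq (lam kap c : M) : Prop :=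
  ∀ x, E x kap → IsLim E x →
    (∀ y, InC E kap c x y → E y x) ∧
    UnbIn E kap c x x ∧
    (∀ y, E y x → IsLim E y → UnbIn E kap c x y → InC E kap c x y) ∧
    (∃ θ e, (E θ lam ∨ θ = lam) ∧ IsEnum E kap c x θ e) ∧
    (∀ y, InC E kap c x y → UnbIn E kap c x y →
      ∀ z, InC E kap c y z ↔ InC E kap c x z ∧ E z y)

/-- `d` is a club in `kap` -/
def IsClub (kap d : M) : Prop :=
  (∀ x, E x kap → ∃ y, E y kap ∧ E y d ∧ E x y) ∧
  ∀ x, E x kap → IsLim E x → (∀ y, E y x → ∃ z, E z x ∧ E z d ∧ E y z) → E x d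

/-- The Ostaszewski square `OS_lam`, `kap = lam⁺`. The sequence `⟨A_i : i ∈ lam⟩` is coded by
`a`: `A_i = {y ∈ kap : (i, y) ∈ a}`. -/
def OS (lam kap : M) : Prop :=
  ∃ c, IsSquareSeq E lam kap c ∧
    ∀ a, (∀ i, E i lam → ∀ x, E x kap → ∃ y, InC E kap a i y ∧ E x y) →
    ∀ θ, E θ lam → IsLim E θ → ∀ d, IsClub E kap d →
    ∃ x, E x kap ∧ IsLim E x ∧ ∃ e, IsEnum E kap c x θ e ∧
      ∀ i, E i θ → ∀ j, IsSucc E i j → ∀ y z, Rel E e i y → Rel E e j z →
        InC E kap a i z ∧ ∃ w, E w d ∧ E y w ∧ E w z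

/-- `CH_lam`, i.e. `2^lam = lam⁺ = kap`: some sequence `⟨R_x : x ∈ kap⟩` contains all subsets
of `lam` -/
def CHAt (lam kap : M) : Prop :=
  ∃ r, ∀ s, (∀ z, E z s → E z lam) → ∃ x, E x kap ∧ ∀ z, E z lam → (Rel E r x z ↔ E z s)

end H85.Forcing
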