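import Mathlib

/-!
# The regular open algebra of a preorder and the forcing relation
-/

universe u

namespace H85.Forcing

/-- Regular open (for the down-set topology) subsets of a preorder `P`. -/
structure RO (P : Type u) [Preorder P] where
  S : P → Prop
  down : ∀ p q, q ≤ p → S p → S q
  reg : ∀ p, (∀ q, q ≤ p → ∃ r, r ≤ q ∧ S r) → S p

namespace RO
variable {P : Type u} [Preorder P]

theorem ext' {a b : RO P} (h : ∀ p, a.S p ↔ b.S p) : a = b := by
  cases a; cases b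
  have : (‹P → Prop› : P → Prop) = ‹P → Prop› := rfl
  congr
  funext p
  exact propext (h p)

instance : PartialOrder (RO P) where
  le a b := ∀ p, a.S p → b.S p
  le_refl _ _ h := h
  le_trans _ _ _ h h' p hp := h' p (h p hp)
  le_antisymm _ _ h h' := ext' fun p => ⟨h p, h' p⟩

theorem le_def {a b : RO P} : a ≤ b ↔ ∀ p, a.S p → b.S p := Iff.rfl

/-- regularization of an arbitrary condition set -/
def regl (X : P → Prop) : RO P where
  S p := ∀ q, q ≤ p → ∃ r, r ≤ q ∧ ∃ s, X s ∧ r ≤ s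
  down p q hqp h r hr := h r (hr.trans hqp)
  reg p h q hq := by
    obtain ⟨r, hr, hr2⟩ := h q hq
    obtain ⟨t, ht, s, hs, hts⟩ := hr2 r le_rfl
    exact ⟨t, ht.trans hr, s, hs, hts⟩

instance : InfSet (RO P) where
  sInf X :=
    { S := fun p => ∀ a ∈ X, a.S p
      down := fun p q hqp h a ha => a.down p q hqp (h a ha)
      reg := fun p h a ha => a.reg p fun q hq => by
        obtain ⟨r, hr, hr2⟩ := h q hq
        exact ⟨r, hr, hr2 a ha⟩ }

instance : SupSet (RO P) where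
  sSup X :=
    { S := fun p => ∀ q, q ≤ p → ∃ r, r ≤ q ∧ ∃ a ∈ X, a.S r
      down := fun p q hqp h r hr => h r (hr.trans hqp)
      reg := fun p h q hq => by
        obtain ⟨r, hr, hr2⟩ := h q hq
        obtain ⟨t, ht, ht2⟩ := hr2 r le_rfl
        exact ⟨t, ht.trans hr, ht2⟩ }

instance : Min (RO P) where
  min a b :=
    { S := fun p => a.S p ∧ b.S p
      down := fun p q hqp h => ⟨a.down p q hqp h.1, b.down p q hqp h.2⟩
      reg := fun p h => ⟨a.reg p fun q hq => by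
          obtain ⟨r, hr, hr2⟩ := h q hq
          exact ⟨r, hr, hr2.1⟩, b.reg p fun q hq => by
          obtain ⟨r, hr, hr2⟩ := h q hq
          exact ⟨r, hr, hr2.2⟩⟩ }

instance : Max (RO P) where
  max a b :=
    { S := fun p => ∀ q, q ≤ p → ∃ r, r ≤ q ∧ (a.S r ∨ b.S r)
      down := fun p q hqp h r hr => h r (hr.trans hqp)
      reg := fun p h q hq => by
        obtain ⟨r, hr, hr2⟩ := h q hq
        obtain ⟨t, ht, ht2⟩ := hr2 r le_rfl
        exact ⟨t, ht.trans hr, ht2⟩ }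

instance : Top (RO P) where
  top := { S := fun _ => True, down := fun _ _ _ h => h, reg := fun _ _ => trivial }

instance : Bot (RO P) where
  bot :=
    { S := fun _ => False
      down := fun _ _ _ h => h
      reg := fun p h => by
        obtain ⟨r, _, hr2⟩ := h p le_rfl
        exact hr2 }

instance : Compl (RO P) where
  compl a :=
    { S := fun p => ∀ q, q ≤ p → ¬ a.S q
      down := fun p q hqp h r hr => h r (hr.trans hqp)
      reg := fun p h q hq hq2 => by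
        obtain ⟨r, hr, hr2⟩ := h q hq
        exact hr2 r le_rfl (a.down q r hr hq2) }

instance : HImp (RO P) where
  himp a b :=
    { S := fun p => ∀ q, q ≤ p → a.S q → b.S q
      down := fun p q hqp h r hr => h r (hr.trans hqp)
      reg := fun p h q hq hq2 => b.reg q fun r hr => by
        obtain ⟨t, ht, ht2⟩ := h r (hr.trans hq)
        exact ⟨t, ht, ht2 t le_rfl (a.down q t (ht.trans hr) hq2)⟩ }

instance : CompleteLattice (RO P) where
  sup := max
  inf := min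
  le_sup_left a b p hp q hq := ⟨q, le_rfl, Or.inl (a.down p q hq hp)⟩
  le_sup_right a b p hp q hq := ⟨q, le_rfl, Or.inr (b.down p q hq hp)⟩
  sup_le a b c h h' p hp := c.reg p fun q hq => by
    obtain ⟨r, hr, hr2⟩ := hp q hq
    exact ⟨r, hr, hr2.elim (h r) (h' r)⟩
  inf_le_left a b p hp := hp.1
  inf_le_right a b p hp := hp.2
  le_inf a b c h h' p hp := ⟨h p hp, h' p hp⟩
  isLUB_sSup X := by
    refine ⟨fun a ha p hp q hq => ⟨q, le_rfl, a, ha, a.down p q hq hp⟩, fun c hc p hp => ?_⟩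
    refine c.reg p fun q hq => ?_
    obtain ⟨r, hr, a, ha, har⟩ := hp q hq
    exact ⟨r, hr, hc ha r har⟩
  isGLB_sInf X := ⟨fun a ha p hp => hp a ha, fun c hc p hp a ha => hc ha p hp⟩
  le_top a p hp := trivial
  bot_le a p hp := False.elim hp

instance : CompleteBooleanAlgebra (RO P) where
  le_sup_inf a b c p hp := by
    intro q hq
    obtain ⟨r, hr, hr2⟩ := hp.1 q hq
    rcases hr2 with h | h
    · exact ⟨r, hr, Or.inl h⟩
    · obtain ⟨s, hs, hs2⟩ := hp.2 r (hr.trans hq)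
      rcases hs2 with h' | h'
      · exact ⟨s, hs.trans hr, Or.inl h'⟩
      · exact ⟨s, hs.trans hr, Or.inr ⟨b.down r s hs h, h'⟩⟩
  inf_compl_le_bot a p hp := hp.2 p le_rfl hp.1
  top_le_sup_compl a p _ q hq := by
    by_cases h : ∃ r, r ≤ q ∧ a.S r
    · obtain ⟨r, hr, hr2⟩ := h
      exact ⟨r, hr, Or.inl hr2⟩
    · refine ⟨q, le_rfl, Or.inr fun r hr hr2 => h ⟨r, hr, hr2⟩⟩
  himp_eq a b := by
    refine ext' fun p => ⟨fun h q hq => ?_, fun h q hq hq2 => b.reg q fun r hr => ?_⟩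
    · by_cases h1 : ∃ r, r ≤ q ∧ a.S r
      · obtain ⟨r, hr, hr2⟩ := h1
        exact ⟨r, hr, Or.inl (h r (hr.trans hq) hr2)⟩
      · exact ⟨q, le_rfl, Or.inr fun r hr hr2 => h1 ⟨r, hr, hr2⟩⟩
    · obtain ⟨t, ht, ht2⟩ := h r (hr.trans hq)
      rcases ht2 with h' | h'
      · exact ⟨t, ht, h'⟩
      · exact absurd (a.down q t (ht.trans hr) hq2) (h' t le_rfl)

/-! ### The forcing relation -/

/-- `p` forces `a` -/
def Forces (p : P) (a : RO P) : Prop := a.S p

/-- `p ∈ a` means that `p` forces `a` -/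
instance : Membership P (RO P) := ⟨fun a p => Forces p a⟩

variable {p q : P} {a b : RO P} {ι : Sort*}

theorem Forces.down (h : p ∈ a) (hq : q ≤ p) : q ∈ a := a.down p q hq h

theorem Forces.mono (h : p ∈ a) (hab : a ≤ b) : p ∈ b := hab p h

theorem forces_of_dense (h : ∀ q, q ≤ p → ∃ r, r ≤ q ∧ r ∈ a) : p ∈ a := a.reg p h

theorem le_iff_forces : a ≤ b ↔ ∀ p, p ∈ a → p ∈ b := Iff.rfl

theorem eq_top_iff_forces : a = ⊤ ↔ ∀ p, p ∈ a :=
  ⟨fun h p => by rw [h]; exact trivial, fun h => eq_top_iff.2 fun p _ => h p⟩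

theorem forces_inf : p ∈ a ⊓ b ↔ p ∈ a ∧ p ∈ b := Iff.rfl

theorem forces_top : p ∈ (⊤ : RO P) := trivial

theorem not_forces_bot : ¬ p ∈ (⊥ : RO P) := fun h => h

theorem forces_sup : p ∈ a ⊔ b ↔ ∀ q, q ≤ p → ∃ r, r ≤ q ∧ (r ∈ a ∨ r ∈ b) := Iff.rfl

theorem forces_compl : p ∈ aᶜ ↔ ∀ q, q ≤ p → ¬ q ∈ a := Iff.rfl

theorem forces_himp : p ∈ a ⇨ b ↔ ∀ q, q ≤ p → q ∈ a → q ∈ b := Iff.rfl

theorem forces_iInf {f : ι → RO P} : p ∈ ⨅ i, f i ↔ ∀ i, p ∈ f i := by
  constructor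
  · intro h i
    exact h (f i) ⟨i, rfl⟩
  · rintro h _ ⟨i, rfl⟩
    exact h i

theorem forces_iSup {f : ι → RO P} :
    p ∈ ⨆ i, f i ↔ ∀ q, q ≤ p → ∃ r, r ≤ q ∧ ∃ i, r ∈ f i := by
  constructor
  · intro h q hq
    obtain ⟨r, hr, a, ⟨i, rfl⟩, ha⟩ := h q hq
    exact ⟨r, hr, i, ha⟩
  · intro h q hq
    obtain ⟨r, hr, i, ha⟩ := h q hq
    exact ⟨r, hr, f i, ⟨i, rfl⟩, ha⟩

theorem forces_iSup_of (i : ι) {f : ι → RO P} (h : p ∈ f i) : p ∈ ⨆ i, f i :=
  forces_iSup.2 fun q hq => ⟨q, le_rfl, i, h.down hq⟩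

theorem forces_regl {X : P → Prop} : p ∈ regl X ↔ ∀ q, q ≤ p → ∃ r, r ≤ q ∧ ∃ s, X s ∧ r ≤ s :=
  Iff.rfl

/-- the truth value of an absolute statement -/
def ofProp (φ : Prop) : RO P where
  S _ := φ
  down _ _ _ h := h
  reg p h := by
    obtain ⟨r, _, h⟩ := h p le_rfl
    exact h

theorem forces_ofProp {φ : Prop} : p ∈ ofProp φ ↔ φ := Iff.rfl

instance [h : Nonempty P] : Nontrivial (RO P) :=
  ⟨⟨⊤, ⊥, fun e => by
    obtain ⟨p⟩ := h
    have : (⊤ : RO P).S p := trivial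
    rw [e] at this
    exact this⟩⟩

end RO

end H85.Forcing
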