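import Pool.Agent.H85.Forcing.Congr
import Pool.Agent.H85.Forcing.RO
import Pool.Agent.H85.Forcing.OSDefs

/-!
# Boolean values of the notions of `OSDefs`, and transfer to the quotient model
-/

universe u

namespace H85.Forcing
namespace BN

variable {B : Type u} [CompleteBooleanAlgebra B]

def isTransB (x : BN B) : B := ⨅ y, mem y x ⇨ ⨅ z, mem z y ⇨ mem z x

def isOrdB (x : BN B) : B := isTransB x ⊓ ⨅ y, mem y x ⇨ isTransB y

def isLimB (x : BN B) : B :=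
  isOrdB x ⊓ ((⨆ y, mem y x) ⊓ ⨅ y, mem y x ⇨ ⨆ z, mem z x ⊓ mem y z)

def isSuccB (x y : BN B) : B := ⨅ z, (mem z y ⇨ mem z x ⊔ beq z x) ⊓ (mem z x ⊔ beq z x ⇨ mem z y)

def isFunB (f x y : BN B) : B :=
  ⨅ u, mem u x ⇨ ⨆ v, mem v y ⊓ (rel f u v ⊓ ⨅ w, rel f u w ⇨ beq w v)

def isUncRegB (lam : BN B) : B :=
  isOrdB lam ⊓ ((⨆ w, mem w lam ⊓ isLimB w) ⊓
  ⨅ x, mem x lam ⇨ ⨅ f, isFunB f x lam ⇨
    ⨆ β, mem β lam ⊓ ⨅ u, mem u x ⇨ ⨅ v, rel f u v ⇨ mem v β)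

def mapsOntoB (f x y : BN B) : B :=
  (⨅ u, mem u x ⇨ ⨅ v, ⨅ w, rel f u v ⇨ (rel f u w ⇨ beq v w)) ⊓
  ⨅ v, mem v y ⇨ ⨆ u, mem u x ⊓ rel f u v

def isSuccCardB (lam kap : BN B) : B :=
  isOrdB kap ⊓ ((⨅ x, mem x kap ⇨ ⨆ f, mapsOntoB f lam x) ⊓ (⨆ f, mapsOntoB f lam kap)ᶜ)

def inCB (kap c x y : BN B) : B := mem y kap ⊓ rel c x y

def unbInB (kap c x y : BN B) : B := ⨅ z, mem z y ⇨ ⨆ w, mem w y ⊓ (inCB kap c x w ⊓ mem z w)

def isEnumB (kap c x θ e : BN B) : B :=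
  (⨅ i, mem i θ ⇨ ⨆ y, inCB kap c x y ⊓ rel e i y) ⊓
  ((⨅ y, inCB kap c x y ⇨ ⨆ i, mem i θ ⊓ rel e i y) ⊓
  (⨅ i, mem i θ ⇨ ⨅ j, mem j θ ⇨ ⨅ y, ⨅ z, rel e i y ⇨ (rel e j z ⇨
    ((beq i j ⇨ beq y z) ⊓ (mem i j ⇨ mem y z)))))

def isSquareSeqB (lam kap c : BN B) : B :=
  ⨅ x, mem x kap ⇨ (isLimB x ⇨
    ((⨅ y, inCB kap c x y ⇨ mem y x) ⊓
    (unbInB kap c x x ⊓
    ((⨅ y, mem y x ⇨ (isLimB y ⇨ (unbInB kap c x y ⇨ inCB kap c x y))) ⊓
    ((⨆ θ, ⨆ e, (mem θ lam ⊔ beq θ lam) ⊓ isEnumB kap c x θ e) ⊓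
    (⨅ y, inCB kap c x y ⇨ (unbInB kap c x y ⇨
      ⨅ z, (inCB kap c y z ⇨ inCB kap c x z ⊓ mem z y) ⊓
        (inCB kap c x z ⊓ mem z y ⇨ inCB kap c y z)))))))) 

def isClubB (kap d : BN B) : B :=
  (⨅ x, mem x kap ⇨ ⨆ y, mem y kap ⊓ (mem y d ⊓ mem x y)) ⊓
  ⨅ x, mem x kap ⇨ (isLimB x ⇨
    ((⨅ y, mem y x ⇨ ⨆ z, mem z x ⊓ (mem z d ⊓ mem y z)) ⇨ mem x d))

def osB (lam kap : BN B) : B :=
  ⨆ c, isSquareSeqB lam kap c ⊓
    ⨅ a, (⨅ i, mem i lam ⇨ ⨅ x, mem x kap ⇨ ⨆ y, inCB kap a i y ⊓ mem x y) ⇨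
    ⨅ θ, mem θ lam ⇨ (isLimB θ ⇨ ⨅ d, isClubB kap d ⇨
    ⨆ x, mem x kap ⊓ (isLimB x ⊓ ⨆ e, isEnumB kap c x θ e ⊓
      ⨅ i, mem i θ ⇨ ⨅ j, isSuccB i j ⇨ ⨅ y, ⨅ z, rel e i y ⇨ (rel e j z ⇨
        (inCB kap a i z ⊓ ⨆ w, mem w d ⊓ (mem y w ⊓ mem w z)))))

def chAtB (lam kap : BN B) : B :=
  ⨆ r, ⨅ s, (⨅ z, mem z s ⇨ mem z lam) ⇨ ⨆ x, mem x kap ⊓
    ⨅ z, mem z lam ⇨ ((rel r x z ⇨ mem z s) ⊓ (mem z s ⇨ rel r x z))

/-! ### transfer -/

variable (U : Ult B)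

theorem isPair_iff (x y : BN B) (m : MQ U) : IsPair (ME U) (cl U x) (cl U y) m ↔
    m = cl U (upair x y) := by
  constructor
  · intro h
    refine (isZFC U).extensionality _ _ fun z => ?_
    rw [h z]
    revert z
    rw [cl_forall U]
    intro z
    rw [ME_cl, mem_upair, U.sup, cl_eq, cl_eq]
  · rintro rfl
    rw [IsPair, cl_forall U]
    intro z
    rw [ME_cl, mem_upair, U.sup, cl_eq, cl_eq]

theorem rel_iff (r x y : BN B) : Rel (ME U) (cl U r) (cl U x) (cl U y) ↔ U.T (rel r x y) := by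
  simp only [Rel, IsOPair, isPair_iff]
  constructor
  · rintro ⟨p, ⟨s, d, rfl, rfl, hp⟩, h⟩
    rw [isPair_iff] at hp
    subst hp
    exact h
  · intro h
    exact ⟨cl U (opair x y), ⟨_, _, rfl, rfl, (isPair_iff U _ _ _).2 rfl⟩, h⟩

instance extC_isTransB {f : BN B → BN B} [CongC f] : ExtC (fun t => isTransB (f t)) :=
  ⟨by unfold isTransB; exact ExtC.h⟩

instance extC_isOrdB {f : BN B → BN B} [CongC f] : ExtC (fun t => isOrdB (f t)) :=
  ⟨by unfold isOrdB; exact ExtC.h⟩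

instance extC_isLimB {f : BN B → BN B} [CongC f] : ExtC (fun t => isLimB (f t)) :=
  ⟨by unfold isLimB; exact ExtC.h⟩

instance extC_isSuccB {f k : BN B → BN B} [CongC f] [CongC k] : ExtC (fun t => isSuccB (f t) (k t)) :=
  ⟨by unfold isSuccB; exact ExtC.h⟩

instance extC_isFunB {f k l : BN B → BN B} [CongC f] [CongC k] [CongC l] :
    ExtC (fun t => isFunB (f t) (k t) (l t)) :=
  ⟨by unfold isFunB; exact ExtC.h⟩

instance extC_mapsOntoB {f k l : BN B → BN B} [CongC f] [CongC k] [CongC l] :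
    ExtC (fun t => mapsOntoB (f t) (k t) (l t)) :=
  ⟨by unfold mapsOntoB; exact ExtC.h⟩

instance extC_inCB {k c x y : BN B → BN B} [CongC k] [CongC c] [CongC x] [CongC y] :
    ExtC (fun t => inCB (k t) (c t) (x t) (y t)) :=
  ⟨by unfold inCB; exact ExtC.h⟩

instance extC_unbInB {k c x y : BN B → BN B} [CongC k] [CongC c] [CongC x] [CongC y] :
    ExtC (fun t => unbInB (k t) (c t) (x t) (y t)) :=
  ⟨by unfold unbInB; exact ExtC.h⟩

instance extC_isEnumB {k c x θ e : BN B → BN B} [CongC k] [CongC c] [CongC x] [CongC θ] [CongC e] :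
    ExtC (fun t => isEnumB (k t) (c t) (x t) (θ t) (e t)) :=
  ⟨by unfold isEnumB; exact ExtC.h⟩

instance extC_isClubB {k d : BN B → BN B} [CongC k] [CongC d] : ExtC (fun t => isClubB (k t) (d t)) :=
  ⟨by unfold isClubB; exact ExtC.h⟩

instance extC_isSquareSeqB {l k c : BN B → BN B} [CongC l] [CongC k] [CongC c] :
    ExtC (fun t => isSquareSeqB (l t) (k t) (c t)) :=
  ⟨by unfold isSquareSeqB; exact ExtC.h⟩

instance : ExtC (isTransB : BN B → B) := ⟨(extC_isTransB (f := fun t => t)).h⟩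

instance : ExtC (isOrdB : BN B → B) := ⟨(extC_isOrdB (f := fun t => t)).h⟩

instance : ExtC (isLimB : BN B → B) := ⟨(extC_isLimB (f := fun t => t)).h⟩

instance (a : BN B) : ExtC (isSuccB a) := ⟨(extC_isSuccB (f := fun _ => a) (k := fun t => t)).h⟩

instance (a b : BN B) : ExtC (isFunB a b) :=
  ⟨(extC_isFunB (f := fun _ => a) (k := fun _ => b) (l := fun t => t)).h⟩

instance (a b : BN B) : ExtC (mapsOntoB a b) :=
  ⟨(extC_mapsOntoB (f := fun _ => a) (k := fun _ => b) (l := fun t => t)).h⟩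

instance (a b c : BN B) : ExtC (inCB a b c) :=
  ⟨(extC_inCB (k := fun _ => a) (c := fun _ => b) (x := fun _ => c) (y := fun t => t)).h⟩

instance (a b c : BN B) : ExtC (unbInB a b c) :=
  ⟨(extC_unbInB (k := fun _ => a) (c := fun _ => b) (x := fun _ => c) (y := fun t => t)).h⟩

instance (a b c d : BN B) : ExtC (isEnumB a b c d) :=
  ⟨(extC_isEnumB (k := fun _ => a) (c := fun _ => b) (x := fun _ => c) (θ := fun _ => d)
    (e := fun t => t)).h⟩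

instance (a : BN B) : ExtC (isClubB a) := ⟨(extC_isClubB (k := fun _ => a) (d := fun t => t)).h⟩

instance (a b : BN B) : ExtC (isSquareSeqB a b) :=
  ⟨(extC_isSquareSeqB (l := fun _ => a) (k := fun _ => b) (c := fun t => t)).h⟩

set_option linter.unusedSimpArgs false

theorem isTrans_iff (x : BN B) : IsTrans (ME U) (cl U x) ↔ U.T (isTransB x) := by
  simp only [IsTrans, isTransB, T_iInf', T_iSup', U.inf, U.sup, U.himp, U.compl,
    cl_forall U, cl_exists U, ME_cl, cl_eq]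

theorem isOrd_iff (x : BN B) : IsOrd (ME U) (cl U x) ↔ U.T (isOrdB x) := by
  simp only [IsOrd, isOrdB, T_iInf', T_iSup', U.inf, U.sup, U.himp, U.compl,
    cl_forall U, cl_exists U, ME_cl, cl_eq, isTrans_iff]

theorem isLim_iff (x : BN B) : IsLim (ME U) (cl U x) ↔ U.T (isLimB x) := by
  simp only [IsLim, isLimB, T_iInf', T_iSup', U.inf, U.sup, U.himp, U.compl,
    cl_forall U, cl_exists U, ME_cl, cl_eq, isOrd_iff]

theorem isSucc_iff (x y : BN B) : IsSucc (ME U) (cl U x) (cl U y) ↔ U.T (isSuccB x y) := by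
  simp only [IsSucc, isSuccB, T_iInf', T_iSup', U.inf, U.sup, U.himp, U.compl,
    cl_forall U, cl_exists U, ME_cl, cl_eq, iff_iff_implies_and_implies]

theorem isFun_iff (f x y : BN B) :
    IsFun (ME U) (cl U f) (cl U x) (cl U y) ↔ U.T (isFunB f x y) := by
  simp only [IsFun, isFunB, T_iInf', T_iSup', U.inf, U.sup, U.himp, U.compl,
    cl_forall U, cl_exists U, ME_cl, cl_eq, rel_iff]

theorem mapsOnto_iff (f x y : BN B) :
    MapsOnto (ME U) (cl U f) (cl U x) (cl U y) ↔ U.T (mapsOntoB f x y) := by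
  simp only [MapsOnto, mapsOntoB, T_iInf', T_iSup', U.inf, U.sup, U.himp,
    U.compl, cl_forall U, cl_exists U, ME_cl, cl_eq, rel_iff]

theorem isUncReg_iff (x : BN B) : IsUncReg (ME U) (cl U x) ↔ U.T (isUncRegB x) := by
  simp only [IsUncReg, isUncRegB, T_iInf', T_iSup', U.inf, U.sup, U.himp,
    U.compl, cl_forall U, cl_exists U, ME_cl, cl_eq, isOrd_iff, isLim_iff, isFun_iff, rel_iff]

theorem isSuccCard_iff (x y : BN B) :
    IsSuccCard (ME U) (cl U x) (cl U y) ↔ U.T (isSuccCardB x y) := by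
  simp only [IsSuccCard, isSuccCardB, T_iInf', T_iSup', U.inf, U.sup, U.himp,
    U.compl, cl_forall U, cl_exists U, ME_cl, cl_eq, isOrd_iff, mapsOnto_iff]

theorem inC_iff (k c x y : BN B) :
    InC (ME U) (cl U k) (cl U c) (cl U x) (cl U y) ↔ U.T (inCB k c x y) := by
  simp only [InC, inCB, U.inf, ME_cl, rel_iff]

theorem unbIn_iff (k c x y : BN B) :
    UnbIn (ME U) (cl U k) (cl U c) (cl U x) (cl U y) ↔ U.T (unbInB k c x y) := by
  simp only [UnbIn, unbInB, T_iInf', T_iSup', U.inf, U.sup, U.himp,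
    U.compl, cl_forall U, cl_exists U, ME_cl, cl_eq, inC_iff]

theorem isEnum_iff (k c x θ e : BN B) :
    IsEnum (ME U) (cl U k) (cl U c) (cl U x) (cl U θ) (cl U e) ↔ U.T (isEnumB k c x θ e) := by
  simp only [IsEnum, isEnumB, T_iInf', T_iSup', U.inf, U.sup, U.himp,
    U.compl, cl_forall U, cl_exists U, ME_cl, cl_eq, inC_iff, rel_iff]

theorem isClub_iff (k d : BN B) :
    IsClub (ME U) (cl U k) (cl U d) ↔ U.T (isClubB k d) := by
  simp only [IsClub, isClubB, T_iInf', T_iSup', U.inf, U.sup, U.himp,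
    U.compl, cl_forall U, cl_exists U, ME_cl, cl_eq, isLim_iff]

theorem isSquareSeq_iff (l k c : BN B) :
    IsSquareSeq (ME U) (cl U l) (cl U k) (cl U c) ↔ U.T (isSquareSeqB l k c) := by
  simp only [IsSquareSeq, isSquareSeqB, T_iInf', T_iSup', U.inf, U.sup, U.himp,
    U.compl, cl_forall U, cl_exists U, ME_cl, cl_eq, isLim_iff, inC_iff, unbIn_iff, isEnum_iff,
    iff_iff_implies_and_implies]

set_option synthInstance.maxSize 4000 in
theorem os_iff (l k : BN B) : OS (ME U) (cl U l) (cl U k) ↔ U.T (osB l k) := by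
  simp only [OS, osB, T_iInf', T_iSup', U.inf, U.sup, U.himp,
    U.compl, cl_forall U, cl_exists U, ME_cl, cl_eq, isLim_iff, inC_iff, unbIn_iff, isEnum_iff,
    isSquareSeq_iff, isClub_iff, isSucc_iff, rel_iff]

theorem chAt_iff (l k : BN B) : CHAt (ME U) (cl U l) (cl U k) ↔ U.T (chAtB l k) := by
  simp only [CHAt, chAtB, T_iInf', T_iSup', U.inf, U.sup, U.himp,
    U.compl, cl_forall U, cl_exists U, ME_cl, cl_eq, rel_iff, iff_iff_implies_and_implies]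

end BN
end H85.Forcing
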