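import Pool.Agent.H85.Forcing.Poset
import Pool.Agent.H85.Forcing.OSLos

/-!
# Forced statements about ordinals
-/

universe u

open Set Ordinal

namespace H85.Forcing
open BN RO

section general
variable {P : Type u} [Preorder P] {K : Type u} [LinearOrder K] [WellFoundedLT K]

theorem forces_mem_ordN {p : P} {i j : K} : p ∈ (mem (ordN i) (ordN j) : RO P) ↔ i < j := by
  by_cases h : i < j
  · rw [mem_ordN_of_lt h]; exact iff_of_true forces_top h
  · rw [mem_ordN_of_not_lt h]; exact iff_of_false not_forces_bot h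

theorem forces_beq_ordN {p : P} {i j : K} : p ∈ (beq (ordN i) (ordN j) : RO P) ↔ i = j := by
  by_cases h : i = j
  · subst h; rw [beq_refl]; exact iff_of_true forces_top rfl
  · rw [beq_ordN_of_ne h]; exact iff_of_false not_forces_bot h

theorem forces_mem_kapN {p : P} {i : K} : p ∈ (mem (ordN i) (kapN K) : RO P) ↔ True := by
  rw [mem_ordN_kapN]; exact iff_of_true forces_top trivial

theorem forces_ball_ordN {φ : BN (RO P) → RO P} [hφ : ExtC φ] {p : P} {k : K} :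
    p ∈ (⨅ x, mem x (ordN k) ⇨ φ x) ↔ ∀ j < k, p ∈ φ (ordN j) := by
  rw [ball_ordN hφ.h, forces_iInf]
  simp

theorem forces_bex_ordN {φ : BN (RO P) → RO P} [hφ : ExtC φ] {p : P} {k : K} :
    p ∈ (⨆ x, mem x (ordN k) ⊓ φ x) ↔ ∀ q ≤ p, ∃ r ≤ q, ∃ j < k, r ∈ φ (ordN j) := by
  rw [bex_ordN hφ.h, forces_iSup]
  simp

theorem forces_ball_kapN {φ : BN (RO P) → RO P} [hφ : ExtC φ] {p : P} :
    p ∈ (⨅ x, mem x (kapN K) ⇨ φ x) ↔ ∀ j : K, p ∈ φ (ordN j) := by
  rw [ball_kapN hφ.h, forces_iInf]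

theorem forces_bex_kapN {φ : BN (RO P) → RO P} [hφ : ExtC φ] {p : P} :
    p ∈ (⨆ x, mem x (kapN K) ⊓ φ x) ↔ ∀ q ≤ p, ∃ r ≤ q, ∃ j : K, r ∈ φ (ordN j) := by
  rw [bex_kapN hφ.h, forces_iSup]

theorem isTransB_ordN {p : P} (k : K) : p ∈ (isTransB (ordN k) : RO P) := by
  unfold isTransB
  simp only [forces_ball_ordN, forces_mem_ordN]
  exact fun j hj i hi => hi.trans hj

theorem isOrdB_ordN {p : P} (k : K) : p ∈ (isOrdB (ordN k) : RO P) := by
  unfold isOrdB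
  simp only [forces_inf, forces_ball_ordN]
  exact ⟨isTransB_ordN k, fun j _ => isTransB_ordN j⟩

theorem isOrdB_kapN {p : P} : p ∈ (isOrdB (kapN K) : RO P) := by
  unfold isOrdB isTransB
  simp only [forces_inf, forces_ball_kapN, forces_ball_ordN, forces_mem_kapN,
    forces_mem_ordN]
  exact ⟨fun _ _ _ => trivial, fun j i hi l hl => hl.trans hi⟩

theorem forces_const {p : P} {φ : Prop} : (∀ q ≤ p, ∃ r ≤ q, φ) ↔ φ :=
  ⟨fun h => by obtain ⟨_, _, h⟩ := h p le_rfl; exact h, fun h q _ => ⟨q, le_rfl, h⟩⟩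

theorem forces_isLimB {p : P} (k : K) :
    p ∈ (isLimB (ordN k) : RO P) ↔ (∃ β, β < k) ∧ ∀ β < k, ∃ γ < k, β < γ := by
  unfold isLimB
  have h1 : (⨆ y, mem y (ordN k) : RO P) = ⨆ y, mem y (ordN k) ⊓ ⊤ := by simp
  rw [h1]
  simp only [forces_inf, forces_ball_ordN, forces_bex_ordN, forces_mem_ordN,
    forces_const]
  constructor
  · rintro ⟨-, h2, h3⟩
    obtain ⟨_, _, j, hj, -⟩ := h2 p le_rfl
    exact ⟨⟨j, hj⟩, h3⟩
  · rintro ⟨⟨j, hj⟩, h3⟩
    exact ⟨isOrdB_ordN k, fun q _ => ⟨q, le_rfl, j, hj, forces_top⟩, h3⟩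

end general

end H85.Forcing
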