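import Pool.Agent.H85.Forcing.Forced

/-!
# Cardinals in the extension: `ω₁` is preserved, `K` becomes its successor, `CH` fails at `ω₁`
-/

open Set Ordinal Cardinal

namespace H85.Forcing
open BN RO

/-- names over the forcing notion -/
abbrev Nm : Type 2 := BN (RO Cond)

theorem countable_Iio_of_lt {x : K} (h : x < ω₁) : (Set.Iio x).Countable := by
  rw [← le_aleph0_iff_set_countable, ← lt_aleph_one_iff, Cardinal.mk_Iio_ordinal]
  have h2 : x.card < ℵ₁ := by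
    rw [← Cardinal.lt_ord]; simpa using h
  have := Cardinal.lift_lt.{0,1}.2 h2
  simpa using this

theorem lt_omega1_of_countable {x : K} (h : (Set.Iio x).Countable) : x < ω₁ := by
  rw [← le_aleph0_iff_set_countable, ← lt_aleph_one_iff, Cardinal.mk_Iio_ordinal] at h
  have h1 : Cardinal.lift.{1,0} x.card < Cardinal.lift.{1,0} ℵ₁ := by simpa using h
  have h2 := Cardinal.lift_lt.1 h1
  rw [← Cardinal.lt_ord] at h2; simpa using h2

theorem exists_not_mem {S : Set K} (hS : S.Countable) : ∃ ξ < (ω₁ : K), ξ ∉ S := by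
  have : Countable (S ∩ Iio ω₁ : Set K) := (hS.mono inter_subset_left).to_subtype
  obtain ⟨b, hb, h⟩ := exists_lt_omega1 (fun x : (S ∩ Iio ω₁ : Set K) => x.1) (fun x => x.2.2)
  exact ⟨b, hb, fun hbS => absurd (h ⟨b, hbS, hb⟩) (lt_irrefl _)⟩

theorem forces_isUncReg (p : Cond) : p ∈ (isUncRegB (ordN (ω₁ : K)) : RO Cond) := by
  unfold isUncRegB
  simp only [forces_inf, forces_ball_ordN, forces_bex_ordN]
  refine ⟨isOrdB_ordN _, fun q _ => ⟨q, le_rfl, ω, Ordinal.omega0_lt_omega_one, ?_⟩, ?_⟩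
  · rw [forces_isLimB]
    refine ⟨⟨0, Ordinal.omega0_pos⟩, fun β hβ => ⟨β + 1, ?_, ?_⟩⟩
    · exact Ordinal.isSuccLimit_omega0.add_one_lt hβ
    · exact Order.lt_add_one_iff.2 le_rfl
  · intro x hx
    rw [forces_iInf]
    intro f
    rw [forces_himp]
    intro q hq hf
    unfold isFunB at hf
    simp only [forces_inf, forces_ball_ordN, forces_bex_ordN] at hf ⊢
    intro q' hq'
    have : Countable (Iio x) := (countable_Iio_of_lt hx).to_subtype
    obtain ⟨r, hr, hT⟩ := Cond.exists_tasks (ι := Iio x) q'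
      (fun u r => ∃ v < (ω₁ : K), r ∈ ⨅ w, rel f (ordN u.1) w ⇨ beq w (ordN v))
      (fun u q r hrq ⟨v, hv, h⟩ => ⟨v, hv, h.down hrq⟩)
      (fun u r hr => by
        obtain ⟨s, hs, v, hv, h⟩ := hf u.1 u.2 r (hr.trans hq')
        exact ⟨s, hs, v, hv, h.2⟩)
    choose v hv1 hv2 using hT
    obtain ⟨b, hb, hb2⟩ := exists_lt_omega1 v hv1
    refine ⟨r, hr, b, hb, fun u hu => ?_⟩
    rw [forces_iInf]
    intro w
    rw [forces_himp]
    intro s hs hw
    have h1 := forces_iInf.1 ((hv2 ⟨u, hu⟩).down hs) w s le_rfl hw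
    have h2 : s ∈ (mem (ordN (v ⟨u, hu⟩)) (ordN b) : RO Cond) := forces_mem_ordN.2 (hb2 ⟨u, hu⟩)
    exact le_iff_forces.1 (mem_congr_left (z := ordN b) (g := beq w (ordN (v ⟨u, hu⟩)) ⊓
      mem (ordN (v ⟨u, hu⟩)) (ordN b)) (bsymm inf_le_left) inf_le_right) s ⟨h1, h2⟩

/-- general members of the graph of a name of a relation -/
theorem rel_relN' (R : K → K → RO Cond) (i : K) (v : Nm) :
    rel (relN R) (ordN i) v = ⨆ j, R i j ⊓ beq v (ordN j) := by
  rw [rel, relN, mem_mk]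
  apply le_antisymm
  · refine iSup_le fun p => ?_
    obtain ⟨i', j'⟩ := p
    by_cases hi : i = i'
    · subst hi
      exact bex_intro j' (le_inf inf_le_left (opair_inj_right inf_le_right))
    · have := opair_inj_left (inf_le_right :
          R i' j' ⊓ beq (opair (ordN i) v) (opair (ordN i') (ordN j')) ≤ _)
      rw [beq_ordN_of_ne hi] at this
      exact this.trans bot_le
  · refine iSup_le fun j => bex_intro (i, j) (le_inf inf_le_left ?_)
    exact cong_opair brefl inf_le_right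

/-- the generic surjection onto `α` -/
def colR (α ξ β : K) : RO Cond :=
  regl fun s => ((Sum.inl α, ξ) : J) ∈ s.2.D ∧ s.2.g (Sum.inl α, ξ) = β

theorem forces_colR {p : Cond} {α ξ β : K} : p ∈ colR α ξ β ↔
    ∀ q ≤ p, ∃ r ≤ q, ((Sum.inl α, ξ) : J) ∈ r.2.D ∧ r.2.g (Sum.inl α, ξ) = β := by
  unfold colR
  rw [forces_regl]
  constructor
  · intro h q hq
    obtain ⟨r, hr, s, hs, hrs⟩ := h q hq
    exact ⟨r, hr, hrs.2.1 hs.1, (hrs.2.2 _ hs.1).trans hs.2⟩
  · intro h q hq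
    obtain ⟨r, hr, hr2⟩ := h q hq
    exact ⟨r, hr, r, hr2, le_rfl⟩

theorem forces_mapsOnto (p : Cond) (α : K) :
    p ∈ mapsOntoB (relN (colR α)) (ordN ω₁) (ordN α) := by
  unfold mapsOntoB
  simp only [forces_inf, forces_ball_ordN, forces_bex_ordN]
  constructor
  · intro u _
    rw [forces_iInf]; intro v
    rw [forces_iInf]; intro w
    rw [forces_himp]; intro q _ h1
    rw [forces_himp]; intro r hr h2
    rw [rel_relN'] at h1 h2
    refine forces_of_dense fun s hs => ?_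
    obtain ⟨s1, hs1, j, hj⟩ := forces_iSup.1 h1 s (hs.trans hr)
    obtain ⟨s2, hs2, j', hj'⟩ := forces_iSup.1 h2 s1 (hs1.trans hs)
    have e1 : s2 ∈ colR α u j := Forces.down hj.1 hs2
    obtain ⟨s3, hs3, h3, h4⟩ := forces_colR.1 e1 s2 le_rfl
    obtain ⟨s4, hs4, h5, h6⟩ := forces_colR.1 hj'.1 s3 hs3
    have e : j = j' := by rw [← h4, ← h6]; exact (hs4.2.2 _ h3).symm
    subst e
    refine ⟨s2, hs2.trans hs1, ?_⟩
    exact le_iff_forces.1 (btrans (g := beq v (ordN j) ⊓ beq w (ordN j)) inf_le_left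
      (bsymm inf_le_right)) s2 ⟨Forces.down hj.2 hs2, hj'.2⟩
  · intro β hβ q _
    have hct : {ξ : K | ((Sum.inl α, ξ) : J) ∈ q.2.D}.Countable :=
      q.2.ctD.preimage (f := fun ξ : K => ((Sum.inl α, ξ) : J))
        (fun a b h => (Prod.ext_iff.1 h).2)
    obtain ⟨ξ, hξ, hξ2⟩ := exists_not_mem hct
    obtain ⟨r, hr, hr1, hr2⟩ := q.2.add (j := (Sum.inl α, ξ)) hξ2 (v := β) hβ
    refine ⟨(q.1, r), ⟨le_rfl, hr⟩, ξ, hξ, ?_⟩
    rw [rel_relN, forces_colR]
    have hr3 : ((Sum.inl α, ξ) : J) ∈ r.D := by rw [hr1]; exact mem_insert _ _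
    exact fun s hs => ⟨s, le_rfl, hs.2.1 hr3, (hs.2.2 _ hr3).trans hr2⟩

theorem forces_isSuccCard (p : Cond) : p ∈ (isSuccCardB (ordN (ω₁ : K)) (kapN K) : RO Cond) := by
  unfold isSuccCardB
  simp only [forces_inf, forces_ball_kapN, forces_compl]
  refine ⟨isOrdB_kapN, fun α => forces_iSup_of _ (forces_mapsOnto p α), fun q _ hq => ?_⟩
  obtain ⟨r, -, f, hf⟩ := forces_iSup.1 hq q le_rfl
  unfold mapsOntoB at hf
  simp only [forces_inf, forces_ball_ordN, forces_ball_kapN,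
    forces_bex_ordN] at hf
  obtain ⟨hf1, hf2⟩ := hf
  have h1 : ∀ v : K, ∃ s ≤ r, ∃ u < (ω₁ : K), s ∈ rel f (ordN u) (ordN v) := by
    intro v
    obtain ⟨s, hs, u, hu, h⟩ := hf2 v r le_rfl
    exact ⟨s, hs, u, hu, h⟩
  choose s hs u hu h using h1
  have hsmall : ∀ x : K, Small.{0} {v | u v = x} := by
    intro x
    refine small_index _ s ?_
    rintro v hv w hw hvw ⟨t, ht1, ht2⟩
    have hv' : u v = x := hv
    have hw' : u w = x := hw
    have e1 := (h v).down ht1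
    have e2 := (h w).down ht2
    rw [hv'] at e1
    rw [hw'] at e2
    have e3 := forces_iInf.1 (forces_iInf.1 (hf1 x (hv' ▸ hu v)) (ordN v)) (ordN w)
    have e4 := forces_himp.1 (forces_himp.1 (e3.down (ht1.trans (hs v))) t le_rfl e1) t le_rfl e2
    exact hvw (forces_beq_ordN.1 e4)
  have hU : (Set.univ : Set K) = ⋃ x ∈ Iio (ω₁ : K), {v | u v = x} := by
    ext v
    simp only [mem_univ, true_iff]
    exact mem_iUnion₂.2 ⟨u v, hu v, rfl⟩
  have hs' : Small.{0} (⋃ x ∈ Iio (ω₁ : K), {v | u v = x} : Set K) := by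
    have : ∀ x : Iio (ω₁ : K), Small.{0} {v | u v = x.1} := fun x => hsmall x.1
    rw [biUnion_eq_iUnion]
    infer_instance
  rw [← hU, small_univ_iff] at hs'
  exact not_small_ordinal hs'

/-- the generic subset of `ω₁` with index `X` -/
noncomputable def genA (X : Set K) (ξ : K) : RO Cond :=
  regl fun s => ξ < ω₁ ∧ ((Sum.inr X, ξ) : J) ∈ s.2.D ∧ s.2.g (Sum.inr X, ξ) = 1

theorem forces_genA {p : Cond} {X : Set K} {ξ : K} : p ∈ genA X ξ ↔
    ∀ q ≤ p, ∃ r ≤ q, ξ < ω₁ ∧ ((Sum.inr X, ξ) : J) ∈ r.2.D ∧ r.2.g (Sum.inr X, ξ) = 1 := by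
  unfold genA
  rw [forces_regl]
  constructor
  · intro h q hq
    obtain ⟨r, hr, s, hs, hrs⟩ := h q hq
    exact ⟨r, hr, hs.1, hrs.2.1 hs.2.1, (hrs.2.2 _ hs.2.1).trans hs.2.2⟩
  · intro h q hq
    obtain ⟨r, hr, hr2⟩ := h q hq
    exact ⟨r, hr, r, hr2, le_rfl⟩

theorem mem_setN' (A : K → RO Cond) (v : Nm) : mem v (setN A) = ⨆ j, A j ⊓ beq v (ordN j) := by
  rw [setN, mem_mk]

/-- a map from `Set K` to `K` has a fibre that is not small -/
theorem exists_big_fibre (a : Set K → K) : ∃ x, ¬ Small.{0} {X | a X = x} := by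
  by_contra hcon
  push Not at hcon
  have h1 : #(Set K) ≤ #K := by
    have hK : ℵ₀ ≤ #K := Cardinal.aleph0_le_mk K
    have hU : (Set.univ : Set (Set K)) = ⋃ x, {X | a X = x} := by
      ext X; simp
    calc #(Set K) = #(Set.univ : Set (Set K)) := Cardinal.mk_univ.symm
      _ = #(⋃ x, {X | a X = x} : Set (Set K)) := by rw [← hU]
      _ ≤ #K * ⨆ x, #{X | a X = x} := Cardinal.mk_iUnion_le _
      _ ≤ #K * #K := by
          refine mul_le_mul_right ?_ _
          refine ciSup_le' fun x => ?_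
          have h2 := hcon x
          have h3 := (Cardinal.small_iff_lift_mk_lt_univ.{1, 0}).1 h2
          rw [Cardinal.mk_ordinal]
          simpa using h3.le
      _ = #K := Cardinal.mul_eq_self hK
  exact absurd (Cardinal.cantor #K) (not_lt.2 (by rwa [Cardinal.mk_set] at h1))

theorem forces_not_ch (p : Cond) :
    p ∈ ((chAtB (ordN (ω₁ : K)) (kapN K))ᶜ : RO Cond) := by
  rw [forces_compl]
  intro q _ hq
  unfold chAtB at hq
  obtain ⟨r, -, R, hR⟩ := forces_iSup.1 hq q le_rfl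
  rw [forces_iInf] at hR
  have h1 : ∀ X : Set K, ∃ s ≤ r, ∃ α : K, s ∈ ⨅ z, mem z (ordN (ω₁ : K)) ⇨
      ((rel R (ordN α) z ⇨ mem z (setN (genA X))) ⊓ (mem z (setN (genA X)) ⇨
        rel R (ordN α) z)) := by
    intro X
    have h2 := forces_himp.1 (hR (setN (genA X))) r le_rfl ?_
    · simp only [forces_bex_kapN] at h2
      obtain ⟨s, hs, α, h⟩ := h2 r le_rfl
      exact ⟨s, hs, α, h⟩
    · rw [forces_iInf]
      intro z
      rw [forces_himp]
      intro s _ hz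
      rw [mem_setN'] at hz
      refine forces_of_dense fun t ht => ?_
      obtain ⟨t1, ht1, j, hj1, hj2⟩ := forces_iSup.1 hz t ht
      obtain ⟨t2, ht2, hlt, -⟩ := forces_genA.1 hj1 t1 le_rfl
      refine ⟨t1, ht1, ?_⟩
      have h2 : t1 ∈ (mem (ordN j) (ordN (ω₁ : K)) : RO Cond) := forces_mem_ordN.2 hlt
      exact le_iff_forces.1 (mem_congr_left (z := ordN (ω₁ : K)) (g := beq z (ordN j) ⊓
        mem (ordN j) (ordN (ω₁ : K))) (bsymm inf_le_left) inf_le_right) t1 ⟨hj2, h2⟩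
  choose s hs a ha using h1
  obtain ⟨x, hx⟩ := exists_big_fibre a
  apply hx
  refine small_index _ s ?_
  rintro X hX Y hY hXY ⟨t, ht1, ht2⟩
  have hX' : a X = x := hX
  have hY' : a Y = x := hY
  have eX := (ha X).down ht1
  have eY := (ha Y).down ht2
  rw [hX'] at eX
  rw [hY'] at eY
  simp only [forces_ball_ordN, forces_inf, mem_setN] at eX eY
  have hct : {ξ : K | ((Sum.inr X, ξ) : J) ∈ t.2.D ∨ ((Sum.inr Y, ξ) : J) ∈ t.2.D}.Countable := by
    have c1 : {ξ : K | ((Sum.inr X, ξ) : J) ∈ t.2.D}.Countable :=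
      t.2.ctD.preimage (f := fun ξ : K => ((Sum.inr X, ξ) : J)) (fun a b h => (Prod.ext_iff.1 h).2)
    have c2 : {ξ : K | ((Sum.inr Y, ξ) : J) ∈ t.2.D}.Countable :=
      t.2.ctD.preimage (f := fun ξ : K => ((Sum.inr Y, ξ) : J)) (fun a b h => (Prod.ext_iff.1 h).2)
    exact c1.union c2
  obtain ⟨ξ, hξ, hξ2⟩ := exists_not_mem hct
  have n1 : ((Sum.inr X, ξ) : J) ∉ t.2.D := fun h => hξ2 (Or.inl h)
  have n2 : ((Sum.inr Y, ξ) : J) ∉ t.2.D := fun h => hξ2 (Or.inr h)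
  obtain ⟨t1, ht1', h3, h4⟩ := t.2.add (j := (Sum.inr X, ξ)) n1 (v := 1)
    (show (1 : K) < 2 from one_lt_two)
  have n3 : ((Sum.inr Y, ξ) : J) ∉ t1.D := by
    rw [h3]
    rintro (h | h)
    · exact hXY (Sum.inr_injective (Prod.ext_iff.1 h).1).symm
    · exact n2 h
  obtain ⟨t2, ht2', k3, k4⟩ := t1.add (j := (Sum.inr Y, ξ)) n3 (v := 0)
    (show (0 : K) < 2 from zero_lt_two)
  have hle : ((t.1, t2) : Cond) ≤ t := ⟨le_rfl, ht2'.trans ht1'⟩
  have m1 : ((Sum.inr X, ξ) : J) ∈ t1.D := by rw [h3]; exact mem_insert _ _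
  have m2 : ((Sum.inr Y, ξ) : J) ∈ t2.D := by rw [k3]; exact mem_insert _ _
  have f1 : ((t.1, t2) : Cond) ∈ genA X ξ := by
    rw [forces_genA]
    intro w hw
    exact ⟨w, le_rfl, hξ, hw.2.1 (ht2'.1 m1),
      (hw.2.2 _ (ht2'.1 m1)).trans ((ht2'.2 _ m1).trans h4)⟩
  have f2 : ((t.1, t2) : Cond) ∈ rel R (ordN x) (ordN ξ) := (eX ξ hξ).2 _ hle f1
  have f3 : ((t.1, t2) : Cond) ∈ genA Y ξ := (eY ξ hξ).1 _ hle f2
  obtain ⟨w, hw, -, -, hw2⟩ := forces_genA.1 f3 _ le_rfl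
  rw [hw.2.2 _ m2, k4] at hw2
  exact absurd hw2 zero_ne_one

end H85.Forcing
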