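import Pool.Agent.H85.Forcing.SqPoset

/-!
# The chain condition

A family of countable partial functions with small sets of possible values, pairwise not agreeing
on the common domain, is small.
-/

open Set Ordinal Cardinal

namespace H85.Forcing

/-- A countable set of ordinals `< ω₁` is bounded below `ω₁`. -/
theorem exists_lt_omega1 {ι : Type*} [Countable ι] (f : ι → K) (h : ∀ i, f i < ω₁) :
    ∃ b < ω₁, ∀ i, f i < b := by
  have h1 : ∀ i, f i + 1 < (ω₁ : K) := fun i =>
    (Cardinal.isSuccLimit_omega 1).add_one_lt (h i)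
  refine ⟨⨆ i, (f i + 1), Ordinal.iSup_lt_omega_one h1, fun i => ?_⟩
  have : f i + 1 ≤ ⨆ i, (f i + 1) := by
    have : Small.{0} ι := Countable.toSmall ι
    exact Ordinal.le_iSup (fun i => f i + 1) i
  exact (Order.lt_add_one_iff.2 le_rfl).trans_le this

theorem small_of_agree {P X V : Type 1} (supp : P → Set X) (tr : P → X → V) (Val : X → Set V)
    (hct : ∀ p, (supp p).Countable) (hval : ∀ x, Small.{0} (Val x)) (htr : ∀ p x, tr p x ∈ Val x)
    (A : Set P)
    (hA : ∀ p ∈ A, ∀ q ∈ A, (∀ x ∈ supp p, x ∈ supp q → tr p x = tr q x) → p = q) :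
    Small.{0} A := by
  classical
  -- representatives
  have hrep : ∀ D : Set X, D.Countable → ∃ R : Set P, Small.{0} R ∧ R ⊆ A ∧
      ∀ p ∈ A, ∃ q ∈ R, ∀ x ∈ D, tr q x = tr p x := by
    intro D hD
    have : Countable D := hD.to_subtype
    let f : A → (∀ x : D, Val x.1) := fun p x => ⟨tr p.1 x.1, htr p.1 x.1⟩
    have : Small.{0} (∀ x : D, Val x.1) := small_Pi _
    have : Small.{0} (range f) := inferInstance
    let s : range f → P := fun y => (y.2.choose).1
    refine ⟨range s, inferInstance, ?_, ?_⟩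
    · rintro _ ⟨y, rfl⟩
      exact (y.2.choose).2
    · intro p hp
      refine ⟨s ⟨f ⟨p, hp⟩, ⟨p, hp⟩, rfl⟩, ⟨_, rfl⟩, fun x hx => ?_⟩
      have h := (⟨⟨p, hp⟩, rfl⟩ : ∃ a, f a = f ⟨p, hp⟩).choose_spec
      have h2 := congrFun h ⟨x, hx⟩
      exact congrArg Subtype.val h2
  let R : Set X → Set P := fun D => if h : D.Countable then (hrep D h).choose else ∅
  have hR : ∀ D : Set X, D.Countable → Small.{0} (R D) ∧ R D ⊆ A ∧
      ∀ p ∈ A, ∃ q ∈ R D, ∀ x ∈ D, tr q x = tr p x := by
    intro D hD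
    have : R D = (hrep D hD).choose := dif_pos hD
    rw [this]
    exact (hrep D hD).choose_spec
  have hRs : ∀ D : Set X, Small.{0} (R D) := by
    intro D
    by_cases hD : D.Countable
    · exact (hR D hD).1
    · have : R D = ∅ := dif_neg hD
      rw [this]; infer_instance
  let cs : Set X → Set (Set X) := fun W => {D | D ∈ 𝒫 W ∧ D.Countable}
  have hcs : ∀ W : Set X, Small.{0} W → Small.{0} (cs W) := by
    intro W hW
    exact small_subset (s := 𝒫 W) (t := cs W) (fun D hD => hD.1)
  let Step : Set X → Set X := fun W => ⋃ D ∈ cs W, ⋃ q ∈ R D, supp q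
  have hsupp : ∀ q, Small.{0} (supp q) := fun q => by
    have := (hct q).to_subtype
    exact Countable.toSmall _
  have hStep : ∀ W : Set X, Small.{0} W → Small.{0} (Step W) := by
    intro W hW
    have := hcs W hW
    have : ∀ D : cs W, Small.{0} (⋃ q ∈ R D.1, supp q : Set X) := by
      intro D
      have := hRs D.1
      have : ∀ q : R D.1, Small.{0} (supp q.1) := fun q => hsupp q.1
      rw [biUnion_eq_iUnion]
      infer_instance
    change Small.{0} (⋃ D ∈ cs W, ⋃ q ∈ R D, supp q : Set X)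
    rw [biUnion_eq_iUnion]
    infer_instance
  let W : K → Set X := WellFoundedLT.fix fun i ih => ⋃ j : {j : K // j < i}, Step (ih j.1 j.2)
  have hW : ∀ i, W i = ⋃ j : {j : K // j < i}, Step (W j.1) := fun i => WellFoundedLT.fix_eq _ i
  have hWs : ∀ i, Small.{0} (W i) := by
    intro i
    induction i using WellFoundedLT.induction with
    | ind i ih =>
      rw [hW i]
      have : Small.{0} {j : K // j < i} := Ordinal.small_Iio i
      have : ∀ j : {j : K // j < i}, Small.{0} (Step (W j.1)) := fun j => hStep _ (ih j.1 j.2)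
      infer_instance
  -- closure under countable sets
  have hclosed : ∀ D : Set X, D.Countable → D ⊆ W ω₁ → ∀ q ∈ R D, supp q ⊆ W ω₁ := by
    intro D hD hDW q hq
    have h1 : ∀ x : D, ∃ j : K, j < ω₁ ∧ x.1 ∈ Step (W j) := by
      intro x
      have := hDW x.2
      rw [hW ω₁] at this
      obtain ⟨j, hj⟩ := mem_iUnion.1 this
      exact ⟨j.1, j.2, hj⟩
    choose j hj1 hj2 using h1
    have : Countable D := hD.to_subtype
    obtain ⟨b, hb, hb2⟩ := exists_lt_omega1 j hj1
    have hDb : D ⊆ W b := by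
      intro x hx
      rw [hW b]
      exact mem_iUnion.2 ⟨⟨j ⟨x, hx⟩, hb2 _⟩, hj2 ⟨x, hx⟩⟩
    have h2 : supp q ⊆ Step (W b) := by
      intro x hx
      exact mem_iUnion₂.2 ⟨D, ⟨hDb, hD⟩, mem_iUnion₂.2 ⟨q, hq, hx⟩⟩
    intro x hx
    rw [hW ω₁]
    exact mem_iUnion.2 ⟨⟨b, hb⟩, h2 hx⟩
  -- all of `A` is captured
  have hsub : A ⊆ ⋃ D ∈ cs (W ω₁), R D := by
    intro p hp
    let D := supp p ∩ W ω₁
    have hD : D.Countable := (hct p).mono inter_subset_left
    obtain ⟨-, hRA, hR3⟩ := hR D hD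
    obtain ⟨q, hq, hqx⟩ := hR3 p hp
    have : p = q := by
      refine hA p hp q (hRA hq) fun x hx hx' => ?_
      exact (hqx x ⟨hx, hclosed D hD inter_subset_right q hq hx'⟩).symm
    rw [this]
    exact mem_iUnion₂.2 ⟨D, ⟨inter_subset_right, hD⟩, hq⟩
  have := hcs _ (hWs ω₁)
  have : ∀ D : cs (W ω₁), Small.{0} (R D.1) := fun D => hRs D.1
  have : Small.{0} (⋃ D ∈ cs (W ω₁), R D : Set P) := by
    rw [biUnion_eq_iUnion]
    infer_instance
  exact small_subset hsub

end H85.Forcing
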