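import Pool.Agent.H85.Forcing.Ords

/-!
# Extensionality as a class, so that it is found by instance search
-/

universe u

namespace H85.Forcing
namespace BN

variable {B : Type u} [CompleteBooleanAlgebra B]

class ExtC (φ : BN B → B) : Prop where
  h : Ext φ

class CongC (f : BN B → BN B) : Prop where
  h : Cong f

instance (priority := 2000) extC_const (a : B) : ExtC (fun _ : BN B => a) := ⟨ext_const a⟩

instance (priority := 2000) congC_id : CongC (fun x : BN B => x) := ⟨cong_id⟩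

instance (priority := 2000) congC_const (a : BN B) : CongC (fun _ : BN B => a) := ⟨cong_const a⟩

instance extC_inf {φ ψ : BN B → B} [ExtC φ] [ExtC ψ] : ExtC (fun x => φ x ⊓ ψ x) :=
  ⟨ext_inf ExtC.h ExtC.h⟩

instance extC_sup {φ ψ : BN B → B} [ExtC φ] [ExtC ψ] : ExtC (fun x => φ x ⊔ ψ x) :=
  ⟨ext_sup ExtC.h ExtC.h⟩

instance extC_himp {φ ψ : BN B → B} [ExtC φ] [ExtC ψ] : ExtC (fun x => φ x ⇨ ψ x) :=
  ⟨ext_himp ExtC.h ExtC.h⟩

instance extC_compl {φ : BN B → B} [ExtC φ] : ExtC (fun x => (φ x)ᶜ) := ⟨ext_compl ExtC.h⟩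

instance extC_iInf {ι : Sort*} {φ : ι → BN B → B} [∀ i, ExtC (φ i)] :
    ExtC (fun x => ⨅ i, φ i x) := ⟨ext_iInf fun _ => ExtC.h⟩

instance extC_iSup {ι : Sort*} {φ : ι → BN B → B} [∀ i, ExtC (φ i)] :
    ExtC (fun x => ⨆ i, φ i x) := ⟨ext_iSup fun _ => ExtC.h⟩

instance extC_mem {f k : BN B → BN B} [CongC f] [CongC k] : ExtC (fun x => mem (f x) (k x)) :=
  ⟨ext_mem CongC.h CongC.h⟩

instance extC_beq {f k : BN B → BN B} [CongC f] [CongC k] : ExtC (fun x => beq (f x) (k x)) :=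
  ⟨ext_beq CongC.h CongC.h⟩

instance extC_rel {f k l : BN B → BN B} [CongC f] [CongC k] [CongC l] :
    ExtC (fun x => rel (f x) (k x) (l x)) := ⟨ext_rel CongC.h CongC.h CongC.h⟩

instance congC_opair {f k : BN B → BN B} [CongC f] [CongC k] :
    CongC (fun x => opair (f x) (k x)) := ⟨Cong.opair CongC.h CongC.h⟩

instance congC_upair {f k : BN B → BN B} [CongC f] [CongC k] :
    CongC (fun x => upair (f x) (k x)) := ⟨fun x y => cong_upair (CongC.h x y) (CongC.h x y)⟩

instance extC_mem_eta {a : BN B} : ExtC (mem a) := ⟨ext_mem (cong_const a) cong_id⟩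

instance extC_beq_eta {a : BN B} : ExtC (beq a) := ⟨ext_beq (cong_const a) cong_id⟩

instance extC_rel_eta {a b : BN B} : ExtC (rel a b) :=
  ⟨ext_rel (cong_const a) (cong_const b) cong_id⟩

instance congC_opair_eta {a : BN B} : CongC (opair a) := ⟨Cong.opair (cong_const a) cong_id⟩

instance congC_upair_eta {a : BN B} : CongC (upair a) :=
  ⟨fun x y => cong_upair ((cong_const a) x y) (cong_id x y)⟩

variable (U : Ult B)

theorem T_iInf' {φ : BN B → B} [h : ExtC φ] : U.T (⨅ x, φ x) ↔ ∀ x, U.T (φ x) := T_iInf U h.h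

theorem T_iSup' {φ : BN B → B} [h : ExtC φ] : U.T (⨆ x, φ x) ↔ ∃ x, U.T (φ x) := T_iSup U h.h

end BN
end H85.Forcing
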