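import Mathlib

/-!
# Models of ZFC

First-order formulas in the language `{∈}`, satisfaction in a structure `(M, E)` (`E x y` is read
`x ∈ y`), and the axioms of ZFC for `(M, E)`.
-/

namespace H85.Forcing

/-- First-order formulas in the language `{∈}`; variables are indexed by `ℕ`. -/
inductive Fml : Type
  | bot : Fml
  | eq (i j : ℕ) : Fml
  | mem (i j : ℕ) : Fml
  | imp (φ ψ : Fml) : Fml
  | all (i : ℕ) (φ : Fml) : Fml

variable {M : Type*}

/-- Satisfaction of a formula in `(M, E)` under the assignment `v`. -/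
def Sat (E : M → M → Prop) : Fml → (ℕ → M) → Prop
  | .bot, _ => False
  | .eq i j, v => v i = v j
  | .mem i j, v => E (v i) (v j)
  | .imp φ ψ, v => Sat E φ v → Sat E ψ v
  | .all i φ, v => ∀ x, Sat E φ (Function.update v i x)

/-- `(M, E)` is a model of ZFC. Separation and replacement are schemas: one axiom for every
formula `φ` and every assignment `v` of parameters. -/
structure IsZFC (E : M → M → Prop) : Prop where
  nonempty : Nonempty M
  extensionality : ∀ x y, (∀ z, E z x ↔ E z y) → x = y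
  foundation : ∀ x, (∃ y, E y x) → ∃ y, E y x ∧ ∀ z, E z y → ¬ E z x
  pairing : ∀ x y, ∃ z, ∀ w, E w z ↔ w = x ∨ w = y
  union : ∀ x, ∃ u, ∀ w, E w u ↔ ∃ y, E y x ∧ E w y
  powerset : ∀ x, ∃ p, ∀ w, E w p ↔ ∀ z, E z w → E z x
  infinity : ∃ x, (∃ e, E e x ∧ ∀ z, ¬ E z e) ∧
    ∀ y, E y x → ∃ s, E s x ∧ ∀ z, E z s ↔ E z y ∨ z = y
  separation : ∀ (φ : Fml) (v : ℕ → M) (x : M),
    ∃ y, ∀ z, E z y ↔ E z x ∧ Sat E φ (Function.update v 0 z)
  replacement : ∀ (φ : Fml) (v : ℕ → M) (x : M),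
    (∀ z, E z x → ∃! w, Sat E φ (Function.update (Function.update v 0 z) 1 w)) →
    ∃ y, ∀ w, E w y ↔ ∃ z, E z x ∧ Sat E φ (Function.update (Function.update v 0 z) 1 w)
  choice : ∀ x, (∀ y, E y x → ∃ z, E z y) →
    (∀ y z, E y x → E z x → (∃ w, E w y ∧ E w z) → y = z) →
    ∃ c, ∀ y, E y x → ∃! w, E w y ∧ E w c

end H85.Forcing
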