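import Pool.Agent.H85.Forcing.Guess

/-!
# The Ostaszewski square holds in the extension
-/

open Set Ordinal Cardinal

namespace H85.Forcing
open BN RO

theorem mem_ordN_succ (z : Nm) (i : K) :
    mem z (ordN (i + 1)) = mem z (ordN i) ⊔ beq z (ordN i) := by
  rw [mem_ordN, mem_ordN]
  apply le_antisymm
  · refine iSup_le ?_
    rintro ⟨j, hj⟩
    rcases (Order.lt_add_one_iff.1 hj).eq_or_lt with h | h
    · subst h; exact le_sup_right
    · exact le_sup_of_le_left (le_iSup (fun j : {j : K // j < i} => beq z (ordN j.1)) ⟨j, h⟩)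
  · refine sup_le ?_ ?_
    · refine iSup_le ?_
      rintro ⟨j, hj⟩
      exact le_iSup (fun j : {j : K // j < i + 1} => beq z (ordN j.1))
        ⟨j, hj.trans (Order.lt_add_one_iff.2 le_rfl)⟩
    · exact le_iSup (fun j : {j : K // j < i + 1} => beq z (ordN j.1))
        ⟨i, Order.lt_add_one_iff.2 le_rfl⟩

theorem isSuccB_le (i : K) (j : Nm) : isSuccB (ordN i) j ≤ beq j (ordN (i + 1)) := by
  refine beq_of_forall (fun z => ?_) (fun z => ?_)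
  · rw [mem_ordN_succ]
    exact (iInf_le _ z).trans inf_le_left
  · rw [mem_ordN_succ]
    exact (iInf_le _ z).trans inf_le_right

theorem forces_succ {φ : Nm → RO Cond} [hφ : ExtC φ] {p : Cond} {i : K}
    (h : p ∈ φ (ordN (i + 1))) : p ∈ ⨅ j, isSuccB (ordN i) j ⇨ φ j := by
  rw [forces_iInf]
  intro j
  rw [forces_himp]
  intro q hq hj
  exact le_iff_forces.1 (hφ.h.app (g := beq j (ordN (i + 1)) ⊓ φ (ordN (i + 1)))
    (bsymm inf_le_left) inf_le_right) q ⟨(isSuccB_le i j) q hj, h.down hq⟩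

theorem forces_os (p : Cond) : p ∈ (osB (ordN (ω₁ : K)) (kapN K) : RO Cond) := by
  unfold osB
  refine forces_iSup_of sqN ⟨forces_isSquareSeq p, ?_⟩
  change p ∈ ⨅ a, (⨅ i, mem i (ordN (ω₁ : K)) ⇨ ⨅ x, mem x (kapN K) ⇨
    ⨆ y, inCB (kapN K) a i y ⊓ mem x y) ⇨
    ⨅ θ, mem θ (ordN (ω₁ : K)) ⇨ (isLimB θ ⇨ ⨅ d, isClubB (kapN K) d ⇨
    ⨆ x, mem x (kapN K) ⊓ (isLimB x ⊓ ⨆ e, isEnumB (kapN K) sqN x θ e ⊓
      ⨅ i, mem i θ ⇨ ⨅ j, isSuccB i j ⇨ ⨅ y, ⨅ z, rel e i y ⇨ (rel e j z ⇨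
        (inCB (kapN K) a i z ⊓ ⨆ w, mem w d ⊓ (mem y w ⊓ mem w z)))))
  rw [forces_iInf]
  intro a
  rw [forces_himp]
  intro p1 _ ha
  simp only [forces_ball_ordN, forces_ball_kapN, forces_bexC,
    forces_mem_ordN] at ha
  simp only [forces_ball_ordN]
  intro θ hθ
  rw [forces_himp]
  intro p2 hp2 hlim
  rw [forces_isLimB] at hlim
  have hlim : Lim θ := hlim
  rw [forces_iInf]
  intro d
  rw [forces_himp]
  intro p3 hp3 hd
  have hd1 : p3 ∈ ⨅ x, mem x (kapN K) ⇨ ⨆ y, mem y (kapN K) ⊓ (mem y d ⊓ mem x y) := hd.1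
  simp only [forces_ball_kapN, forces_bex_kapN, forces_inf,
    forces_mem_ordN] at hd1
  have H : Hyp a d p3 := by
    refine ⟨fun i hi x q hq => ?_, fun x q hq => ?_⟩
    · obtain ⟨r, hr, y, h1, h2⟩ := ha i hi x q (hq.trans (hp3.trans hp2))
      exact ⟨r, hr, y, h1, h2⟩
    · obtain ⟨r, hr, y, h1, h2⟩ := hd1 x q hq
      exact ⟨r, hr, y, h1, h2⟩
  refine forces_of_dense fun q hq => ?_
  have hS0 : State a d 0 q (fun _ => 0) := by
    refine ⟨?_, ?_, ?_, ?_⟩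
    · intro k l hkl hl
      exact absurd (hkl.trans_le hl) (not_lt.2 zero_le)
    · rintro l hl ⟨⟨z, hz⟩, -⟩
      exact absurd (hz.trans_le hl) (not_lt.2 zero_le)
    · rintro l hl ⟨⟨z, hz⟩, -⟩
      exact absurd (hz.trans_le hl) (not_lt.2 zero_le)
    · intro k hk
      exact absurd hk (not_lt.2 zero_le)
  obtain ⟨r, hr, f, hS, -, -⟩ := State.exists H θ hθ 0 zero_le q hq _ hS0
  refine ⟨r, hr, ?_⟩
  obtain ⟨hα, hC⟩ := hS.sq θ le_rfl hlim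
  set α := f θ with hαdef
  have hunb : Unb (r.1.C α) α := by
    intro x hx
    obtain ⟨k, hk, h⟩ := hS.cont θ le_rfl hlim x hx
    exact ⟨f k, hC ▸ ⟨k, hk, rfl⟩, hS.mono k θ hk le_rfl, h⟩
  have hlimα : Lim α := r.1.limD α hα
  -- the enumeration
  let R : K → K → RO Cond := fun i y => ofProp (i < θ ∧ y = f i)
  have hinj : ∀ i < θ, ∀ j < θ, i < j → f i < f j := fun i _ j hj hij => hS.mono i j hij hj.le
  have henum : r ∈ isEnumB (kapN K) sqN (ordN α) (ordN θ) (relN R) := by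
    rw [forces_isEnum]
    refine ⟨?_, ?_, ?_⟩
    · intro i hi s hs
      refine ⟨s, le_rfl, f i, ?_, hi, rfl⟩
      rw [sqN, rel_relN]
      exact (sqR_dec' hs hα hunb).2 (hC ▸ ⟨i, hi, rfl⟩)
    · intro y s hs hy s' hs'
      rw [sqN, rel_relN] at hy
      have := (sqR_dec' hs hα hunb).1 hy
      rw [hC] at this
      obtain ⟨i, hi, rfl⟩ := this
      exact ⟨s', le_rfl, i, hi, hi, rfl⟩
    · rintro i hi j hj y s _ ⟨-, rfl⟩ z t _ ⟨-, rfl⟩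
      exact ⟨fun e => by rw [e], fun h => hinj i hi j hj h⟩
  refine forces_iSup_of (ordN α) ⟨forces_mem_kapN.2 trivial, forces_isLimB α |>.2 hlimα, ?_⟩
  change r ∈ ⨆ e, isEnumB (kapN K) sqN (ordN α) (ordN θ) e ⊓
      ⨅ i, mem i (ordN θ) ⇨ ⨅ j, isSuccB i j ⇨ ⨅ y, ⨅ z, rel e i y ⇨ (rel e j z ⇨
        (inCB (kapN K) a i z ⊓ ⨆ w, mem w d ⊓ (mem y w ⊓ mem w z)))
  refine forces_iSup_of (relN R) ⟨henum, ?_⟩
  change r ∈ ⨅ i, mem i (ordN θ) ⇨ ⨅ j, isSuccB i j ⇨ ⨅ y, ⨅ z, rel (relN R) i y ⇨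
    (rel (relN R) j z ⇨ (inCB (kapN K) a i z ⊓ ⨆ w, mem w d ⊓ (mem y w ⊓ mem w z)))
  simp only [forces_ball_ordN]
  intro i hi
  refine forces_succ ?_
  have e : (⨅ y, ⨅ z, rel (relN R) (ordN i) y ⇨ (rel (relN R) (ordN (i + 1)) z ⇨
      (inCB (kapN K) a (ordN i) z ⊓ ⨆ w, mem w d ⊓ (mem y w ⊓ mem w z)))) =
      (⨅ y, rel (relN R) (ordN i) y ⇨ ⨅ z, rel (relN R) (ordN (i + 1)) z ⇨
      (inCB (kapN K) a (ordN i) z ⊓ ⨆ w, mem w d ⊓ (mem y w ⊓ mem w z)) : RO Cond) := by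
    refine iInf_congr fun y => ?_
    rw [himp_iInf_eq]
  rw [e]
  simp only [ball_relN]
  rintro y s hs ⟨-, rfl⟩ z t ht ⟨-, rfl⟩
  obtain ⟨g1, w, g2, g3, g4⟩ := hS.hit i hi
  refine ⟨⟨forces_mem_kapN.2 trivial, g1.down (ht.trans hs)⟩, ?_⟩
  refine forces_iSup_of (ordN w) ⟨g2.down (ht.trans hs), ?_, ?_⟩
  · exact forces_mem_ordN.2 g3
  · exact forces_mem_ordN.2 g4

/-- **Main theorem.** -/
theorem main : ∃ (M : Type 2) (E : M → M → Prop), IsZFC E ∧ ∃ lam kap : M,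
    IsUncReg E lam ∧ IsSuccCard E lam kap ∧ OS E lam kap ∧ ¬ CHAt E lam kap := by
  obtain ⟨U⟩ := exists_ult (RO Cond)
  have hT : ∀ b : RO Cond, (∀ p, p ∈ b) → U.T b := by
    intro b hb
    rw [eq_top_iff_forces.2 hb]
    exact U.top
  refine ⟨MQ U, ME U, isZFC U, cl U (ordN (ω₁ : K)), cl U (kapN K), ?_, ?_, ?_, ?_⟩
  · rw [isUncReg_iff]; exact hT _ forces_isUncReg
  · rw [isSuccCard_iff]; exact hT _ forces_isSuccCard
  · rw [os_iff]; exact hT _ forces_os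
  · rw [chAt_iff, ← U.compl]; exact hT _ forces_not_ch

end H85.Forcing
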