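import Pool.Agent.H85.Forcing.SquareThm

/-!
# The guessing property
-/

open Set Ordinal Cardinal

namespace H85.Forcing
open BN RO

/-- States of the construction: `f k` (`k ≤ i`) are the first elements of the set to be built. -/
structure State (a d : Nm) (i : K) (q : Cond) (f : K → K) : Prop where
  mono : ∀ k l, k < l → l ≤ i → f k < f l
  cont : ∀ l ≤ i, Lim l → ∀ x < f l, ∃ k < l, x < f k
  sq : ∀ l ≤ i, Lim l → f l ∈ q.1.D ∧ q.1.C (f l) = f '' (Iio l)
  hit : ∀ k < i, q ∈ rel a (ordN k) (ordN (f (k + 1))) ∧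
    ∃ w : K, q ∈ mem (ordN w) d ∧ f k < w ∧ w < f (k + 1)

/-- hypotheses on the names -/
structure Hyp (a d : Nm) (p : Cond) : Prop where
  ha : ∀ i < (ω₁ : K), ∀ x : K, ∀ q ≤ p, ∃ r ≤ q, ∃ y : K, r ∈ rel a (ordN i) (ordN y) ∧ x < y
  hd : ∀ x : K, ∀ q ≤ p, ∃ r ≤ q, ∃ y : K, r ∈ mem (ordN y) d ∧ x < y

theorem exists_gt_countable {S : Set K} (hS : S.Countable) : ∃ b : K, ∀ x ∈ S, x < b := by
  have : Small.{0} S := by
    have := hS.to_subtype
    exact Countable.toSmall _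
  obtain ⟨b, hb⟩ := bddAbove_iff_small.2 this
  exact ⟨b + 1, fun x hx => Order.lt_add_one_iff.2 (hb hx)⟩

theorem not_lim_succ (j : K) : ¬ Lim (j + 1) := by
  rintro ⟨-, h⟩
  obtain ⟨γ, hγ, h2⟩ := h j (Order.lt_add_one_iff.2 le_rfl)
  exact absurd (Order.lt_add_one_iff.1 hγ) (not_le.2 h2)

theorem State.step {a d : Nm} {p : Cond} (H : Hyp a d p) {j : K} (hj : j < ω₁) {q : Cond}
    (hq : q ≤ p) {f : K → K} (hS : State a d j q f) :
    ∃ q' ≤ q, ∃ f', State a d (j + 1) q' f' ∧ (∀ k ≤ j, f' k = f k) ∧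
      ∀ x ∈ q.1.D, x < f' (j + 1) := by
  classical
  obtain ⟨b, hb⟩ := exists_gt_countable (S := q.1.D) q.1.ctD
  obtain ⟨r, hr, w, hw, hw2⟩ := H.hd (max b (f j)) q hq
  obtain ⟨s, hs, δ, hδ, hδ2⟩ := H.ha j hj w r (hr.trans hq)
  have hle : s ≤ q := hs.trans hr
  have hfw : f j < w := (le_max_right _ _).trans_lt hw2
  have hf1 : ∀ k ≤ j, Function.update f (j + 1) δ k = f k := fun k hk =>
    Function.update_of_ne (ne_of_lt (Order.lt_add_one_iff.2 hk)) _ _
  have hf2 : Function.update f (j + 1) δ (j + 1) = δ := by simp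
  refine ⟨s, hle, Function.update f (j + 1) δ, ⟨?_, ?_, ?_, ?_⟩, hf1, ?_⟩
  · intro k l hkl hl
    rcases hl.eq_or_lt with h | h
    · subst h
      have hk : k ≤ j := Order.lt_add_one_iff.1 hkl
      rw [hf2, hf1 k hk]
      rcases hk.eq_or_lt with h' | h'
      · subst h'; exact hfw.trans hδ2
      · exact (hS.mono k j h' le_rfl).trans (hfw.trans hδ2)
    · have hl' : l ≤ j := Order.lt_add_one_iff.1 h
      rw [hf1 l hl', hf1 k (hkl.le.trans hl')]
      exact hS.mono k l hkl hl'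
  · intro l hl hlim x hx
    rcases hl.eq_or_lt with h | h
    · subst h; exact absurd hlim (not_lim_succ j)
    · have hl' : l ≤ j := Order.lt_add_one_iff.1 h
      rw [hf1 l hl'] at hx
      obtain ⟨k, hk, hk2⟩ := hS.cont l hl' hlim x hx
      exact ⟨k, hk, by rw [hf1 k (hk.le.trans hl')]; exact hk2⟩
  · intro l hl hlim
    rcases hl.eq_or_lt with h | h
    · subst h; exact absurd hlim (not_lim_succ j)
    · have hl' : l ≤ j := Order.lt_add_one_iff.1 h
      obtain ⟨h1, h2⟩ := hS.sq l hl' hlim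
      rw [hf1 l hl']
      refine ⟨hle.1.1 h1, ?_⟩
      have h3 : Unb (q.1.C (f l)) (f l) := by
        intro x hx
        obtain ⟨k, hk, hk2⟩ := hS.cont l hl' hlim x hx
        exact ⟨f k, h2 ▸ ⟨k, hk, rfl⟩, hS.mono k l hk hl', hk2⟩
      ext z
      rw [Cond1.final hle.1 h1 h3, h2]
      constructor
      · rintro ⟨k, hk, rfl⟩
        have hk' : k < l := hk
        exact ⟨k, hk, hf1 k (hk'.le.trans hl')⟩
      · rintro ⟨k, hk, rfl⟩
        have hk' : k < l := hk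
        exact ⟨k, hk, (hf1 k (hk'.le.trans hl')).symm⟩
  · intro k hk
    have hk' : k ≤ j := Order.lt_add_one_iff.1 hk
    rcases hk'.eq_or_lt with h | h
    · subst h
      rw [hf2, hf1 k le_rfl]
      exact ⟨hδ, w, hw.down hs, hfw, hδ2⟩
    · have h1 : k + 1 ≤ j := Order.add_one_le_of_lt h
      rw [hf1 k hk', hf1 (k + 1) h1]
      obtain ⟨g1, v, g2, g3, g4⟩ := hS.hit k h
      exact ⟨g1.down hle, v, g2.down hle, g3, g4⟩
  · intro x hx
    rw [hf2]
    exact (hb x hx).trans (((le_max_left _ _).trans_lt hw2).trans hδ2)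

theorem State.exists {a d : Nm} {p : Cond} (H : Hyp a d p) (j : K) (hj : j < ω₁) :
    ∀ i ≤ j, ∀ q ≤ p, ∀ f, State a d i q f →
    ∃ q' ≤ q, ∃ f', State a d j q' f' ∧ (∀ k ≤ i, f' k = f k) ∧
      (i < j → ∀ x ∈ q.1.D, x < f' j) := by
  classical
  induction j using WellFoundedLT.induction with
  | ind j ih =>
  intro i hij q hq f hS
  rcases hij.eq_or_lt with h | hij
  · subst h
    exact ⟨q, le_rfl, f, hS, fun _ _ => rfl, fun h => absurd h (lt_irrefl _)⟩
  by_cases hlim : Lim j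
  swap
  · -- successor
    obtain ⟨j', hj'⟩ : ∃ j', j = j' + 1 := by
      have : ∃ j' < j, ∀ γ < j, γ ≤ j' := by
        by_contra hcon
        push Not at hcon
        exact hlim ⟨⟨i, hij⟩, fun β hβ => hcon β hβ⟩
      obtain ⟨j', h1, h2⟩ := this
      refine ⟨j', le_antisymm ?_ (Order.add_one_le_of_lt h1)⟩
      by_contra h3
      rw [not_le] at h3
      exact absurd (h2 _ h3) (not_le.2 (Order.lt_add_one_iff.2 le_rfl))
    subst hj'
    have hlt : j' < j' + 1 := Order.lt_add_one_iff.2 le_rfl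
    have hij' : i ≤ j' := Order.lt_add_one_iff.1 hij
    obtain ⟨q1, hq1, f1, hS1, he1, -⟩ := ih j' hlt (hlt.trans hj) i hij' q hq f hS
    obtain ⟨q2, hq2, f2, hS2, he2, hd2⟩ := hS1.step H (hlt.trans hj) (hq1.trans hq)
    refine ⟨q2, hq2.trans hq1, f2, hS2, fun k hk => ?_, fun _ x hx => hd2 x (hq1.1.1 hx)⟩
    rw [he2 k (hk.trans hij'), he1 k hk]
  -- limit
  have hcc : CC j := ⟨Iio j, countable_Iio_of_lt hj, fun z hz => by
    obtain ⟨w, hw, hzw⟩ := hlim.2 z hz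
    exact ⟨w, hw, hw, hzw⟩⟩
  obtain ⟨g, hg, hg1, hg2⟩ := exists_omega_seq hlim hcc
  obtain ⟨N, hN⟩ := hg2 i hij
  let G : ℕ → K := fun n => g (N + n)
  have hG1 : ∀ n, G n < j := fun n => hg1 _
  have hG2 : ∀ m n, m < n → G m < G n := fun m n h => hg (by omega)
  have hG3 : i < G 0 := hN
  have hG4 : ∀ z < j, ∃ n, z < G n := by
    intro z hz
    obtain ⟨n, hn⟩ := hg2 z hz
    exact ⟨n, hn.trans_le (hg.monotone (by omega))⟩
  -- first state
  obtain ⟨q0, hq0, f0, hS0, he0, hd0⟩ :=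
    ih (G 0) (hG1 0) ((hG1 0).trans hj) i hG3.le q hq f hS
  let St : ℕ → Type 1 := fun n => {x : Cond × (K → K) // x.1 ≤ p ∧ State a d (G n) x.1 x.2}
  have hnext : ∀ n (x : St n), ∃ y : St (n + 1), y.1.1 ≤ x.1.1 ∧
      (∀ k ≤ G n, y.1.2 k = x.1.2 k) ∧ ∀ z ∈ x.1.1.1.D, z < y.1.2 (G (n + 1)) := by
    rintro n ⟨⟨r, h⟩, hr, hSr⟩
    have hlt := hG2 n (n + 1) (Nat.lt_succ_self n)
    obtain ⟨r', hr', h', hS', he', hd'⟩ :=
      ih (G (n + 1)) (hG1 _) ((hG1 _).trans hj) (G n) hlt.le r hr h hSr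
    exact ⟨⟨⟨r', h'⟩, hr'.trans hr, hS'⟩, hr', he', hd' hlt⟩
  choose nx hnx1 hnx2 hnx3 using hnext
  let F : ∀ n, St n := fun n => Nat.rec (motive := St) ⟨⟨q0, f0⟩, hq0.trans hq, hS0⟩
    (fun n x => nx n x) n
  have hF0 : F 0 = ⟨⟨q0, f0⟩, hq0.trans hq, hS0⟩ := rfl
  have hFs : ∀ n, F (n + 1) = nx n (F n) := fun n => rfl
  let Q : ℕ → Cond := fun n => (F n).1.1
  let Φ : ℕ → K → K := fun n => (F n).1.2
  have hQS : ∀ n, State a d (G n) (Q n) (Φ n) := fun n => (F n).2.2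
  have hQp : ∀ n, Q n ≤ p := fun n => (F n).2.1
  have hQ1 : ∀ n, Q (n + 1) ≤ Q n := fun n => by
    change (F (n + 1)).1.1 ≤ (F n).1.1
    rw [hFs]; exact hnx1 n (F n)
  have hΦ1 : ∀ n, ∀ k ≤ G n, Φ (n + 1) k = Φ n k := fun n k hk => by
    change (F (n + 1)).1.2 k = (F n).1.2 k
    rw [hFs]; exact hnx2 n (F n) k hk
  have hD1 : ∀ n, ∀ z ∈ (Q n).1.D, z < Φ (n + 1) (G (n + 1)) := fun n z hz => by
    change z < (F (n + 1)).1.2 (G (n + 1))
    rw [hFs]; exact hnx3 n (F n) z hz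
  have hQ : ∀ m n, m ≤ n → Q n ≤ Q m := by
    intro m n h
    induction n, h using Nat.le_induction with
    | base => exact le_rfl
    | succ n _ ih => exact (hQ1 n).trans ih
  have hGm : ∀ m n, m ≤ n → G m ≤ G n := fun m n h => by
    rcases h.eq_or_lt with h | h
    · rw [h]
    · exact (hG2 m n h).le
  have hΦ : ∀ m n, m ≤ n → ∀ k ≤ G m, Φ n k = Φ m k := by
    intro m n h
    induction n, h using Nat.le_induction with
    | base => intro k _; rfl
    | succ n hmn ih => intro k hk; rw [hΦ1 n k (hk.trans (hGm m n hmn)), ih k hk]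
  -- limit function
  let N' : K → ℕ := fun k => if h : k < j then (hG4 k h).choose else 0
  have hN' : ∀ k < j, k < G (N' k) := by
    intro k hk
    have : N' k = (hG4 k hk).choose := dif_pos hk
    rw [this]; exact (hG4 k hk).choose_spec
  let f' : K → K := fun k => Φ (N' k) k
  have hf' : ∀ n, ∀ k ≤ G n, f' k = Φ n k := by
    intro n k hk
    have hkj : k < j := hk.trans_lt (hG1 n)
    have h1 := hN' k hkj
    rcases le_total n (N' k) with h | h
    · exact hΦ n _ h k hk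
    · exact (hΦ _ n h k h1.le).symm
  have hmono' : ∀ k l, k < l → l < j → f' k < f' l := by
    intro k l hkl hl
    have h1 := (hN' l hl).le
    rw [hf' _ l h1, hf' _ k (hkl.le.trans h1)]
    exact (hQS _).mono k l hkl h1
  obtain ⟨q', hq', hqD⟩ := Cond.exists_lower Q hQ
  -- the supremum
  let c : Set K := f' '' (Iio j)
  have hcct : c.Countable := (countable_Iio_of_lt hj).image _
  obtain ⟨b, hb⟩ := exists_gt_countable hcct
  have hcne : c.Nonempty := ⟨f' i, i, hij, rfl⟩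
  have hcbdd : BddAbove c := ⟨b, fun x hx => (hb x hx).le⟩
  let δ : K := sSup c
  have hlub : IsLUB c δ := isLUB_csSup hcne hcbdd
  have hfδ : ∀ k < j, f' k < δ := by
    intro k hk
    obtain ⟨l, hl, hkl⟩ := hlim.2 k hk
    exact (hmono' k l hkl hl).trans_le (hlub.1 ⟨l, hl, rfl⟩)
  have hδf : ∀ x < δ, ∃ k < j, x < f' k := by
    intro x hx
    obtain ⟨_, ⟨k, hk, rfl⟩, h⟩ := (lt_isLUB_iff hlub).1 hx
    exact ⟨k, hk, h⟩
  have hDδ : ∀ x ∈ q'.1.D, x < δ := by
    intro x hx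
    obtain ⟨n, α, hα, hxα⟩ := hqD x hx
    have h1 := hD1 n α hα
    rw [← hf' (n + 1) _ le_rfl] at h1
    exact (hxα.trans_lt h1).trans (hfδ _ (hG1 _))
  have hunbc : Unb c δ := by
    intro z hz
    obtain ⟨k, hk, h⟩ := hδf z hz
    exact ⟨f' k, ⟨k, hk, rfl⟩, hfδ k hk, h⟩
  have hlimδ : Lim δ := by
    refine ⟨⟨f' i, hfδ i hij⟩, fun β hβ => ?_⟩
    obtain ⟨w, -, hw1, hw2⟩ := hunbc β hβ
    exact ⟨w, hw1, hw2⟩
  -- values at limits below `j`
  have hsql : ∀ l < j, Lim l → f' l ∈ q'.1.D ∧ ∀ z, z ∈ q'.1.C (f' l) ↔ z ∈ f' '' (Iio l) := by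
    intro l hl hliml
    have h1 := (hN' l hl).le
    obtain ⟨g1, g2⟩ := (hQS (N' l)).sq l h1 hliml
    rw [hf' _ l h1]
    refine ⟨(hq' _).1.1 g1, fun z => ?_⟩
    have g3 : Unb ((Q (N' l)).1.C (Φ (N' l) l)) (Φ (N' l) l) := by
      intro x hx
      obtain ⟨k, hk, hk2⟩ := (hQS (N' l)).cont l h1 hliml x hx
      exact ⟨Φ (N' l) k, g2 ▸ ⟨k, hk, rfl⟩, (hQS (N' l)).mono k l hk h1, hk2⟩
    rw [Cond1.final (hq' _).1 g1 g3, g2]
    constructor
    · rintro ⟨k, hk, rfl⟩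
      have hk' : k < l := hk
      exact ⟨k, hk, hf' _ k (hk'.le.trans h1)⟩
    · rintro ⟨k, hk, rfl⟩
      have hk' : k < l := hk
      exact ⟨k, hk, (hf' _ k (hk'.le.trans h1)).symm⟩
  have hcont' : ∀ l < j, Lim l → ∀ x < f' l, ∃ k < l, x < f' k := by
    intro l hl hliml x hx
    have h1 := (hN' l hl).le
    rw [hf' _ l h1] at hx
    obtain ⟨k, hk, hk2⟩ := (hQS (N' l)).cont l h1 hliml x hx
    exact ⟨k, hk, by rw [hf' _ k (hk.le.trans h1)]; exact hk2⟩
  obtain ⟨q1, hq1, hq1D, hq1C⟩ := q'.1.add_top δ c hlimδ hDδ hcct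
    (by rintro _ ⟨k, hk, rfl⟩; exact hfδ k hk) hunbc (by
      intro β hβ hlimβ hub
      -- the least `k` with `β ≤ f' k`
      obtain ⟨k0, hk0, hβk0⟩ := hδf β hβ
      have hex : ∃ k, k < j ∧ β ≤ f' k := ⟨k0, hk0, hβk0.le⟩
      obtain ⟨k, ⟨hkj, hβk⟩, hmin⟩ := WellFounded.has_min (wellFounded_lt (α := K))
        {k | k < j ∧ β ≤ f' k} hex
      have hmin' : ∀ l < k, f' l < β := by
        intro l hl
        by_contra h
        rw [not_lt] at h
        exact hmin l ⟨hl.trans hkj, h⟩ hl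
      -- elements of `c` below `β`
      have hcβ : ∀ x, x ∈ c ∧ x < β ↔ x ∈ f' '' (Iio k) := by
        intro x
        constructor
        · rintro ⟨⟨l, hl, rfl⟩, hx⟩
          refine ⟨l, ?_, rfl⟩
          by_contra h
          rw [mem_Iio, not_lt] at h
          rcases h.eq_or_lt with h | h
          · subst h; exact absurd hx (not_lt.2 hβk)
          · exact absurd (hx.trans_le hβk) (not_lt.2 (hmono' k l h hl).le)
        · rintro ⟨l, hl, rfl⟩
          exact ⟨⟨l, lt_trans hl hkj, rfl⟩, hmin' l hl⟩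
      have hlimk : Lim k := by
        constructor
        · obtain ⟨z, hz⟩ := hlimβ.1
          obtain ⟨w, hw, hwβ, -⟩ := hub z hz
          obtain ⟨l, hl, -⟩ := (hcβ w).1 ⟨hw, hwβ⟩
          exact ⟨l, hl⟩
        · intro l hl
          obtain ⟨w, hw, hwβ, hlw⟩ := hub _ (hmin' l hl)
          obtain ⟨m, hm, rfl⟩ := (hcβ w).1 ⟨hw, hwβ⟩
          refine ⟨m, hm, ?_⟩
          by_contra h
          rw [not_lt] at h
          rcases h.eq_or_lt with h | h
          · subst h; exact lt_irrefl _ hlw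
          · exact absurd hlw (not_lt.2 (hmono' m l h (hl.trans hkj)).le)
      have hβeq : β = f' k := by
        refine le_antisymm hβk ?_
        by_contra h
        rw [not_le] at h
        obtain ⟨l, hl, hl2⟩ := hcont' k hkj hlimk β h
        exact absurd (hmin' l hl) (not_lt.2 hl2.le)
      obtain ⟨g1, g2⟩ := hsql k hkj hlimk
      refine ⟨⟨k, hkj, hβeq.symm⟩, by rw [hβeq]; exact g1, fun z => ?_⟩
      rw [hcβ z, hβeq]
      exact g2 z)
  have hqle : ((q1, q'.2) : Cond) ≤ q' := ⟨hq1, le_rfl⟩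
  have hfup : ∀ k < j, Function.update f' j δ k = f' k := fun k hk =>
    Function.update_of_ne (ne_of_lt hk) _ _
  have hfj : Function.update f' j δ j = δ := by simp
  refine ⟨(q1, q'.2), hqle.trans ((hq' 0).trans hq0), Function.update f' j δ,
    ⟨?_, ?_, ?_, ?_⟩, ?_, ?_⟩
  · intro k l hkl hl
    rcases hl.eq_or_lt with h | h
    · subst h; rw [hfj, hfup k hkl]; exact hfδ k hkl
    · rw [hfup l h, hfup k (hkl.trans h)]; exact hmono' k l hkl h
  · intro l hl hliml x hx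
    rcases hl.eq_or_lt with h | h
    · subst h
      rw [hfj] at hx
      obtain ⟨k, hk, h⟩ := hδf x hx
      exact ⟨k, hk, by rw [hfup k hk]; exact h⟩
    · rw [hfup l h] at hx
      obtain ⟨k, hk, h'⟩ := hcont' l h hliml x hx
      exact ⟨k, hk, by rw [hfup k (hk.trans h)]; exact h'⟩
  · intro l hl hliml
    have himg : ∀ l ≤ j, Function.update f' j δ '' (Iio l) = f' '' (Iio l) := by
      intro l hl
      refine image_congr fun k hk => hfup k (lt_of_lt_of_le hk hl)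
    rw [himg l hl]
    rcases hl.eq_or_lt with h | h
    · subst h
      rw [hfj]
      exact ⟨by rw [hq1D]; exact mem_insert _ _, hq1C⟩
    · rw [hfup l h]
      obtain ⟨g1, g2⟩ := hsql l h hliml
      refine ⟨hq1.1 g1, ?_⟩
      have hun : Unb (q'.1.C (f' l)) (f' l) := by
        intro x hx
        obtain ⟨k, hk, h'⟩ := hcont' l h hliml x hx
        exact ⟨f' k, (g2 _).2 ⟨k, hk, rfl⟩, hmono' k l hk h, h'⟩
      ext z
      rw [Cond1.final hq1 g1 hun, g2]
  · intro k hk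
    have hk1 : k + 1 < j := by
      obtain ⟨l, hl, hkl⟩ := hlim.2 k hk
      exact (Order.add_one_le_of_lt hkl).trans_lt hl
    rw [hfup k hk, hfup (k + 1) hk1]
    have h1 := (hN' (k + 1) hk1).le
    have h2 : k < G (N' (k + 1)) := (Order.lt_add_one_iff.2 le_rfl : k < k + 1).trans_le h1
    obtain ⟨g1, w, g2, g3, g4⟩ := (hQS (N' (k + 1))).hit k h2
    rw [hf' _ _ h1, hf' _ k h2.le]
    have hle : ((q1, q'.2) : Cond) ≤ Q (N' (k + 1)) := hqle.trans (hq' _)
    exact ⟨g1.down hle, w, g2.down hle, g3, g4⟩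
  · intro k hk
    have hkj : k < j := hk.trans_lt hij
    rw [hfup k hkj, hf' 0 k (hk.trans hG3.le)]
    change (F 0).1.2 k = f k
    rw [hF0]
    exact he0 k hk
  · intro _ x hx
    rw [hfj]
    exact hDδ x ((hq' 0).1.1 (hq0.1.1 hx))

end H85.Forcing
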