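import Pool.Agent.H85.Forcing.Names
import Pool.Agent.H85.Forcing.Defs

/-!
# The quotient of the Boolean-valued universe by an ultrafilter
-/

universe u

namespace H85.Forcing

/-- Ultrafilters on a Boolean algebra. -/
structure Ult (B : Type u) [CompleteBooleanAlgebra B] where
  T : B → Prop
  top : T ⊤
  inf : ∀ a b, T (a ⊓ b) ↔ T a ∧ T b
  compl : ∀ a, T aᶜ ↔ ¬ T a

theorem exists_ult (B : Type u) [CompleteBooleanAlgebra B] [Nontrivial B] :
    Nonempty (Ult B) := by
  classical
  obtain ⟨J, hJ, -, hJ2⟩ := DistribLattice.prime_ideal_of_disjoint_filter_ideal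
    (F := Order.PFilter.principal (⊤ : B)) (I := Order.Ideal.principal (⊥ : B)) (by
      rw [Set.disjoint_left]
      intro x hx hx'
      have h1 : ⊤ ≤ x := by simpa using hx
      have h2 : x ≤ ⊥ := Order.Ideal.mem_principal.1 hx'
      exact (bot_ne_top (α := B)) (le_antisymm bot_le (h1.trans h2)))
  have htop : (⊤ : B) ∉ J := by
    intro h
    exact Set.disjoint_left.1 hJ2 (by simp) h
  refine ⟨⟨fun a => a ∉ J, htop, ?_, ?_⟩⟩
  · intro a b
    constructor
    · intro h
      exact ⟨fun ha => h (J.lower inf_le_left ha), fun hb => h (J.lower inf_le_right hb)⟩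
    · rintro ⟨ha, hb⟩ h
      rcases hJ.mem_or_mem h with h | h
      · exact ha h
      · exact hb h
  · intro a
    constructor
    · intro h h'
      rcases hJ.mem_or_mem (x := a) (y := aᶜ) (by simp) with h1 | h1
      · exact h' h1
      · exact h h1
    · intro h h'
      rw [not_not] at h
      apply htop
      have := J.sup_mem h h'
      simpa using this

namespace Ult

variable {B : Type u} [CompleteBooleanAlgebra B] (U : Ult B)

theorem mono {a b : B} (h : a ≤ b) (ha : U.T a) : U.T b := by
  have h1 : a = b ⊓ a := by rw [inf_eq_right.2 h]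
  rw [h1] at ha
  exact ((U.inf _ _).1 ha).1

theorem bot : ¬ U.T ⊥ := by
  have := (U.compl ⊤).not.2 (not_not.2 U.top)
  simpa using this

theorem sup (a b : B) : U.T (a ⊔ b) ↔ U.T a ∨ U.T b := by
  constructor
  · intro h
    by_contra h'
    rw [not_or, ← U.compl, ← U.compl, ← U.inf, ← compl_sup, U.compl] at h'
    exact h' h
  · rintro (h | h)
    · exact U.mono le_sup_left h
    · exact U.mono le_sup_right h

theorem himp (a b : B) : U.T (a ⇨ b) ↔ (U.T a → U.T b) := by
  rw [himp_eq, U.sup, U.compl]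
  tauto

end Ult

namespace BN
variable {B : Type u} [CompleteBooleanAlgebra B] (U : Ult B)

/-- the equivalence relation induced by the ultrafilter -/
def setoid : Setoid (BN B) where
  r x y := U.T (beq x y)
  iseqv := by
    refine ⟨fun x => ?_, fun {x y} h => ?_, fun {x y z} h h' => ?_⟩
    · rw [beq_refl]; exact U.top
    · rwa [beq_symm]
    · exact U.mono (beq_trans x y z) ((U.inf _ _).2 ⟨h, h'⟩)

/-- The model. -/
def MQ : Type (u + 1) := Quotient (setoid U)

/-- the class of a name -/
def cl (x : BN B) : MQ U := Quotient.mk (setoid U) x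

theorem cl_eq {x y : BN B} : cl U x = cl U y ↔ U.T (beq x y) :=
  ⟨fun h => Quotient.exact (s := setoid U) h, fun h => Quotient.sound (s := setoid U) h⟩

theorem cl_forall {p : MQ U → Prop} : (∀ m, p m) ↔ ∀ x, p (cl U x) :=
  ⟨fun h _ => h _, fun h m => Quotient.inductionOn m h⟩

theorem cl_exists {p : MQ U → Prop} : (∃ m, p m) ↔ ∃ x, p (cl U x) :=
  ⟨fun ⟨m, hm⟩ => by
    induction m using Quotient.inductionOn with
    | h x => exact ⟨x, hm⟩, fun ⟨x, hx⟩ => ⟨_, hx⟩⟩

/-- membership of the model -/
def ME : MQ U → MQ U → Prop :=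
  Quotient.lift₂ (s₁ := setoid U) (s₂ := setoid U) (fun x y => U.T (mem x y)) (by
    intro a b a' b' h h'
    have h1 : U.T (beq a a') := h
    have h2 : U.T (beq b b') := h'
    refine propext ⟨fun h => ?_, fun h => ?_⟩
    · exact U.mono (mem_congr_right (inf_le_left.trans inf_le_right)
        (mem_congr_left (inf_le_left.trans inf_le_left) inf_le_right))
        ((U.inf _ _).2 ⟨(U.inf _ _).2 ⟨h1, h2⟩, h⟩)
    · exact U.mono (mem_congr_right (bsymm (inf_le_left.trans inf_le_right))
        (mem_congr_left (bsymm (inf_le_left.trans inf_le_left)) inf_le_right))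
        ((U.inf _ _).2 ⟨(U.inf _ _).2 ⟨h1, h2⟩, h⟩))

theorem ME_cl (x y : BN B) : ME U (cl U x) (cl U y) ↔ U.T (mem x y) := Iff.rfl

theorem T_iSup {φ : BN B → B} (hφ : Ext φ) : U.T (⨆ x, φ x) ↔ ∃ x, U.T (φ x) := by
  constructor
  · intro h
    obtain ⟨x, hx⟩ := exists_max hφ
    exact ⟨x, U.mono hx h⟩
  · rintro ⟨x, hx⟩
    exact U.mono (le_iSup φ x) hx

theorem T_iInf {φ : BN B → B} (hφ : Ext φ) : U.T (⨅ x, φ x) ↔ ∀ x, U.T (φ x) := by
  have h : (⨅ x, φ x) = (⨆ x, (φ x)ᶜ)ᶜ := by simp [compl_iSup]
  rw [h, U.compl, T_iSup U (ext_compl hφ)]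
  simp [U.compl]

theorem T_ball {φ : BN B → B} (hφ : Ext φ) (y : BN B) :
    U.T (⨅ x, mem x y ⇨ φ x) ↔ ∀ x, U.T (mem x y) → U.T (φ x) := by
  rw [T_iInf U (ext_himp (ext_mem cong_id (cong_const y)) hφ)]
  simp only [U.himp]

theorem T_bex {φ : BN B → B} (hφ : Ext φ) (y : BN B) :
    U.T (⨆ x, mem x y ⊓ φ x) ↔ ∃ x, U.T (mem x y) ∧ U.T (φ x) := by
  rw [T_iSup U (ext_inf (ext_mem cong_id (cong_const y)) hφ)]
  simp only [U.inf]

/-- Boolean value of a formula. -/
def BVal : Fml → (ℕ → BN B) → B
  | .bot, _ => ⊥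
  | .eq i j, v => beq (v i) (v j)
  | .mem i j, v => mem (v i) (v j)
  | .imp φ ψ, v => BVal φ v ⇨ BVal ψ v
  | .all i φ, v => ⨅ x, BVal φ (Function.update v i x)

theorem BVal_congr (φ : Fml) : ∀ (v w : ℕ → BN B) (g : B), (∀ n, g ≤ beq (v n) (w n)) →
    g ≤ BVal φ v → g ≤ BVal φ w := by
  induction φ with
  | bot => intro v w g _ h; exact h
  | eq i j =>
    intro v w g h h'
    exact btrans (bsymm (h i)) (btrans h' (h j))
  | mem i j =>
    intro v w g h h'
    exact mem_congr_right (h j) (mem_congr_left (h i) h')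
  | imp φ ψ ih1 ih2 =>
    intro v w g h h'
    simp only [BVal] at h' ⊢
    rw [le_himp_iff]
    refine ih2 v w _ (fun n => inf_le_left.trans (h n)) ?_
    exact bmp (inf_le_left.trans h')
      (ih1 w v _ (fun n => bsymm (inf_le_left.trans (h n))) inf_le_right)
  | all i φ ih =>
    intro v w g h h'
    simp only [BVal] at h' ⊢
    refine le_iInf fun x => ih (Function.update v i x) (Function.update w i x) g ?_ ?_
    · intro n
      by_cases hn : n = i
      · subst hn; simp only [Function.update_self]; exact brefl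
      · simp only [Function.update_of_ne hn]; exact h n
    · exact h'.trans (iInf_le _ x)

theorem ext_BVal (φ : Fml) (v : ℕ → BN B) (i : ℕ) :
    Ext (fun x => BVal φ (Function.update v i x)) := by
  intro x y
  refine BVal_congr φ (Function.update v i x) (Function.update v i y) _ ?_ inf_le_right
  intro n
  by_cases hn : n = i
  · subst hn; simp only [Function.update_self]; exact inf_le_left
  · simp only [Function.update_of_ne hn]; exact brefl

theorem update_cl (v : ℕ → BN B) (i : ℕ) (x : BN B) :
    Function.update (fun n => cl U (v n)) i (cl U x) =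
      fun n => cl U (Function.update v i x n) := by
  funext n
  by_cases hn : n = i
  · subst hn; simp
  · simp [Function.update_of_ne hn]

/-- **Łoś.** -/
theorem los (φ : Fml) : ∀ v : ℕ → BN B,
    Sat (ME U) φ (fun n => cl U (v n)) ↔ U.T (BVal φ v) := by
  induction φ with
  | bot => intro v; simp only [Sat, BVal, false_iff]; exact U.bot
  | eq i j => intro v; exact cl_eq U
  | mem i j => intro v; exact Iff.rfl
  | imp φ ψ ih1 ih2 =>
    intro v
    simp only [Sat, BVal, U.himp, ih1, ih2]
  | all i φ ih =>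
    intro v
    simp only [Sat, BVal]
    rw [T_iInf U (ext_BVal φ v i), cl_forall]
    refine forall_congr' fun x => ?_
    rw [update_cl, ih]

theorem exists_lift (v : ℕ → MQ U) : ∃ w : ℕ → BN B, v = fun n => cl U (w n) := by
  choose w hw using fun n => (Quotient.exists_rep (v n))
  exact ⟨w, funext fun n => (hw n).symm⟩

end BN

end H85.Forcing
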