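import Mathlib

/-!
# Boolean-valued names

`BN B` is the type of `B`-names over a complete Boolean algebra `B : Type u`.
`beq x y` and `mem x y` are the Boolean values of `x = y` and `x ∈ y`.
-/

universe u

namespace H85.Forcing

/-- Names over `B`: a small family of names with values in `B`. -/
inductive BN (B : Type u) : Type (u + 1)
  | mk (ι : Type u) (A : ι → BN B) (b : ι → B) : BN B

section logic
variable {B : Type u} [CompleteBooleanAlgebra B] {a b c g : B} {ι : Sort*}

theorem bmp (h : g ≤ a ⇨ b) (h' : g ≤ a) : g ≤ b :=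
  (le_inf le_rfl h').trans (le_himp_iff.1 h)

theorem bex_elim {f : ι → B} (h : g ≤ ⨆ i, f i) (h' : ∀ i, g ⊓ f i ≤ c) : g ≤ c := by
  calc g ≤ g ⊓ ⨆ i, f i := le_inf le_rfl h
    _ = ⨆ i, g ⊓ f i := inf_iSup_eq _ _
    _ ≤ c := iSup_le h'

theorem bex_intro {f : ι → B} (i : ι) (h : g ≤ f i) : g ≤ ⨆ i, f i := le_iSup_of_le i h

theorem ball_intro {f : ι → B} (h : ∀ i, g ≤ f i) : g ≤ ⨅ i, f i := le_iInf h

theorem ball_elim {f : ι → B} (i : ι) (h : g ≤ ⨅ i, f i) : g ≤ f i := h.trans (iInf_le f i)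

theorem bcases (h1 : g ⊓ a ≤ c) (h2 : g ⊓ aᶜ ≤ c) : g ≤ c := by
  calc g = g ⊓ (a ⊔ aᶜ) := by simp
    _ = (g ⊓ a) ⊔ (g ⊓ aᶜ) := inf_sup_left _ _ _
    _ ≤ c := sup_le h1 h2

end logic

namespace BN

variable {B : Type u} [CompleteBooleanAlgebra B]

/-- Boolean value of equality. -/
def beq : BN B → BN B → B
  | mk _ A b, mk _ A' b' =>
    (⨅ i, b i ⇨ ⨆ j, b' j ⊓ beq (A i) (A' j)) ⊓ (⨅ j, b' j ⇨ ⨆ i, b i ⊓ beq (A i) (A' j))

/-- Boolean value of membership. -/
def mem (x : BN B) : BN B → B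
  | mk _ A' b' => ⨆ j, b' j ⊓ beq x (A' j)

theorem beq_refl : ∀ x : BN B, beq x x = ⊤
  | mk ι A b => by
    have h : ∀ i, b i ≤ ⨆ j, b j ⊓ beq (A i) (A j) := fun i =>
      bex_intro i (by rw [beq_refl (A i)]; simp)
    have h' : ∀ i, b i ≤ ⨆ j, b j ⊓ beq (A j) (A i) := fun i =>
      bex_intro i (by rw [beq_refl (A i)]; simp)
    rw [beq, eq_top_iff]
    refine le_inf (le_iInf fun i => ?_) (le_iInf fun i => ?_)
    · rw [le_himp_iff, top_inf_eq]; exact h i
    · rw [le_himp_iff, top_inf_eq]; exact h' i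

theorem beq_symm : ∀ x y : BN B, beq x y = beq y x
  | mk ι A b, mk κ A' b' => by
    rw [beq, beq, inf_comm]
    simp only [fun i j => beq_symm (A i) (A' j)]

theorem beq_mk (ι : Type u) (A : ι → BN B) (b : ι → B) (y : BN B) :
    beq (mk ι A b) y ≤ ⨅ i, b i ⇨ mem (A i) y := by
  cases y with
  | mk κ A' b' => rw [beq]; exact inf_le_left

theorem mem_mk (x : BN B) (ι : Type u) (A : ι → BN B) (b : ι → B) :
    mem x (mk ι A b) = ⨆ j, b j ⊓ beq x (A j) := rfl

theorem beq_mk_mk (ι : Type u) (A : ι → BN B) (b : ι → B) (κ : Type u) (A' : κ → BN B)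
    (b' : κ → B) :
    beq (mk ι A b) (mk κ A' b') =
      (⨅ i, b i ⇨ mem (A i) (mk κ A' b')) ⊓ (⨅ j, b' j ⇨ mem (A' j) (mk ι A b)) := by
  rw [beq]
  simp only [mem_mk, fun i j => beq_symm (A i) (A' j)]

theorem beq_trans : ∀ x y z : BN B, beq x y ⊓ beq y z ≤ beq x z
  | mk ι A b, mk κ A' b', mk μ A'' b'' => by
    have key1 : ∀ i, (beq (mk ι A b) (mk κ A' b') ⊓ beq (mk κ A' b') (mk μ A'' b'')) ⊓ b i ≤
        ⨆ k, b'' k ⊓ beq (A i) (A'' k) := by
      intro i
      have h1 : (beq (mk ι A b) (mk κ A' b') ⊓ beq (mk κ A' b') (mk μ A'' b'')) ⊓ b i ≤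
          ⨆ j, b' j ⊓ beq (A i) (A' j) := by
        refine bmp ?_ inf_le_right
        refine inf_le_left.trans (inf_le_left.trans ?_)
        rw [beq]
        exact inf_le_left.trans (iInf_le _ i)
      refine bex_elim h1 fun j => ?_
      have h2 : ((beq (mk ι A b) (mk κ A' b') ⊓ beq (mk κ A' b') (mk μ A'' b'')) ⊓ b i) ⊓
          (b' j ⊓ beq (A i) (A' j)) ≤ ⨆ k, b'' k ⊓ beq (A' j) (A'' k) := by
        refine bmp ?_ (inf_le_right.trans inf_le_left)
        refine inf_le_left.trans (inf_le_left.trans (inf_le_right.trans ?_))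
        rw [beq]
        exact inf_le_left.trans (iInf_le _ j)
      refine bex_elim h2 fun k => bex_intro k ?_
      refine le_inf (inf_le_right.trans inf_le_left) ?_
      refine le_trans ?_ (beq_trans (A i) (A' j) (A'' k))
      refine le_inf ?_ (inf_le_right.trans inf_le_right)
      exact inf_le_left.trans (inf_le_right.trans inf_le_right)
    have key2 : ∀ k, (beq (mk ι A b) (mk κ A' b') ⊓ beq (mk κ A' b') (mk μ A'' b'')) ⊓ b'' k ≤
        ⨆ i, b i ⊓ beq (A i) (A'' k) := by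
      intro k
      have h1 : (beq (mk ι A b) (mk κ A' b') ⊓ beq (mk κ A' b') (mk μ A'' b'')) ⊓ b'' k ≤
          ⨆ j, b' j ⊓ beq (A' j) (A'' k) := by
        refine bmp ?_ inf_le_right
        refine inf_le_left.trans (inf_le_right.trans ?_)
        rw [beq]
        exact inf_le_right.trans (iInf_le _ k)
      refine bex_elim h1 fun j => ?_
      have h2 : ((beq (mk ι A b) (mk κ A' b') ⊓ beq (mk κ A' b') (mk μ A'' b'')) ⊓ b'' k) ⊓
          (b' j ⊓ beq (A' j) (A'' k)) ≤ ⨆ i, b i ⊓ beq (A i) (A' j) := by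
        refine bmp ?_ (inf_le_right.trans inf_le_left)
        refine inf_le_left.trans (inf_le_left.trans (inf_le_left.trans ?_))
        rw [beq]
        exact inf_le_right.trans (iInf_le _ j)
      refine bex_elim h2 fun i => bex_intro i ?_
      refine le_inf (inf_le_right.trans inf_le_left) ?_
      refine le_trans ?_ (beq_trans (A i) (A' j) (A'' k))
      refine le_inf (inf_le_right.trans inf_le_right) ?_
      exact inf_le_left.trans (inf_le_right.trans inf_le_right)
    rw [beq.eq_def (mk ι A b) (mk μ A'' b'')]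
    exact le_inf (le_iInf fun i => le_himp_iff.2 (key1 i)) (le_iInf fun k => le_himp_iff.2 (key2 k))

variable {x y z : BN B} {g : B}

theorem btrans (h : g ≤ beq x y) (h' : g ≤ beq y z) : g ≤ beq x z :=
  (le_inf h h').trans (beq_trans x y z)

theorem bsymm (h : g ≤ beq x y) : g ≤ beq y x := by rwa [beq_symm]

theorem brefl : g ≤ beq x x := by rw [beq_refl]; exact le_top

theorem mem_congr_left (h : g ≤ beq x y) (h' : g ≤ mem x z) : g ≤ mem y z := by
  cases z with
  | mk κ A b =>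
    rw [mem_mk] at h' ⊢
    refine bex_elim h' fun j => bex_intro j (le_inf (inf_le_right.trans inf_le_left) ?_)
    exact btrans (inf_le_left.trans (bsymm h)) (inf_le_right.trans inf_le_right)

theorem mem_congr_right (h : g ≤ beq y z) (h' : g ≤ mem x y) : g ≤ mem x z := by
  cases y with
  | mk ι A b =>
    rw [mem_mk] at h'
    refine bex_elim h' fun i => ?_
    have h1 : g ⊓ (b i ⊓ beq x (A i)) ≤ mem (A i) z :=
      bmp ((inf_le_left.trans h).trans ((beq_mk ι A b z).trans (iInf_le _ i)))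
        (inf_le_right.trans inf_le_left)
    exact mem_congr_left (bsymm (inf_le_right.trans inf_le_right)) h1

/-- members of a name -/
theorem le_mem_mk (ι : Type u) (A : ι → BN B) (b : ι → B) (i : ι) : b i ≤ mem (A i) (mk ι A b) := by
  rw [mem_mk]
  exact bex_intro i (le_inf le_rfl brefl)

theorem beq_of_forall (h : ∀ z, g ≤ mem z x ⇨ mem z y) (h' : ∀ z, g ≤ mem z y ⇨ mem z x) :
    g ≤ beq x y := by
  cases x with
  | mk ι A b =>
    cases y with
    | mk κ A' b' =>
      rw [beq_mk_mk]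
      refine le_inf (le_iInf fun i => ?_) (le_iInf fun i => ?_)
      · rw [le_himp_iff]
        exact bmp (inf_le_left.trans (h (A i))) (inf_le_right.trans (le_mem_mk ι A b i))
      · rw [le_himp_iff]
        exact bmp (inf_le_left.trans (h' (A' i))) (inf_le_right.trans (le_mem_mk κ A' b' i))

/-- Extensional (congruent) Boolean-valued predicates. -/
def Ext (φ : BN B → B) : Prop := ∀ x y, beq x y ⊓ φ x ≤ φ y

/-- Congruent functions on names. -/
def Cong (f : BN B → BN B) : Prop := ∀ x y, beq x y ≤ beq (f x) (f y)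

theorem Ext.app {φ : BN B → B} (h : Ext φ) (h1 : g ≤ beq x y) (h2 : g ≤ φ x) : g ≤ φ y :=
  (le_inf h1 h2).trans (h x y)

theorem ext_const (a : B) : Ext (fun _ => a) := fun _ _ => inf_le_right

theorem ext_inf {φ ψ : BN B → B} (h : Ext φ) (h' : Ext ψ) : Ext (fun x => φ x ⊓ ψ x) :=
  fun x y => le_inf ((inf_le_inf_left _ inf_le_left).trans (h x y))
    ((inf_le_inf_left _ inf_le_right).trans (h' x y))

theorem ext_compl {φ : BN B → B} (h : Ext φ) : Ext (fun x => (φ x)ᶜ) := by
  intro x y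
  rw [le_compl_iff_disjoint_right, disjoint_iff_inf_le]
  have h1 : beq x y ⊓ (φ x)ᶜ ⊓ φ y ≤ φ x :=
    h.app (bsymm (inf_le_left.trans inf_le_left)) inf_le_right
  have h2 : beq x y ⊓ (φ x)ᶜ ⊓ φ y ≤ (φ x)ᶜ := inf_le_left.trans inf_le_right
  exact (le_inf h1 h2).trans (by simp)

theorem ext_himp {φ ψ : BN B → B} (h : Ext φ) (h' : Ext ψ) : Ext (fun x => φ x ⇨ ψ x) := by
  intro x y
  rw [le_himp_iff]
  have h1 : beq x y ⊓ (φ x ⇨ ψ x) ⊓ φ y ≤ φ x :=
    h.app (bsymm (inf_le_left.trans inf_le_left)) inf_le_right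
  exact h'.app (inf_le_left.trans inf_le_left) (bmp (inf_le_left.trans inf_le_right) h1)

theorem ext_iInf {ι : Sort*} {φ : ι → BN B → B} (h : ∀ i, Ext (φ i)) : Ext (fun x => ⨅ i, φ i x) :=
  fun x y => le_iInf fun i => (inf_le_inf_left _ (iInf_le _ i)).trans (h i x y)

theorem ext_iSup {ι : Sort*} {φ : ι → BN B → B} (h : ∀ i, Ext (φ i)) : Ext (fun x => ⨆ i, φ i x) := by
  intro x y
  rw [inf_iSup_eq]
  exact iSup_le fun i => (h i x y).trans (le_iSup (fun i => φ i y) i)

theorem ext_sup {φ ψ : BN B → B} (h : Ext φ) (h' : Ext ψ) : Ext (fun x => φ x ⊔ ψ x) := by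
  intro x y
  rw [inf_sup_left]
  exact sup_le_sup (h x y) (h' x y)

theorem cong_id : Cong (fun x : BN B => x) := fun _ _ => le_rfl

theorem cong_const (a : BN B) : Cong (fun _ : BN B => a) := fun _ _ => brefl

theorem ext_mem {f k : BN B → BN B} (hf : Cong f) (hk : Cong k) : Ext (fun x => mem (f x) (k x)) :=
  fun x y => mem_congr_right (inf_le_left.trans (hk x y))
    (mem_congr_left (inf_le_left.trans (hf x y)) inf_le_right)

theorem ext_beq {f k : BN B → BN B} (hf : Cong f) (hk : Cong k) : Ext (fun x => beq (f x) (k x)) :=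
  fun x y => btrans (bsymm (inf_le_left.trans (hf x y)))
    (btrans inf_le_right (inf_le_left.trans (hk x y)))

theorem ball_mk {ι : Type u} {A : ι → BN B} {b : ι → B} {φ : BN B → B} (hφ : Ext φ) :
    (⨅ x, mem x (mk ι A b) ⇨ φ x) = ⨅ i, b i ⇨ φ (A i) := by
  apply le_antisymm
  · refine le_iInf fun i => ?_
    rw [le_himp_iff]
    exact bmp (inf_le_left.trans (iInf_le _ (A i))) (inf_le_right.trans (le_mem_mk ι A b i))
  · refine le_iInf fun x => ?_
    rw [le_himp_iff, mem_mk]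
    refine bex_elim inf_le_right fun i => ?_
    refine hφ.app (bsymm (inf_le_right.trans inf_le_right)) ?_
    exact bmp (inf_le_left.trans (inf_le_left.trans (iInf_le _ i))) (inf_le_right.trans inf_le_left)

theorem bex_mk {ι : Type u} {A : ι → BN B} {b : ι → B} {φ : BN B → B} (hφ : Ext φ) :
    (⨆ x, mem x (mk ι A b) ⊓ φ x) = ⨆ i, b i ⊓ φ (A i) := by
  apply le_antisymm
  · refine iSup_le fun x => ?_
    rw [mem_mk]
    refine bex_elim inf_le_left fun i => bex_intro i (le_inf (inf_le_right.trans inf_le_left) ?_)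
    exact hφ.app (inf_le_right.trans inf_le_right) (inf_le_left.trans inf_le_right)
  · refine iSup_le fun i => bex_intro (A i) ?_
    exact inf_le_inf_right _ (le_mem_mk ι A b i)

/-- underlying index type of a name -/
def dom : BN B → Type u
  | mk ι _ _ => ι
/-- members of a name -/
def fn : (x : BN B) → x.dom → BN B
  | mk _ A _ => A
/-- values of a name -/
def val : (x : BN B) → x.dom → B
  | mk _ _ b => b

omit [CompleteBooleanAlgebra B] in
theorem eta (x : BN B) : mk x.dom x.fn x.val = x := by cases x; rfl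

theorem val_le_mem (x : BN B) (i : x.dom) : x.val i ≤ mem (x.fn i) x := by
  cases x; exact le_mem_mk _ _ _ i

/-- **Mixing.** -/
theorem exists_mix {I : Type u} (y : I → BN B) (a : I → B)
    (ha : ∀ i j, i ≠ j → a i ⊓ a j = ⊥) : ∃ x, ∀ i, a i ≤ beq x (y i) := by
  refine ⟨mk (Σ i, (y i).dom) (fun p => (y p.1).fn p.2) (fun p => a p.1 ⊓ (y p.1).val p.2), ?_⟩
  intro i
  conv_rhs => rw [← eta (y i)]
  rw [beq_mk_mk]
  refine le_inf (le_iInf fun p => ?_) (le_iInf fun k => ?_)
  · obtain ⟨j, k⟩ := p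
    rw [le_himp_iff, eta]
    by_cases hij : j = i
    · subst hij
      exact inf_le_right.trans (inf_le_right.trans (val_le_mem (y j) k))
    · calc a i ⊓ (a j ⊓ (y j).val k) ≤ a i ⊓ a j := inf_le_inf_left _ inf_le_left
        _ = ⊥ := ha i j (Ne.symm hij)
        _ ≤ _ := bot_le
  · rw [le_himp_iff]
    exact le_mem_mk (Σ i, (y i).dom) (fun p => (y p.1).fn p.2)
      (fun p => a p.1 ⊓ (y p.1).val p.2) ⟨i, k⟩

/-- Refining a family to an antichain with the same supremum. -/
theorem exists_antichain {I : Type u} (f : I → B) :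
    ∃ a : I → B, (∀ i, a i ≤ f i) ∧ (∀ i j, i ≠ j → a i ⊓ a j = ⊥) ∧ (⨆ i, f i) ≤ ⨆ i, a i := by
  classical
  obtain ⟨r, hr⟩ := exists_wellFoundedLT I
  let a : I → B := fun i => f i ⊓ (⨆ j : {j : I // j < i}, f j.1)ᶜ
  have h0 : ∀ i j, i < j → a i ⊓ a j = ⊥ := by
    intro i j hij
    rw [eq_bot_iff]
    have h1 : a i ⊓ a j ≤ ⨆ k : {k : I // k < j}, f k.1 :=
      inf_le_left.trans (inf_le_left.trans (le_iSup (fun k : {k : I // k < j} => f k.1) ⟨i, hij⟩))
    have h2 : a i ⊓ a j ≤ (⨆ k : {k : I // k < j}, f k.1)ᶜ := inf_le_right.trans inf_le_right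
    exact (le_inf h1 h2).trans (by simp)
  refine ⟨a, fun i => inf_le_left, ?_, ?_⟩
  · intro i j hij
    rcases lt_or_gt_of_ne hij with h | h
    · exact h0 i j h
    · rw [inf_comm]; exact h0 j i h
  · refine iSup_le fun i => ?_
    induction i using WellFoundedLT.induction with
    | ind i ih =>
      refine bcases (a := ⨆ j : {j : I // j < i}, f j.1) ?_ ?_
      · refine inf_le_right.trans (iSup_le fun j => ih j.1 j.2)
      · exact le_iSup a i

/-- **Fullness (the maximum principle).** -/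
theorem exists_max {φ : BN B → B} (hφ : Ext φ) : ∃ x, (⨆ y, φ y) ≤ φ x := by
  classical
  let I : Type u := {b : B // ∃ y, φ y = b}
  let y : I → BN B := fun i => i.2.choose
  have hy : ∀ i : I, φ (y i) = i.1 := fun i => i.2.choose_spec
  obtain ⟨a, ha1, ha2, ha3⟩ := exists_antichain (fun i : I => i.1)
  obtain ⟨x, hx⟩ := exists_mix y a ha2
  refine ⟨x, iSup_le fun z => ?_⟩
  have h1 : φ z ≤ ⨆ i : I, i.1 := le_iSup (fun i : I => i.1) ⟨φ z, z, rfl⟩
  refine (h1.trans ha3).trans (iSup_le fun i => ?_)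
  refine hφ.app (bsymm (hx i)) ?_
  rw [hy i]
  exact ha1 i

end BN

end H85.Forcing
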