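import Pool.Agent.H85.Forcing.ZFCModel

/-!
# Names of ordinals, ordered pairs and relations
-/

universe u

namespace H85.Forcing
namespace BN

variable {B : Type u} [CompleteBooleanAlgebra B]

theorem bor_elim {g a b c : B} (h : g ≤ a ⊔ b) (h1 : g ⊓ a ≤ c) (h2 : g ⊓ b ≤ c) : g ≤ c := by
  calc g ≤ g ⊓ (a ⊔ b) := le_inf le_rfl h
    _ = (g ⊓ a) ⊔ (g ⊓ b) := inf_sup_left _ _ _
    _ ≤ c := sup_le h1 h2

section ord
variable {K : Type u} [LinearOrder K] [WellFoundedLT K]

/-- canonical names of the elements of a well-order `K` (as von Neumann ordinals) -/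
noncomputable def ordN : K → BN B :=
  WellFoundedLT.fix fun k ih => mk {j : K // j < k} (fun j => ih j.1 j.2) (fun _ => ⊤)

theorem ordN_eq (k : K) :
    (ordN k : BN B) = mk {j : K // j < k} (fun j => ordN j.1) (fun _ => ⊤) :=
  WellFoundedLT.fix_eq _ k

theorem mem_ordN (x : BN B) (k : K) : mem x (ordN k) = ⨆ j : {j : K // j < k}, beq x (ordN j.1) := by
  rw [ordN_eq k, mem_mk]
  simp

theorem mem_ordN_of_lt {i j : K} (h : i < j) : mem (ordN i : BN B) (ordN j) = ⊤ := by
  rw [mem_ordN, eq_top_iff]
  exact bex_intro ⟨i, h⟩ brefl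

theorem beq_ordN_aux (i : K) : ∀ j, i < j → beq (ordN i : BN B) (ordN j) = ⊥ := by
  induction i using WellFoundedLT.induction with
  | ind i ih =>
    intro j hij
    have h1 : beq (ordN i : BN B) (ordN j) ≤ mem (ordN i) (ordN i) :=
      mem_congr_right (bsymm le_rfl) (by rw [mem_ordN_of_lt hij]; exact le_top)
    rw [mem_ordN] at h1
    have h2 : (⨆ l : {l : K // l < i}, beq (ordN i : BN B) (ordN l.1)) = ⊥ := by
      rw [iSup_eq_bot]
      intro l
      rw [beq_symm]
      exact ih l.1 l.2 i l.2
    rw [h2] at h1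
    exact le_bot_iff.1 h1

theorem beq_ordN_of_ne {i j : K} (h : i ≠ j) : beq (ordN i : BN B) (ordN j) = ⊥ := by
  rcases lt_or_gt_of_ne h with h | h
  · exact beq_ordN_aux i j h
  · rw [beq_symm]; exact beq_ordN_aux j i h

theorem mem_ordN_of_not_lt {i j : K} (h : ¬ i < j) : mem (ordN i : BN B) (ordN j) = ⊥ := by
  rw [mem_ordN, iSup_eq_bot]
  rintro ⟨l, hl⟩
  exact beq_ordN_of_ne (by rintro rfl; exact h hl)

/-- the name of the whole well-order `K` -/
noncomputable def kapN (K : Type u) [LinearOrder K] [WellFoundedLT K] : BN B :=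
  mk K ordN (fun _ => ⊤)

theorem mem_kapN (x : BN B) : mem x (kapN K) = ⨆ j : K, beq x (ordN j) := by
  rw [kapN, mem_mk]; simp

theorem mem_ordN_kapN (i : K) : mem (ordN i : BN B) (kapN K) = ⊤ := by
  rw [mem_kapN, eq_top_iff]; exact bex_intro i brefl

theorem ball_ordN {φ : BN B → B} (hφ : Ext φ) (k : K) :
    (⨅ x, mem x (ordN k) ⇨ φ x) = ⨅ j : {j : K // j < k}, φ (ordN j.1) := by
  rw [ordN_eq, ball_mk hφ]; simp

theorem bex_ordN {φ : BN B → B} (hφ : Ext φ) (k : K) :
    (⨆ x, mem x (ordN k) ⊓ φ x) = ⨆ j : {j : K // j < k}, φ (ordN j.1) := by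
  rw [ordN_eq, bex_mk hφ]; simp

theorem ball_kapN {φ : BN B → B} (hφ : Ext φ) :
    (⨅ x, mem x (kapN K) ⇨ φ x) = ⨅ j : K, φ (ordN j) := by
  rw [kapN, ball_mk hφ]; simp

theorem bex_kapN {φ : BN B → B} (hφ : Ext φ) :
    (⨆ x, mem x (kapN K) ⊓ φ x) = ⨆ j : K, φ (ordN j) := by
  rw [kapN, bex_mk hφ]; simp

/-- the name of a subset of `K` -/
noncomputable def setN (X : K → B) : BN B := mk K ordN X

theorem mem_setN (X : K → B) (i : K) : mem (ordN i) (setN X) = X i := by
  rw [setN, mem_mk]
  apply le_antisymm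
  · refine iSup_le fun j => ?_
    by_cases h : i = j
    · subst h; exact inf_le_left
    · rw [beq_ordN_of_ne h]; simp
  · exact bex_intro i (le_inf le_rfl brefl)

end ord

/-! ### ordered pairs -/

theorem cong_upair {g : B} {x y x' y' : BN B} (h : g ≤ beq x x') (h' : g ≤ beq y y') :
    g ≤ beq (upair x y) (upair x' y') := by
  refine sub_antisymm (sub_intro fun z => ?_) (sub_intro fun z => ?_)
  · rw [mem_upair, mem_upair, inf_sup_left]
    exact sup_le_sup (btrans inf_le_right (inf_le_left.trans h))
      (btrans inf_le_right (inf_le_left.trans h'))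
  · rw [mem_upair, mem_upair, inf_sup_left]
    exact sup_le_sup (btrans inf_le_right (bsymm (inf_le_left.trans h)))
      (btrans inf_le_right (bsymm (inf_le_left.trans h')))

/-- names of Kuratowski pairs -/
def opair (x y : BN B) : BN B := upair (upair x x) (upair x y)

theorem cong_opair {g : B} {x y x' y' : BN B} (h : g ≤ beq x x') (h' : g ≤ beq y y') :
    g ≤ beq (opair x y) (opair x' y') :=
  cong_upair (cong_upair h h) (cong_upair h h')

theorem Cong.opair {f k : BN B → BN B} (hf : Cong f) (hk : Cong k) :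
    Cong (fun x => opair (f x) (k x)) := fun x y => cong_opair (hf x y) (hk x y)

theorem upair_left {g : B} {x y z w : BN B} (h : g ≤ beq (upair x y) (upair z w)) :
    g ≤ beq x z ⊔ beq x w := by
  rw [← mem_upair]
  exact mem_congr_right h (by rw [mem_upair]; exact brefl.trans le_sup_left)

theorem upair_right {g : B} {x y z w : BN B} (h : g ≤ beq (upair x y) (upair z w)) :
    g ≤ beq y z ⊔ beq y w := by
  rw [← mem_upair]
  exact mem_congr_right h (by rw [mem_upair]; exact brefl.trans le_sup_right)

theorem opair_inj_left {g : B} {x y x' y' : BN B} (h : g ≤ beq (opair x y) (opair x' y')) :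
    g ≤ beq x x' := by
  refine bor_elim (upair_left h) ?_ ?_
  · have h1 := upair_left (inf_le_right : g ⊓ beq (upair x x) (upair x' x') ≤ _)
    simpa using h1
  · have h1 := upair_left (bsymm (inf_le_right : g ⊓ beq (upair x x) (upair x' y') ≤ _))
    exact bsymm (by simpa using h1)

theorem opair_inj_right {g : B} {x y x' y' : BN B} (h : g ≤ beq (opair x y) (opair x' y')) :
    g ≤ beq y y' := by
  have hx := opair_inj_left h
  have key : ∀ {g : B} {x y x' y' : BN B}, g ≤ beq (opair x y) (opair x' y') → g ≤ beq x x' →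
      g ≤ beq y x' → g ≤ beq y y' := by
    intro g x y x' y' h hx hy
    -- `y = x' = x`; `{x',y'} ∈ {{x},{x,y}}`
    refine bor_elim (upair_right (bsymm h)) ?_ ?_
    · have h1 := upair_right (inf_le_right : g ⊓ beq (upair x' y') (upair x x) ≤ _)
      rw [sup_idem] at h1
      exact btrans (inf_le_left.trans hy) (btrans (bsymm (inf_le_left.trans hx)) (bsymm h1))
    · have h1 := upair_right (inf_le_right : g ⊓ beq (upair x' y') (upair x y) ≤ _)
      refine bor_elim h1 ?_ ?_
      · refine btrans (inf_le_left.trans (inf_le_left.trans hy)) ?_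
        exact btrans (bsymm (inf_le_left.trans (inf_le_left.trans hx))) (bsymm inf_le_right)
      · exact bsymm inf_le_right
  refine bor_elim (upair_right h) ?_ ?_
  · have h1 := upair_right (inf_le_right : g ⊓ beq (upair x y) (upair x' x') ≤ _)
    rw [sup_idem] at h1
    exact key (inf_le_left.trans h) (inf_le_left.trans hx) h1
  · have h1 := upair_right (inf_le_right : g ⊓ beq (upair x y) (upair x' y') ≤ _)
    refine bor_elim h1 ?_ inf_le_right
    exact key (inf_le_left.trans (inf_le_left.trans h)) (inf_le_left.trans (inf_le_left.trans hx))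
      inf_le_right

/-- the value of `(x, y) ∈ r` -/
def rel (r x y : BN B) : B := mem (opair x y) r

theorem ext_rel {f k l : BN B → BN B} (hf : Cong f) (hk : Cong k) (hl : Cong l) :
    Ext (fun x => rel (f x) (k x) (l x)) := ext_mem (Cong.opair hk hl) hf

section rel
variable {K : Type u} [LinearOrder K] [WellFoundedLT K]

/-- the name of a binary relation on `K` -/
noncomputable def relN (R : K → K → B) : BN B :=
  mk (K × K) (fun p => opair (ordN p.1) (ordN p.2)) (fun p => R p.1 p.2)

theorem rel_relN (R : K → K → B) (i j : K) : rel (relN R) (ordN i) (ordN j) = R i j := by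
  rw [rel, relN, mem_mk]
  apply le_antisymm
  · refine iSup_le fun p => ?_
    obtain ⟨i', j'⟩ := p
    by_cases hi : i = i'
    · by_cases hj : j = j'
      · subst hi; subst hj; exact inf_le_left
      · have := opair_inj_right (inf_le_right :
          R i' j' ⊓ beq (opair (ordN i) (ordN j)) (opair (ordN i') (ordN j')) ≤ _)
        rw [beq_ordN_of_ne hj] at this
        exact this.trans bot_le
    · have := opair_inj_left (inf_le_right :
          R i' j' ⊓ beq (opair (ordN i) (ordN j)) (opair (ordN i') (ordN j')) ≤ _)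
      rw [beq_ordN_of_ne hi] at this
      exact this.trans bot_le
  · exact bex_intro (i, j) (le_inf le_rfl brefl)

end rel

end BN
end H85.Forcing
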