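import Pool.Agent.H85.Forcing.Chain

/-!
# The forcing notion

`Cond = Cond1 × Cond2`: a square sequence on `K` together with generic surjections from `ω₁` onto
all ordinals and `2^K` generic subsets of `ω₁`, all with countable conditions.
-/

open Set Ordinal

namespace H85.Forcing

/-- indices of the second part -/
abbrev J : Type 1 := (K ⊕ Set K) × K

/-- bound of the values -/
def bd : J → K
  | (Sum.inl α, _) => α
  | (Sum.inr _, _) => 2

/-- Conditions of the second part. -/
structure Cond2 : Type 1 where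
  D : Set J
  g : J → K
  ctD : D.Countable
  lt_bd : ∀ j ∈ D, g j < bd j

instance : Preorder Cond2 where
  le q p := p.D ⊆ q.D ∧ ∀ j ∈ p.D, q.g j = p.g j
  le_refl p := ⟨subset_rfl, fun _ _ => rfl⟩
  le_trans r q p h h' := ⟨h'.1.trans h.1, fun α hα => (h.2 α (h'.1 hα)).trans (h'.2 α hα)⟩

theorem Cond2.amalg (p q : Cond2) (h : ∀ j ∈ p.D, j ∈ q.D → p.g j = q.g j) :
    ∃ r : Cond2, r ≤ p ∧ r ≤ q := by
  classical
  let g : J → K := fun j => if j ∈ p.D then p.g j else q.g j
  have h1 : ∀ j ∈ p.D, g j = p.g j := fun j hj => if_pos hj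
  have h2 : ∀ j ∈ q.D, g j = q.g j := by
    intro j hj
    by_cases hp : j ∈ p.D
    · rw [h1 j hp, h j hp hj]
    · exact if_neg hp
  refine ⟨{ D := p.D ∪ q.D, g := g, ctD := p.ctD.union q.ctD, lt_bd := ?_ },
    ⟨subset_union_left, h1⟩, ⟨subset_union_right, h2⟩⟩
  rintro j (hj | hj)
  · rw [h1 j hj]; exact p.lt_bd j hj
  · rw [h2 j hj]; exact q.lt_bd j hj

theorem Cond2.exists_lower (p : ℕ → Cond2) (hp : ∀ m n, m ≤ n → p n ≤ p m) :
    ∃ q : Cond2, ∀ n, q ≤ p n := by
  classical
  let g : J → K := fun j => if h : ∃ n, j ∈ (p n).D then (p h.choose).g j else 0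
  have h1 : ∀ n, ∀ j ∈ (p n).D, g j = (p n).g j := by
    intro n j hj
    have h : ∃ n, j ∈ (p n).D := ⟨n, hj⟩
    have h2 : g j = (p h.choose).g j := dif_pos h
    rw [h2]
    rcases le_total n h.choose with hle | hle
    · exact (hp _ _ hle).2 j hj
    · exact ((hp _ _ hle).2 j h.choose_spec).symm
  refine ⟨{ D := ⋃ n, (p n).D, g := g, ctD := countable_iUnion fun n => (p n).ctD,
            lt_bd := ?_ }, fun n => ⟨subset_iUnion (fun n => (p n).D) n, h1 n⟩⟩
  intro j hj
  obtain ⟨n, hn⟩ := mem_iUnion.1 hj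
  rw [h1 n j hn]
  exact (p n).lt_bd j hn

theorem Cond2.add (p : Cond2) {j : J} (hj : j ∉ p.D) {v : K} (hv : v < bd j) :
    ∃ q : Cond2, q ≤ p ∧ q.D = insert j p.D ∧ q.g j = v := by
  classical
  refine ⟨{ D := insert j p.D, g := Function.update p.g j v, ctD := p.ctD.insert j,
            lt_bd := ?_ }, ⟨subset_insert _ _, fun i hi => ?_⟩, rfl, by simp⟩
  · rintro i (rfl | hi)
    · simpa using hv
    · rw [Function.update_of_ne (fun h : i = j => hj (h ▸ hi))]
      exact p.lt_bd i hi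
  · exact Function.update_of_ne (fun h : i = j => hj (h ▸ hi)) _ _

/-- the forcing notion -/
abbrev Cond : Type 1 := Cond1 × Cond2

/-- the trivial condition -/
def Cond1.one : Cond1 where
  D := ∅
  C _ := ∅
  ctD := countable_empty
  limD := by simp
  ctC := by simp
  sub := by simp
  closed := by simp
  coh := by simp
  top := by simp

def Cond2.one : Cond2 where
  D := ∅
  g _ := 0
  ctD := countable_empty
  lt_bd := by simp

instance : Nonempty Cond := ⟨(Cond1.one, Cond2.one)⟩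

theorem Cond.exists_lower (p : ℕ → Cond) (hp : ∀ m n, m ≤ n → p n ≤ p m) :
    ∃ q : Cond, (∀ n, q ≤ p n) ∧ ∀ β ∈ q.1.D, ∃ n, ∃ α ∈ (p n).1.D, β ≤ α := by
  obtain ⟨q1, h1, h2⟩ := Cond1.exists_lower (fun n => (p n).1) fun m n h => (hp m n h).1
  obtain ⟨q2, h3⟩ := Cond2.exists_lower (fun n => (p n).2) fun m n h => (hp m n h).2
  exact ⟨(q1, q2), fun n => ⟨h1 n, h3 n⟩, h2⟩

/-- countably many dense downward closed sets can be met -/
theorem Cond.exists_tasks {ι : Type*} [Countable ι] (p : Cond) (T : ι → Cond → Prop)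
    (hT : ∀ i q r, r ≤ q → T i q → T i r)
    (hd : ∀ i, ∀ q ≤ p, ∃ r ≤ q, T i r) : ∃ q ≤ p, ∀ i, T i q := by
  classical
  by_cases hι : Nonempty ι
  · obtain ⟨e, he⟩ := exists_surjective_nat ι
    have h1 : ∀ (q : {q : Cond // q ≤ p}) (n : ℕ), ∃ r : {q : Cond // q ≤ p},
        r.1 ≤ q.1 ∧ T (e n) r.1 := by
      rintro ⟨q, hq⟩ n
      obtain ⟨r, hr, hr2⟩ := hd (e n) q hq
      exact ⟨⟨r, hr.trans hq⟩, hr, hr2⟩
    choose F hF1 hF2 using h1
    let f : ℕ → {q : Cond // q ≤ p} := fun n => Nat.rec ⟨p, le_rfl⟩ (fun n q => F q n) n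
    have hf : ∀ n, f (n + 1) = F (f n) n := fun n => rfl
    have hanti : ∀ m n, m ≤ n → (f n).1 ≤ (f m).1 := by
      intro m n h
      induction n, h using Nat.le_induction with
      | base => exact le_rfl
      | succ n _ ih => rw [hf]; exact (hF1 _ _).trans ih
    obtain ⟨q, hq, -⟩ := Cond.exists_lower (fun n => (f n).1) hanti
    refine ⟨q, hq 0, fun i => ?_⟩
    obtain ⟨n, rfl⟩ := he i
    refine hT _ _ _ (hq (n + 1)) ?_
    exact hF2 (f n) n
  · exact ⟨p, le_rfl, fun i => absurd ⟨i⟩ hι⟩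

/-- **Chain condition.** -/
theorem small_antichain (A : Set Cond)
    (hA : ∀ p ∈ A, ∀ q ∈ A, p ≠ q → ¬ ∃ r, r ≤ p ∧ r ≤ q) : Small.{0} A := by
  classical
  let supp : Cond → Set (K ⊕ J) := fun p => Sum.inl '' p.1.D ∪ Sum.inr '' p.2.D
  let tr : Cond → K ⊕ J → Option (Set K) := fun p x => match x with
    | Sum.inl α => if α ∈ p.1.D then some (p.1.C α) else none
    | Sum.inr j => if j ∈ p.2.D then some {p.2.g j} else none
  let Val : K ⊕ J → Set (Option (Set K)) := fun x => match x with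
    | Sum.inl α => insert none (some '' (𝒫 (Iio α)))
    | Sum.inr j => insert none (some '' (𝒫 (Iio (bd j))))
  refine small_of_agree supp tr Val ?_ ?_ ?_ A ?_
  · intro p
    exact (p.1.ctD.image _).union (p.2.ctD.image _)
  · rintro (α | j)
    · have : Small.{0} (𝒫 (Iio α)) := small_powerset _
      exact small_insert _ _
    · have : Small.{0} (𝒫 (Iio (bd j))) := small_powerset _
      exact small_insert _ _
  · rintro p (α | j)
    · change (if α ∈ p.1.D then some (p.1.C α) else none) ∈ insert none (some '' (𝒫 (Iio α)))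
      by_cases h : α ∈ p.1.D
      · rw [if_pos h]
        exact Or.inr ⟨p.1.C α, fun β hβ => p.1.sub α h β hβ, rfl⟩
      · rw [if_neg h]; exact Or.inl rfl
    · change (if j ∈ p.2.D then some {p.2.g j} else none) ∈ insert none (some '' (𝒫 (Iio (bd j))))
      by_cases h : j ∈ p.2.D
      · rw [if_pos h]
        refine Or.inr ⟨{p.2.g j}, ?_, rfl⟩
        intro β hβ
        rw [mem_singleton_iff.1 hβ]
        exact p.2.lt_bd j h
      · rw [if_neg h]; exact Or.inl rfl
  · intro p hp q hq hag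
    by_contra hne
    apply hA p hp q hq hne
    have h1 : ∀ α ∈ p.1.D, α ∈ q.1.D → p.1.C α = q.1.C α := by
      intro α hα hα'
      have := hag (Sum.inl α) (Or.inl ⟨α, hα, rfl⟩) (Or.inl ⟨α, hα', rfl⟩)
      change (if α ∈ p.1.D then some (p.1.C α) else none) =
        (if α ∈ q.1.D then some (q.1.C α) else none) at this
      rw [if_pos hα, if_pos hα'] at this
      exact Option.some_injective _ this
    have h2 : ∀ j ∈ p.2.D, j ∈ q.2.D → p.2.g j = q.2.g j := by
      intro j hj hj'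
      have := hag (Sum.inr j) (Or.inr ⟨j, hj, rfl⟩) (Or.inr ⟨j, hj', rfl⟩)
      change (if j ∈ p.2.D then some {p.2.g j} else none) =
        (if j ∈ q.2.D then some {q.2.g j} else none) at this
      rw [if_pos hj, if_pos hj'] at this
      exact singleton_injective (Option.some_injective _ this)
    obtain ⟨r1, h3, h4, -⟩ := p.1.amalg q.1 h1 (fun _ => 0)
    obtain ⟨r2, h5, h6⟩ := p.2.amalg q.2 h2
    exact ⟨(r1, r2), ⟨h3, h5⟩, ⟨h4, h6⟩⟩

/-- a family of pairwise incompatible conditions is indexed by a small set -/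
theorem small_index {I : Type*} (Y : Set I) (p : I → Cond)
    (h : ∀ i ∈ Y, ∀ j ∈ Y, i ≠ j → ¬ ∃ r, r ≤ p i ∧ r ≤ p j) : Small.{0} Y := by
  have hinj : InjOn p Y := by
    intro i hi j hj hij
    by_contra hne
    exact h i hi j hj hne ⟨p i, le_rfl, hij ▸ le_rfl⟩
  have h1 : Small.{0} (p '' Y) := by
    refine small_antichain _ ?_
    rintro _ ⟨i, hi, rfl⟩ _ ⟨j, hj, rfl⟩ hne
    exact h i hi j hj (fun e => hne (by rw [e]))
  exact small_of_injective (f := fun y : Y => (⟨p y.1, y.1, y.2, rfl⟩ : p '' Y))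
    (fun a b hab => Subtype.ext (hinj a.2 b.2 (congrArg Subtype.val hab)))

end H85.Forcing
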