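import Pool.Agent.H85.Forcing.Cards

/-!
# The generic square sequence
-/

open Set Ordinal Cardinal

namespace H85.Forcing
open BN RO

/-- order type of `c ∩ β` -/
noncomputable def rk (c : Set K) : K → K :=
  WellFoundedLT.fix fun β ih => ⨆ γ : {γ : K // γ < β ∧ γ ∈ c}, (ih γ.1 γ.2.1 + 1)

theorem rk_eq (c : Set K) (β : K) : rk c β = ⨆ γ : {γ : K // γ < β ∧ γ ∈ c}, (rk c γ.1 + 1) :=
  WellFoundedLT.fix_eq _ β

instance (c : Set K) (β : K) : Small.{0} {γ : K // γ < β ∧ γ ∈ c} :=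
  small_subset (s := Iio β) (t := {γ | γ < β ∧ γ ∈ c}) fun _ h => h.1

theorem rk_lt {c : Set K} {γ β : K} (h : γ < β) (hc : γ ∈ c) : rk c γ < rk c β := by
  rw [rk_eq c β]
  have : rk c γ + 1 ≤ ⨆ γ : {γ : K // γ < β ∧ γ ∈ c}, (rk c γ.1 + 1) :=
    Ordinal.le_iSup (fun γ : {γ : K // γ < β ∧ γ ∈ c} => rk c γ.1 + 1) ⟨γ, h, hc⟩
  exact (Order.lt_add_one_iff.2 le_rfl).trans_le this

theorem exists_rk {c : Set K} (β : K) : ∀ i < rk c β, ∃ γ ∈ c, γ < β ∧ rk c γ = i := by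
  induction β using WellFoundedLT.induction with
  | ind β ih =>
    intro i hi
    rw [rk_eq c β, Ordinal.lt_iSup_iff] at hi
    obtain ⟨⟨γ, hγ, hγc⟩, h⟩ := hi
    rcases (Order.lt_add_one_iff.1 h).eq_or_lt with h1 | h1
    · exact ⟨γ, hγc, hγ, h1.symm⟩
    · obtain ⟨δ, hδ, hδγ, h2⟩ := ih γ hγ i h1
      exact ⟨δ, hδ, hδγ.trans hγ, h2⟩

theorem rk_congr {c c' : Set K} (β : K) (h : ∀ γ < β, γ ∈ c ↔ γ ∈ c') : rk c β = rk c' β := by
  induction β using WellFoundedLT.induction with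
  | ind β ih =>
    apply le_antisymm
    · rw [rk_eq c β, Ordinal.iSup_le_iff]
      rintro ⟨γ, hγ, hγc⟩
      rw [ih γ hγ fun δ hδ => h δ (hδ.trans hγ)]
      exact Order.add_one_le_of_lt (rk_lt hγ ((h γ hγ).1 hγc))
    · rw [rk_eq c' β, Ordinal.iSup_le_iff]
      rintro ⟨γ, hγ, hγc⟩
      rw [← ih γ hγ fun δ hδ => h δ (hδ.trans hγ)]
      exact Order.add_one_le_of_lt (rk_lt hγ ((h γ hγ).2 hγc))

theorem rk_lt_omega1 {c : Set K} (hc : c.Countable) (β : K) : rk c β < ω₁ := by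
  induction β using WellFoundedLT.induction with
  | ind β ih =>
    rw [rk_eq c β]
    have : Countable {γ : K // γ < β ∧ γ ∈ c} :=
      (hc.mono (s₁ := {γ | γ < β ∧ γ ∈ c}) fun _ h => h.2).to_subtype
    refine Ordinal.iSup_lt_omega_one fun γ => ?_
    exact (Cardinal.isSuccLimit_omega 1).add_one_lt (ih γ.1 γ.2.1)

/-- the generic square sequence -/
def sqR (α β : K) : RO Cond := regl fun s => α ∈ s.1.D ∧ β ∈ s.1.C α

theorem forces_sqR {p : Cond} {α β : K} : p ∈ sqR α β ↔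
    ∀ q ≤ p, ∃ r ≤ q, α ∈ r.1.D ∧ β ∈ r.1.C α := by
  unfold sqR
  rw [forces_regl]
  constructor
  · intro h q hq
    obtain ⟨r, hr, s, hs, hrs⟩ := h q hq
    exact ⟨r, hr, hrs.1.1 hs.1, (hrs.1.2 α hs.1).1 hs.2⟩
  · intro h q hq
    obtain ⟨r, hr, hr2⟩ := h q hq
    exact ⟨r, hr, r, hr2, le_rfl⟩

theorem sqR_of_mem {p : Cond} {α β : K} (hα : α ∈ p.1.D) (hβ : β ∈ p.1.C α) : p ∈ sqR α β :=
  forces_sqR.2 fun q hq => ⟨q, le_rfl, hq.1.1 hα, (hq.1.2 α hα).1 hβ⟩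

theorem sqR_dec {p q : Cond} (hq : q ≤ p) {α β u : K} (hα : α ∈ p.1.D) (hu : u ∈ p.1.C α)
    (hβ : β ≤ u) : q ∈ sqR α β ↔ β ∈ p.1.C α := by
  constructor
  · intro h
    obtain ⟨r, hr, h1, h2⟩ := forces_sqR.1 h q le_rfl
    exact (((hr.trans hq).1.2 α hα).mem_iff hu hβ).1 h2
  · intro h
    exact (sqR_of_mem hα h).down hq

theorem sqR_dec' {p q : Cond} (hq : q ≤ p) {α β : K} (hα : α ∈ p.1.D)
    (hu : Unb (p.1.C α) α) : q ∈ sqR α β ↔ β ∈ p.1.C α := by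
  constructor
  · intro h
    obtain ⟨r, hr, h1, h2⟩ := forces_sqR.1 h q le_rfl
    exact (Cond1.final (hr.trans hq).1 hα hu).1 h2
  · intro h
    exact (sqR_of_mem hα h).down hq

/-- the name of the square sequence -/
noncomputable def sqN : Nm := relN sqR

/-- bounded quantifiers over `C_x` -/
theorem forces_ballC {c x : Nm} {φ : Nm → RO Cond} [hφ : ExtC φ] {p : Cond} :
    p ∈ (⨅ y, inCB (kapN K) c x y ⇨ φ y) ↔
      ∀ j : K, p ∈ (rel c x (ordN j) ⇨ φ (ordN j)) := by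
  have h : (⨅ y, inCB (kapN K) c x y ⇨ φ y) = ⨅ y, mem y (kapN K) ⇨ (rel c x y ⇨ φ y) := by
    refine iInf_congr fun y => ?_
    rw [inCB, himp_himp]
  rw [h]
  simp only [forces_ball_kapN]

theorem forces_bexC {c x : Nm} {φ : Nm → RO Cond} [hφ : ExtC φ] {p : Cond} :
    p ∈ (⨆ y, inCB (kapN K) c x y ⊓ φ y) ↔
      ∀ q ≤ p, ∃ r ≤ q, ∃ j : K, r ∈ rel c x (ordN j) ∧ r ∈ φ (ordN j) := by
  have h : (⨆ y, inCB (kapN K) c x y ⊓ φ y) = ⨆ y, mem y (kapN K) ⊓ (rel c x y ⊓ φ y) := by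
    refine iSup_congr fun y => ?_
    rw [inCB, inf_assoc]
  rw [h]
  simp only [forces_bex_kapN, forces_inf]

theorem ball_relN {R : K → K → RO Cond} {i : K} {φ : Nm → RO Cond} [hφ : ExtC φ] {p : Cond} :
    p ∈ (⨅ y, rel (relN R) (ordN i) y ⇨ φ y) ↔ ∀ j, ∀ q ≤ p, q ∈ R i j → q ∈ φ (ordN j) := by
  rw [forces_iInf]
  constructor
  · intro h j q hq hR
    exact forces_himp.1 (h (ordN j)) q hq (by rw [rel_relN]; exact hR)
  · intro h y
    rw [forces_himp]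
    intro q hq hR
    rw [rel_relN'] at hR
    refine forces_of_dense fun r hr => ?_
    obtain ⟨s, hs, j, hj1, hj2⟩ := forces_iSup.1 hR r hr
    refine ⟨s, hs, ?_⟩
    have h1 := h j s (hs.trans (hr.trans hq)) hj1
    exact le_iff_forces.1 (hφ.h.app (g := beq y (ordN j) ⊓ φ (ordN j)) (bsymm inf_le_left)
      inf_le_right) s ⟨hj2, h1⟩

/-- unfolding `IsEnum` for names of relations on ordinals -/
theorem forces_isEnum {c : Nm} {α k : K} {R : K → K → RO Cond} {p : Cond} :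
    p ∈ isEnumB (kapN K) c (ordN α) (ordN k) (relN R) ↔
      (∀ i < k, ∀ q ≤ p, ∃ r ≤ q, ∃ y : K, r ∈ rel c (ordN α) (ordN y) ∧ r ∈ R i y) ∧
      (∀ y : K, ∀ q ≤ p, q ∈ rel c (ordN α) (ordN y) → ∀ q' ≤ q, ∃ r ≤ q', ∃ i < k, r ∈ R i y) ∧
      (∀ i < k, ∀ j < k, ∀ y, ∀ q ≤ p, q ∈ R i y → ∀ z, ∀ r ≤ q, r ∈ R j z →
        (i = j → y = z) ∧ (i < j → y < z)) := by
  unfold isEnumB
  have h3 : (⨅ i, mem i (ordN k) ⇨ ⨅ j, mem j (ordN k) ⇨ ⨅ y, ⨅ z, rel (relN R) i y ⇨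
      (rel (relN R) j z ⇨ ((beq i j ⇨ beq y z) ⊓ (mem i j ⇨ mem y z)))) =
      (⨅ i, mem i (ordN k) ⇨ ⨅ j, mem j (ordN k) ⇨ ⨅ y, rel (relN R) i y ⇨
        ⨅ z, rel (relN R) j z ⇨ ((beq i j ⇨ beq y z) ⊓ (mem i j ⇨ mem y z) : RO Cond)) := by
    refine iInf_congr fun i => congrArg _ (iInf_congr fun j => congrArg _ (iInf_congr fun y => ?_))
    rw [himp_iInf_eq]
  rw [h3]
  simp only [forces_inf, forces_ball_ordN, forces_bexC, forces_ballC,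
    rel_relN, ball_relN, forces_himp, forces_bex_ordN, forces_beq_ordN, forces_mem_ordN]
  refine and_congr_right fun _ => and_congr_right fun _ => ?_
  constructor
  · intro h i hi j hj y q hq hy z r hr hz
    obtain ⟨h1, h2⟩ := h i hi j hj y q hq hy z r hr hz
    exact ⟨fun e => h1 r le_rfl e, fun e => h2 r le_rfl e⟩
  · intro h i hi j hj y q hq hy z r hr hz
    exact ⟨fun _ _ e => (h i hi j hj y q hq hy z r hr hz).1 e,
      fun _ _ e => (h i hi j hj y q hq hy z r hr hz).2 e⟩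

end H85.Forcing
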