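import Mathlib

/-!
# Countable conditions for a square sequence on the class of all ordinals
-/

open Set

namespace H85.Forcing

/-- the well-order on which the square sequence lives -/
abbrev K := Ordinal.{0}

/-- limit ordinals -/
def Lim (α : K) : Prop := (∃ β, β < α) ∧ ∀ β < α, ∃ γ < α, β < γ

/-- `S` is unbounded in `α` -/
def Unb (S : Set K) (α : K) : Prop := ∀ z < α, ∃ w ∈ S, w < α ∧ z < w

/-- countable cofinality -/
def CC (α : K) : Prop := ∃ s : Set K, s.Countable ∧ Unb s α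

theorem exists_bound {α : K} (hα : Lim α) (hc : ¬ CC α) {s : Set K} (hs : s.Countable) :
    ∃ z < α, ∀ w ∈ s, w < α → w < z := by
  by_contra h
  push Not at h
  refine hc ⟨s, hs, fun z hz => ?_⟩
  obtain ⟨z', hz', hzz'⟩ := hα.2 z hz
  obtain ⟨w, hw, hwα, hw2⟩ := h z' hz'
  exact ⟨w, hw, hwα, hzz'.trans_le hw2⟩

/-- Conditions of the square part. -/
structure Cond1 : Type 1 where
  D : Set K
  C : K → Set K
  ctD : D.Countable
  limD : ∀ α ∈ D, Lim α
  ctC : ∀ α ∈ D, (C α).Countable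
  sub : ∀ α ∈ D, ∀ β ∈ C α, β < α
  closed : ∀ α ∈ D, ∀ β < α, Lim β → Unb (C α) β → β ∈ C α
  coh : ∀ α ∈ D, ∀ β ∈ C α, Lim β → Unb (C α) β → β ∈ D ∧ ∀ z, z ∈ C β ↔ z ∈ C α ∧ z < β
  top : ∀ α ∈ D, (CC α ∧ Unb (C α) α) ∨
    (¬ CC α ∧ ∃ m ∈ C α, (∀ β ∈ C α, β ≤ m) ∧ ∀ β ∈ D, β < α → β ≤ m)

/-- end extension -/
def EndExt (s t : Set K) : Prop := s ⊆ t ∧ ∀ β ∈ t, β ∈ s ∨ ∀ γ ∈ s, γ < β

theorem EndExt.refl (s : Set K) : EndExt s s := ⟨subset_rfl, fun _ h => Or.inl h⟩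

theorem EndExt.trans {s t u : Set K} (h : EndExt s t) (h' : EndExt t u) : EndExt s u := by
  refine ⟨h.1.trans h'.1, fun β hβ => ?_⟩
  rcases h'.2 β hβ with h1 | h1
  · exact h.2 β h1
  · exact Or.inr fun γ hγ => h1 γ (h.1 hγ)

theorem EndExt.mem_iff {s t : Set K} (h : EndExt s t) {u z : K} (hu : u ∈ s) (hz : z ≤ u) :
    z ∈ t ↔ z ∈ s := by
  refine ⟨fun h1 => ?_, fun h1 => h.1 h1⟩
  rcases h.2 z h1 with h2 | h2
  · exact h2
  · exact absurd (h2 u hu) (not_lt.2 hz)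

instance : Preorder Cond1 where
  le q p := p.D ⊆ q.D ∧ ∀ α ∈ p.D, EndExt (p.C α) (q.C α)
  le_refl p := ⟨subset_rfl, fun _ _ => EndExt.refl _⟩
  le_trans r q p h h' := ⟨h'.1.trans h.1, fun α hα => (h'.2 α hα).trans (h.2 α (h'.1 hα))⟩

theorem Cond1.le_def {p q : Cond1} : q ≤ p ↔ p.D ⊆ q.D ∧ ∀ α ∈ p.D, EndExt (p.C α) (q.C α) :=
  Iff.rfl

theorem Unb.mono {s t : Set K} {α : K} (h : Unb s α) (hst : ∀ w ∈ s, w < α → w ∈ t) : Unb t α := by
  intro z hz
  obtain ⟨w, hw, hw1, hw2⟩ := h z hz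
  exact ⟨w, hst w hw hw1, hw1, hw2⟩

/-- in a condition: an unbounded value is final -/
theorem Cond1.final {p q : Cond1} (h : q ≤ p) {α : K} (hα : α ∈ p.D) (hu : Unb (p.C α) α)
    {z : K} : z ∈ q.C α ↔ z ∈ p.C α := by
  refine ⟨fun hz => ?_, fun hz => (h.2 α hα).1 hz⟩
  rcases (h.2 α hα).2 z hz with h1 | h1
  · exact h1
  · obtain ⟨w, hw, -, hw2⟩ := hu z (q.sub α (h.1 hα) z hz)
    exact absurd (h1 w hw) (not_lt.2 hw2.le)

/-- **Amalgamation** of conditions agreeing on the common domain; the values at ordinals of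
uncountable cofinality can be pushed up. -/
theorem Cond1.amalg (p q : Cond1) (h : ∀ α ∈ p.D, α ∈ q.D → p.C α = q.C α) (b : K → K) :
    ∃ r : Cond1, r ≤ p ∧ r ≤ q ∧ r.D = p.D ∪ q.D ∧
      ∀ α ∈ r.D, ¬ CC α → b α < α → ∃ β ∈ r.C α, b α < β := by
  classical
  let D := p.D ∪ q.D
  have ctD : D.Countable := p.ctD.union q.ctD
  let C0 : K → Set K := fun α => if α ∈ p.D then p.C α else q.C α
  have hC0p : ∀ α ∈ p.D, C0 α = p.C α := fun α hα => if_pos hα
  have hC0q : ∀ α ∈ q.D, C0 α = q.C α := by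
    intro α hα
    by_cases hp : α ∈ p.D
    · rw [hC0p α hp, h α hp hα]
    · exact if_neg hp
  have limD : ∀ α ∈ D, Lim α := fun α hα => hα.elim (p.limD α) (q.limD α)
  have ctC0 : ∀ α ∈ D, (C0 α).Countable := by
    rintro α (hα | hα)
    · rw [hC0p α hα]; exact p.ctC α hα
    · rw [hC0q α hα]; exact q.ctC α hα
  have sub0 : ∀ α ∈ D, ∀ β ∈ C0 α, β < α := by
    rintro α (hα | hα)
    · rw [hC0p α hα]; exact p.sub α hα
    · rw [hC0q α hα]; exact q.sub α hα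
  have closed0 : ∀ α ∈ D, ∀ β < α, Lim β → Unb (C0 α) β → β ∈ C0 α := by
    rintro α (hα | hα)
    · rw [hC0p α hα]; exact p.closed α hα
    · rw [hC0q α hα]; exact q.closed α hα
  have coh0 : ∀ α ∈ D, ∀ β ∈ C0 α, Lim β → Unb (C0 α) β →
      β ∈ D ∧ ∀ z, z ∈ C0 β ↔ z ∈ C0 α ∧ z < β := by
    rintro α (hα | hα)
    · rw [hC0p α hα]
      intro β hβ h1 h2
      have := p.coh α hα β hβ h1 h2
      rw [hC0p β this.1]
      exact ⟨Or.inl this.1, this.2⟩
    · rw [hC0q α hα]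
      intro β hβ h1 h2
      have := q.coh α hα β hβ h1 h2
      rw [hC0q β this.1]
      exact ⟨Or.inr this.1, this.2⟩
  have unb0 : ∀ α ∈ D, CC α → Unb (C0 α) α := by
    rintro α (hα | hα) hc
    · rw [hC0p α hα]
      rcases p.top α hα with h1 | h1
      · exact h1.2
      · exact absurd hc h1.1
    · rw [hC0q α hα]
      rcases q.top α hα with h1 | h1
      · exact h1.2
      · exact absurd hc h1.1
  have max0 : ∀ α ∈ D, ¬ CC α → ∃ m ∈ C0 α, ∀ β ∈ C0 α, β ≤ m := by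
    rintro α (hα | hα) hc
    · rw [hC0p α hα]
      rcases p.top α hα with h1 | h1
      · exact absurd h1.1 hc
      · obtain ⟨m, hm, hm2, -⟩ := h1.2
        exact ⟨m, hm, hm2⟩
    · rw [hC0q α hα]
      rcases q.top α hα with h1 | h1
      · exact absurd h1.1 hc
      · obtain ⟨m, hm, hm2, -⟩ := h1.2
        exact ⟨m, hm, hm2⟩
  -- the new points
  have hζ : ∀ α, ∃ ζ : K, α ∈ D → ¬ CC α → ζ < α ∧ (∀ β ∈ C0 α, β < ζ) ∧
      (∀ β ∈ D, β < α → β < ζ) ∧ (b α < α → b α < ζ) := by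
    intro α
    by_cases hα : α ∈ D
    · by_cases hc : CC α
      · exact ⟨0, fun _ h => absurd hc h⟩
      · obtain ⟨z, hz, hz2⟩ := exists_bound (limD α hα) hc
          (s := C0 α ∪ D ∪ {b α}) (((ctC0 α hα).union ctD).union (countable_singleton _))
        refine ⟨z, fun _ _ => ⟨hz, fun β hβ => ?_, fun β hβ hβα => ?_, fun hb => ?_⟩⟩
        · exact hz2 β (Or.inl (Or.inl hβ)) (sub0 α hα β hβ)
        · exact hz2 β (Or.inl (Or.inr hβ)) hβα
        · exact hz2 _ (Or.inr rfl) hb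
    · exact ⟨0, fun h => absurd h hα⟩
  choose ζ hζ using hζ
  let C : K → Set K := fun α => if CC α then C0 α else C0 α ∪ {ζ α}
  have hC1 : ∀ α, CC α → C α = C0 α := fun α hα => if_pos hα
  have hC2 : ∀ α, ¬ CC α → C α = C0 α ∪ {ζ α} := fun α hα => if_neg hα
  have hC3 : ∀ α, C0 α ⊆ C α := by
    intro α
    by_cases hc : CC α
    · rw [hC1 α hc]
    · rw [hC2 α hc]; exact subset_union_left
  -- unboundedness in C below a limit comes from C0
  have hkey : ∀ α ∈ D, ∀ β, Unb (C α) β → (∃ w ∈ C0 α, w < β) ∨ Lim β → Unb (C0 α) β ∧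
      (¬ CC α → β ≤ ζ α) := by
    intro α hα β hu hβ
    by_cases hc : CC α
    · rw [hC1 α hc] at hu
      exact ⟨hu, fun h => absurd hc h⟩
    · rw [hC2 α hc] at hu
      obtain ⟨h1, h2, h3, h4⟩ := hζ α hα hc
      have hle : β ≤ ζ α := by
        by_contra hlt
        rw [not_le] at hlt
        obtain ⟨w, hw, hw1, hw2⟩ := hu _ hlt
        rcases hw with hw | hw
        · exact absurd (h2 w hw) (not_lt.2 hw2.le)
        · exact absurd hw2 (not_lt.2 (le_of_eq hw))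
      refine ⟨hu.mono fun w hw hwβ => ?_, fun _ => hle⟩
      rcases hw with hw | hw
      · exact hw
      · exact absurd (hwβ.trans_le hle) (not_lt.2 (le_of_eq (hw.symm)))
  refine ⟨{ D := D, C := C, ctD := ctD, limD := limD, ctC := ?_, sub := ?_, closed := ?_,
            coh := ?_, top := ?_ }, ⟨subset_union_left, ?_⟩, ⟨subset_union_right, ?_⟩, rfl, ?_⟩
  · intro α hα
    by_cases hc : CC α
    · rw [hC1 α hc]; exact ctC0 α hα
    · rw [hC2 α hc]; exact (ctC0 α hα).union (countable_singleton _)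
  · intro α hα β hβ
    by_cases hc : CC α
    · rw [hC1 α hc] at hβ; exact sub0 α hα β hβ
    · rw [hC2 α hc] at hβ
      rcases hβ with hβ | hβ
      · exact sub0 α hα β hβ
      · rw [mem_singleton_iff.1 hβ]; exact (hζ α hα hc).1
  · intro α hα β hβα hβ hu
    exact hC3 α (closed0 α hα β hβα hβ (hkey α hα β hu (Or.inr hβ)).1)
  · intro α hα β hβ hlim hu
    obtain ⟨hu0, hle⟩ := hkey α hα β hu (Or.inr hlim)
    have hβ0 : β ∈ C0 α := closed0 α hα β (by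
      by_cases hc : CC α
      · rw [hC1 α hc] at hβ; exact sub0 α hα β hβ
      · exact (hle hc).trans_lt (hζ α hα hc).1) hlim hu0
    obtain ⟨hβD, hβC⟩ := coh0 α hα β hβ0 hlim hu0
    have hccβ : CC β := by
      refine ⟨C0 α, ctC0 α hα, hu0⟩
    refine ⟨hβD, fun z => ?_⟩
    rw [hC1 β hccβ, hβC z]
    refine and_congr_left fun hz => ?_
    by_cases hc : CC α
    · rw [hC1 α hc]
    · rw [hC2 α hc]
      refine ⟨Or.inl, fun h1 => h1.elim id fun h2 => ?_⟩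
      exact absurd ((mem_singleton_iff.1 h2) ▸ hz) (not_lt.2 (hle hc))
  · intro α hα
    by_cases hc : CC α
    · rw [hC1 α hc]; exact Or.inl ⟨hc, unb0 α hα hc⟩
    · rw [hC2 α hc]
      obtain ⟨h1, h2, h3, h4⟩ := hζ α hα hc
      refine Or.inr ⟨hc, ζ α, Or.inr rfl, fun β hβ => ?_, fun β hβ hβα => (h3 β hβ hβα).le⟩
      rcases hβ with hβ | hβ
      · exact (h2 β hβ).le
      · exact le_of_eq hβ
  · intro α hα
    have hαD : α ∈ D := Or.inl hα
    rw [← hC0p α hα]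
    refine ⟨hC3 α, fun β hβ => ?_⟩
    change β ∈ C α at hβ
    by_cases hc : CC α
    · rw [hC1 α hc] at hβ; exact Or.inl hβ
    · rw [hC2 α hc] at hβ
      rcases hβ with hβ | hβ
      · exact Or.inl hβ
      · rw [mem_singleton_iff.1 hβ]; exact Or.inr (hζ α hαD hc).2.1
  · intro α hα
    have hαD : α ∈ D := Or.inr hα
    rw [← hC0q α hα]
    refine ⟨hC3 α, fun β hβ => ?_⟩
    change β ∈ C α at hβ
    by_cases hc : CC α
    · rw [hC1 α hc] at hβ; exact Or.inl hβ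
    · rw [hC2 α hc] at hβ
      rcases hβ with hβ | hβ
      · exact Or.inl hβ
      · rw [mem_singleton_iff.1 hβ]; exact Or.inr (hζ α hαD hc).2.1
  · intro α hα hc hb
    refine ⟨ζ α, ?_, (hζ α hα hc).2.2.2 hb⟩
    change ζ α ∈ C α
    rw [hC2 α hc]; exact Or.inr rfl

theorem exists_omega_seq {α : K} (hα : Lim α) (hc : CC α) :
    ∃ f : ℕ → K, StrictMono f ∧ (∀ n, f n < α) ∧ ∀ z < α, ∃ n, z < f n := by
  obtain ⟨s, hs, hu⟩ := hc
  obtain ⟨z0, hz0⟩ := hα.1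
  obtain ⟨w0, hw0, -, -⟩ := hu z0 hz0
  obtain ⟨g, rfl⟩ := hs.exists_eq_range ⟨w0, hw0⟩
  have h1 : ∀ (y : {y // y < α}) (n : ℕ), ∃ y' : {y // y < α}, y.1 < y'.1 ∧
      (g n < α → g n < y'.1) := by
    rintro ⟨y, hy⟩ n
    by_cases hn : g n < α
    · obtain ⟨y', hy', h⟩ := hα.2 (max y (g n)) (max_lt hy hn)
      exact ⟨⟨y', hy'⟩, (le_max_left _ _).trans_lt h, fun _ => (le_max_right _ _).trans_lt h⟩
    · obtain ⟨y', hy', h⟩ := hα.2 y hy
      exact ⟨⟨y', hy'⟩, h, fun h => absurd h hn⟩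
  choose F hF1 hF2 using h1
  let f : ℕ → {y // y < α} := fun n => Nat.rec ⟨z0, hz0⟩ (fun n y => F y n) n
  have hf : ∀ n, f (n + 1) = F (f n) n := fun n => rfl
  refine ⟨fun n => (f n).1, strictMono_nat_of_lt_succ fun n => ?_, fun n => (f n).2, ?_⟩
  · rw [hf]; exact hF1 _ _
  · intro z hz
    obtain ⟨w, ⟨n, rfl⟩, hn, hzn⟩ := hu z hz
    refine ⟨n + 1, ?_⟩
    change z < (f (n + 1)).1
    rw [hf]
    exact hzn.trans (hF2 _ _ hn)

/-- the condition with domain `{α}` -/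
theorem exists_single (α : K) (hα : Lim α) : ∃ q : Cond1, q.D = {α} := by
  by_cases hc : CC α
  · obtain ⟨f, hf, hf1, hf2⟩ := exists_omega_seq hα hc
    have hno : ∀ β < α, Lim β → ¬ Unb (range f) β := by
      intro β hβ hlim hu
      obtain ⟨n, hn⟩ := hf2 β hβ
      obtain ⟨z0, hz0⟩ := hlim.1
      have key : ∀ m, f m < β → ∃ k, m < k ∧ f k < β := by
        intro m hm
        obtain ⟨w, ⟨k, rfl⟩, hk1, hk2⟩ := hu (f m) hm
        exact ⟨k, hf.lt_iff_lt.1 hk2, hk1⟩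
      obtain ⟨w, ⟨k0, rfl⟩, hk0, -⟩ := hu z0 hz0
      have key2 : ∀ j, ∃ m, j ≤ m ∧ f m < β := by
        intro j
        induction j with
        | zero => exact ⟨k0, Nat.zero_le _, hk0⟩
        | succ j ih =>
          obtain ⟨m, hm, hm2⟩ := ih
          obtain ⟨k, hk, hk2⟩ := key m hm2
          exact ⟨k, by omega, hk2⟩
      obtain ⟨m, hm, hm2⟩ := key2 n
      exact absurd (hn.trans_le (hf.monotone hm)) (not_lt.2 hm2.le)
    refine ⟨{ D := {α}, C := fun _ => range f, ctD := countable_singleton _, limD := ?_,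
              ctC := fun _ _ => countable_range f, sub := ?_, closed := ?_, coh := ?_,
              top := ?_ }, rfl⟩
    · rintro β rfl; exact hα
    · rintro β rfl _ ⟨n, rfl⟩; exact hf1 n
    · rintro β rfl γ hγ hlim hu; exact absurd hu (hno γ hγ hlim)
    · rintro β rfl γ ⟨n, rfl⟩ hlim hu; exact absurd hu (hno _ (hf1 n) hlim)
    · rintro β rfl
      refine Or.inl ⟨hc, fun z hz => ?_⟩
      obtain ⟨n, hn⟩ := hf2 z hz
      exact ⟨f n, ⟨n, rfl⟩, hf1 n, hn⟩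
  · refine ⟨{ D := {α}, C := fun _ => {0}, ctD := countable_singleton _, limD := ?_,
              ctC := fun _ _ => countable_singleton _, sub := ?_, closed := ?_, coh := ?_,
              top := ?_ }, rfl⟩
    · rintro β rfl; exact hα
    · rintro β rfl γ hγ
      rw [mem_singleton_iff.1 hγ]
      obtain ⟨z, hz⟩ := hα.1
      exact (zero_le (a := z)).trans_lt hz
    · rintro β rfl γ hγ hlim hu
      obtain ⟨z, hz⟩ := hlim.1
      obtain ⟨w, hw, -, hw2⟩ := hu z hz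
      rw [mem_singleton_iff.1 hw] at hw2
      exact absurd hw2 (not_lt.2 zero_le)
    · rintro β rfl γ hγ hlim hu
      obtain ⟨z, hz⟩ := hlim.1
      obtain ⟨w, hw, -, hw2⟩ := hu z hz
      rw [mem_singleton_iff.1 hw] at hw2
      exact absurd hw2 (not_lt.2 zero_le)
    · rintro β rfl
      refine Or.inr ⟨hc, 0, rfl, fun γ hγ => le_of_eq hγ, fun γ hγ hγβ => ?_⟩
      rw [mem_singleton_iff.1 hγ] at hγβ
      exact absurd hγβ (lt_irrefl _)

theorem Cond1.exists_dec (p : Cond1) {α β : K} (hα : Lim α) (hβ : β < α) :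
    ∃ q, q ≤ p ∧ α ∈ q.D ∧ ∃ u ∈ q.C α, β < u := by
  obtain ⟨q0, hq0, hα0⟩ : ∃ q, q ≤ p ∧ α ∈ q.D := by
    by_cases h : α ∈ p.D
    · exact ⟨p, le_rfl, h⟩
    · obtain ⟨s, hs⟩ := exists_single α hα
      obtain ⟨r, hr1, -, hr3, -⟩ := p.amalg s (fun γ h1 h2 => by
        rw [hs, mem_singleton_iff] at h2
        subst h2; exact absurd h1 h) (fun _ => 0)
      exact ⟨r, hr1, by rw [hr3, hs]; exact Or.inr rfl⟩
  obtain ⟨r, hr1, -, hr3, hr4⟩ := q0.amalg q0 (fun _ _ _ => rfl) (fun _ => β)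
  have hαr : α ∈ r.D := by rw [hr3]; exact Or.inl hα0
  refine ⟨r, hr1.trans hq0, hαr, ?_⟩
  by_cases hc : CC α
  · rcases r.top α hαr with h | h
    · obtain ⟨w, hw, -, hw2⟩ := h.2 β hβ
      exact ⟨w, hw, hw2⟩
    · exact absurd hc h.1
  · exact hr4 α hαr hc hβ

theorem Unb.lub {S : Set K} {α δ : K} (h : Unb S α) (hδ : ∀ x ∈ S, x < α → x ≤ δ) : α ≤ δ := by
  by_contra h'
  rw [not_le] at h'
  obtain ⟨w, hw, hw1, hw2⟩ := h δ h'
  exact absurd (hδ w hw hw1) (not_le.2 hw2)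

/-- **Lower bounds of descending sequences.** -/
theorem Cond1.exists_lower (p : ℕ → Cond1) (hp : ∀ m n, m ≤ n → p n ≤ p m) :
    ∃ q : Cond1, (∀ n, q ≤ p n) ∧ ∀ β ∈ q.D, ∃ n, ∃ α ∈ (p n).D, β ≤ α := by
  classical
  let D0 : Set K := ⋃ n, (p n).D
  let c : K → Set K := fun α => {β | ∃ n, α ∈ (p n).D ∧ β ∈ (p n).C α}
  have mem0 : ∀ α, α ∈ D0 ↔ ∃ n, α ∈ (p n).D := fun α => by simp [D0]
  have hD2 : ∀ {α α' : K}, α ∈ D0 → α' ∈ D0 → ∃ n, α ∈ (p n).D ∧ α' ∈ (p n).D := by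
    intro α α' h h'
    obtain ⟨n, hn⟩ := (mem0 _).1 h
    obtain ⟨m, hm⟩ := (mem0 _).1 h'
    refine ⟨max n m, (hp n _ (le_max_left _ _)).1 hn, (hp m _ (le_max_right _ _)).1 hm⟩
  -- comparison of `c α` with the values of the `p n`
  have hc_ext : ∀ n, ∀ α ∈ (p n).D, EndExt ((p n).C α) (c α) := by
    intro n α hα
    refine ⟨fun β hβ => ⟨n, hα, hβ⟩, ?_⟩
    rintro β ⟨m, hm, hβ⟩
    rcases le_total m n with h | h
    · exact Or.inl (((hp m n h).2 α hm).1 hβ)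
    · exact ((hp n m h).2 α hα).2 β hβ
  have hc_lt : ∀ α, ∀ β ∈ c α, β < α := by
    rintro α β ⟨n, hn, hβ⟩; exact (p n).sub α hn β hβ
  have hc_ct : ∀ α, (c α).Countable := by
    intro α
    have : c α ⊆ ⋃ n, (if α ∈ (p n).D then (p n).C α else ∅) := by
      rintro β ⟨n, hn, hβ⟩
      exact mem_iUnion.2 ⟨n, by rw [if_pos hn]; exact hβ⟩
    refine (countable_iUnion fun n => ?_).mono this
    by_cases h : α ∈ (p n).D
    · rw [if_pos h]; exact (p n).ctC α h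
    · rw [if_neg h]; exact countable_empty
  -- the two kinds of points of `D0`
  have hcc : ∀ α ∈ D0, CC α → Unb (c α) α := by
    intro α hα hcc
    obtain ⟨n, hn⟩ := (mem0 α).1 hα
    rcases (p n).top α hn with h | h
    · exact h.2.mono fun w hw _ => ⟨n, hn, hw⟩
    · exact absurd hcc h.1
  have hncc : ∀ α ∈ D0, ¬ CC α → ∃ δ < α, IsLUB (c α) δ ∧ ∀ β ∈ D0, β < α → β ≤ δ := by
    intro α hα hcc
    obtain ⟨n, hn⟩ := (mem0 α).1 hα
    obtain ⟨z, hz, hz2⟩ := exists_bound ((p n).limD α hn) hcc (hc_ct α)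
    have hbdd : BddAbove (c α) := ⟨z, fun w hw => (hz2 w hw (hc_lt α w hw)).le⟩
    have hne : (c α).Nonempty := by
      rcases (p n).top α hn with h | h
      · exact absurd h.1 hcc
      · obtain ⟨m, hm, -⟩ := h.2
        exact ⟨m, n, hn, hm⟩
    refine ⟨sSup (c α), ?_, isLUB_csSup hne hbdd, ?_⟩
    · exact (csSup_le hne fun w hw => (hz2 w hw (hc_lt α w hw)).le).trans_lt hz
    · intro β hβ hβα
      obtain ⟨k, hk1, hk2⟩ := hD2 hα hβ
      rcases (p k).top α hk1 with h | h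
      · exact absurd h.1 hcc
      · obtain ⟨m, hm, -, hm3⟩ := h.2
        exact (hm3 β hk2 hβα).trans (le_csSup hbdd ⟨k, hk1, hm⟩)
  -- a bounded `c α` belongs to uncountable cofinality
  have hlub_ncc : ∀ α ∈ D0, ∀ δ < α, IsLUB (c α) δ → ¬ CC α := by
    intro α hα δ hδ hlub h
    exact absurd ((hcc α hα h).lub fun x hx _ => hlub.1 hx) (not_le.2 hδ)
  -- uniqueness of the ordinal whose value has supremum `δ`
  have huniq : ∀ α ∈ D0, ∀ α' ∈ D0, ∀ δ, δ < α → δ < α' → IsLUB (c α) δ → IsLUB (c α') δ →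
      α = α' := by
    have h0 : ∀ α ∈ D0, ∀ α' ∈ D0, ∀ δ, δ < α → δ < α' → IsLUB (c α') δ → ¬ α < α' := by
      intro α hα α' hα' δ h1 h2 h4 h5
      obtain ⟨δ', _, hlub, hδ'⟩ := hncc α' hα' (hlub_ncc α' hα' δ h2 h4)
      have : δ' = δ := hlub.unique h4
      exact absurd ((hδ' α hα h5).trans_eq this) (not_le.2 h1)
    intro α hα α' hα' δ h1 h2 h3 h4
    rcases lt_trichotomy α α' with h | h | h
    · exact absurd h (h0 α hα α' hα' δ h1 h2 h4)
    · exact h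
    · exact absurd h (h0 α' hα' α hα δ h2 h1 h3)
  -- `L1`: initial segments of `c α`
  have L1 : ∀ α ∈ D0, ∀ u ∈ c α, ∃ n, α ∈ (p n).D ∧ u ∈ (p n).C α ∧
      ∀ w, w ≤ u → (w ∈ c α ↔ w ∈ (p n).C α) := by
    rintro α hα u ⟨n, hn, hu⟩
    exact ⟨n, hn, hu, fun w hw => (hc_ext n α hn).mem_iff hu hw⟩
  have closed0 : ∀ α ∈ D0, ∀ β, Lim β → Unb (c α) β → (∃ u ∈ c α, β < u) → β ∈ c α := by
    rintro α hα β hβ hu ⟨u, hu1, hu2⟩
    obtain ⟨n, hn, hn1, hn2⟩ := L1 α hα u hu1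
    refine ⟨n, hn, (p n).closed α hn β (hu2.trans (hc_lt α u hu1)) hβ ?_⟩
    exact hu.mono fun w hw hwβ => (hn2 w (hwβ.trans hu2).le).1 hw
  have coh0 : ∀ α ∈ D0, ∀ β ∈ c α, Lim β → Unb (c α) β →
      β ∈ D0 ∧ CC β ∧ ∀ z, z ∈ c β ↔ z ∈ c α ∧ z < β := by
    intro α hα β hβ hlim hu
    obtain ⟨n, hn, hn1, hn2⟩ := L1 α hα β hβ
    have hun : Unb ((p n).C α) β := hu.mono fun w hw hwβ => (hn2 w hwβ.le).1 hw
    obtain ⟨h1, h2⟩ := (p n).coh α hn β hn1 hlim hun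
    have hβ0 : β ∈ D0 := (mem0 β).2 ⟨n, h1⟩
    have hunβ : Unb ((p n).C β) β := hun.mono fun w hw hwβ => (h2 w).2 ⟨hw, hwβ⟩
    refine ⟨hβ0, ⟨(p n).C β, (p n).ctC β h1, hunβ⟩, fun z => ?_⟩
    have h3 : z ∈ c β ↔ z ∈ (p n).C β := by
      refine ⟨fun hz => ?_, fun hz => ⟨n, h1, hz⟩⟩
      rcases (hc_ext n β h1).2 z hz with h | h
      · exact h
      · obtain ⟨w, hw, -, hw2⟩ := hunβ z (hc_lt β z hz)
        exact absurd (h w hw) (not_lt.2 hw2.le)
    rw [h3, h2]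
    exact and_congr_left fun hz => (hn2 z hz.le).symm
  -- the lower bound
  let N : Set K := {δ | δ ∉ D0 ∧ ∃ α ∈ D0, δ < α ∧ IsLUB (c α) δ ∧ δ ∉ c α}
  let C : K → Set K := fun α => {β | (α ∈ D0 ∧ (β ∈ c α ∨ (β < α ∧ IsLUB (c α) β))) ∨
    (α ∉ D0 ∧ ∃ α' ∈ D0, α < α' ∧ IsLUB (c α') α ∧ β ∈ c α')}
  have hC0 : ∀ α ∈ D0, ∀ β, β ∈ C α ↔ (β ∈ c α ∨ (β < α ∧ IsLUB (c α) β)) := by
    intro α hα β
    simp only [C, mem_ofPred_eq]
    tauto
  have hCN : ∀ α ∉ D0, ∀ α' ∈ D0, α < α' → IsLUB (c α') α → ∀ β, β ∈ C α ↔ β ∈ c α' := by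
    intro α hα α' hα' h1 h2 β
    simp only [C, mem_ofPred_eq]
    constructor
    · rintro (h | ⟨-, α'', h3, h4, h5, h6⟩)
      · exact absurd h.1 hα
      · rw [huniq α' hα' α'' h3 α h1 h4 h2 h5]; exact h6
    · intro h
      exact Or.inr ⟨hα, α', hα', h1, h2, h⟩
  have hlubnew : ∀ α ∈ D0, ∀ δ < α, IsLUB (c α) δ → δ ∉ c α → δ ∉ D0 := by
    intro α hα δ hδ hlub hδc hδ0
    obtain ⟨n, hn1, hn2⟩ := hD2 hα hδ0
    rcases (p n).top α hn1 with h | h
    · exact hlub_ncc α hα δ hδ hlub h.1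
    · obtain ⟨m, hm, -, hm3⟩ := h.2
      have h1 : δ ≤ m := hm3 δ hn2 hδ
      have h2 : m ≤ δ := hlub.1 ⟨n, hn1, hm⟩
      have : m = δ := le_antisymm h2 h1
      subst this
      exact hδc ⟨n, hn1, hm⟩
  have hlubUnb : ∀ α ∈ D0, ∀ δ < α, IsLUB (c α) δ → δ ∉ c α → Unb (c α) δ := by
    intro α hα δ hδ hlub hδc z hz
    obtain ⟨w, hw, hzw⟩ := (lt_isLUB_iff hlub).1 hz
    exact ⟨w, hw, lt_of_le_of_ne (hlub.1 hw) (fun h => hδc (h ▸ hw)), hzw⟩
  have hNne : ∀ α ∈ D0, ∀ δ < α, IsLUB (c α) δ → (c α).Nonempty := by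
    intro α hα δ hδ hlub
    obtain ⟨n, hn⟩ := (mem0 α).1 hα
    rcases (p n).top α hn with h | h
    · exact absurd h.1 (hlub_ncc α hα δ hδ hlub)
    · obtain ⟨m, hm, -⟩ := h.2
      exact ⟨m, n, hn, hm⟩
  have hNlim : ∀ α ∈ D0, ∀ δ < α, IsLUB (c α) δ → δ ∉ c α → Lim δ := by
    intro α hα δ hδ hlub hδc
    constructor
    · obtain ⟨w, hw⟩ := hNne α hα δ hδ hlub
      exact ⟨w, lt_of_le_of_ne (hlub.1 hw) (fun h => hδc (h ▸ hw))⟩
    · intro z hz
      obtain ⟨w, -, hw1, hw2⟩ := hlubUnb α hα δ hδ hlub hδc z hz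
      exact ⟨w, hw1, hw2⟩
  refine ⟨{ D := D0 ∪ N, C := C, ctD := ?_, limD := ?_, ctC := ?_, sub := ?_, closed := ?_,
            coh := ?_, top := ?_ }, fun n => ⟨?_, ?_⟩, ?_⟩
  · -- countable domain
    have h0 : D0.Countable := countable_iUnion fun n => (p n).ctD
    refine h0.union ?_
    refine (h0.image fun α => sSup (c α)).mono ?_
    rintro δ ⟨-, α, hα, hδ, hlub, -⟩
    exact ⟨α, hα, hlub.csSup_eq (hNne α hα δ hδ hlub)⟩
  · rintro α (hα | ⟨-, α', hα', h1, h2, h3⟩)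
    · obtain ⟨n, hn⟩ := (mem0 α).1 hα
      exact (p n).limD α hn
    · exact hNlim α' hα' α h1 h2 h3
  · rintro α (hα | ⟨h0, α', hα', h1, h2, h3⟩)
    · have : C α ⊆ c α ∪ {sSup (c α)} := by
        intro β hβ
        rcases (hC0 α hα β).1 hβ with h | h
        · exact Or.inl h
        · exact Or.inr (h.2.csSup_eq (hNne α hα β h.1 h.2)).symm
      exact ((hc_ct α).union (countable_singleton _)).mono this
    · refine (hc_ct α').mono fun β hβ => (hCN α h0 α' hα' h1 h2 β).1 hβ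
  · rintro α (hα | ⟨h0, α', hα', h1, h2, h3⟩) β hβ
    · rcases (hC0 α hα β).1 hβ with h | h
      · exact hc_lt α β h
      · exact h.1
    · have hβ' := (hCN α h0 α' hα' h1 h2 β).1 hβ
      exact lt_of_le_of_ne (h2.1 hβ') (fun h => h3 (h ▸ hβ'))
  · rintro α (hα | ⟨h0, α', hα', h1, h2, h3⟩) β hβα hlim hu
    · by_cases hcα : CC α
      · -- value is final
        have hCc : ∀ z, z ∈ C α ↔ z ∈ c α := by
          intro z
          rw [hC0 α hα z]
          refine ⟨fun h => h.elim id fun h => absurd hcα (hlub_ncc α hα z h.1 h.2), Or.inl⟩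
        rw [hCc]
        refine closed0 α hα β hlim (hu.mono fun w hw _ => (hCc w).1 hw) ?_
        obtain ⟨w, hw, -, hw2⟩ := hcc α hα hcα β hβα
        exact ⟨w, hw, hw2⟩
      · obtain ⟨δ, hδ, hlub, -⟩ := hncc α hα hcα
        have hβδ : β ≤ δ := hu.lub fun x hx _ => by
          rcases (hC0 α hα x).1 hx with h | h
          · exact hlub.1 h
          · exact le_of_eq (h.2.unique hlub)
        rcases hβδ.eq_or_lt with h | h
        · exact (hC0 α hα β).2 (Or.inr ⟨hβα, h ▸ hlub⟩)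
        · refine (hC0 α hα β).2 (Or.inl (closed0 α hα β hlim (hu.mono fun w hw hwβ => ?_) ?_))
          · rcases (hC0 α hα w).1 hw with h' | h'
            · exact h'
            · rw [h'.2.unique hlub] at hwβ
              exact absurd (hwβ.trans h) (lt_irrefl _)
          · obtain ⟨w, hw, hw2⟩ := (lt_isLUB_iff hlub).1 h
            exact ⟨w, hw, hw2⟩
    · rw [hCN α h0 α' hα' h1 h2]
      refine closed0 α' hα' β hlim (hu.mono fun w hw _ => (hCN α h0 α' hα' h1 h2 w).1 hw) ?_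
      obtain ⟨w, hw, hw2⟩ := (lt_isLUB_iff h2).1 hβα
      exact ⟨w, hw, hw2⟩
  · rintro α (hα | ⟨h0, α', hα', h1, h2, h3⟩) β hβ hlim hu
    · rcases (hC0 α hα β).1 hβ with hβc | ⟨hβα, hlub⟩
      · -- an old point
        have hsmall : ∀ w, w < β → (w ∈ C α ↔ w ∈ c α) := by
          intro w hw
          rw [hC0 α hα w]
          refine ⟨fun h => h.elim id fun h => ?_, Or.inl⟩
          exact absurd (h.2.1 hβc) (not_le.2 hw)
        obtain ⟨g1, g2, g3⟩ := coh0 α hα β hβc hlim (hu.mono fun w hw hwβ => (hsmall w hwβ).1 hw)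
        refine ⟨Or.inl g1, fun z => ?_⟩
        rw [hC0 β g1 z]
        constructor
        · rintro (h | h)
          · have := (g3 z).1 h
            exact ⟨(hsmall z this.2).2 this.1, this.2⟩
          · exact absurd g2 (hlub_ncc β g1 z h.1 h.2)
        · rintro ⟨h, h'⟩
          exact Or.inl ((g3 z).2 ⟨(hsmall z h').1 h, h'⟩)
      · by_cases hβc : β ∈ c α
        · have hsmall : ∀ w, w < β → (w ∈ C α ↔ w ∈ c α) := by
            intro w hw
            rw [hC0 α hα w]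
            refine ⟨fun h => h.elim id fun h => ?_, Or.inl⟩
            exact absurd (h.2.1 hβc) (not_le.2 hw)
          obtain ⟨g1, g2, g3⟩ :=
            coh0 α hα β hβc hlim (hu.mono fun w hw hwβ => (hsmall w hwβ).1 hw)
          refine ⟨Or.inl g1, fun z => ?_⟩
          rw [hC0 β g1 z]
          constructor
          · rintro (h | h)
            · have := (g3 z).1 h
              exact ⟨(hsmall z this.2).2 this.1, this.2⟩
            · exact absurd g2 (hlub_ncc β g1 z h.1 h.2)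
          · rintro ⟨h, h'⟩
            exact Or.inl ((g3 z).2 ⟨(hsmall z h').1 h, h'⟩)
        · have hβ0 := hlubnew α hα β hβα hlub hβc
          refine ⟨Or.inr ⟨hβ0, α, hα, hβα, hlub, hβc⟩, fun z => ?_⟩
          rw [hCN β hβ0 α hα hβα hlub z, hC0 α hα z]
          constructor
          · intro hz
            exact ⟨Or.inl hz, lt_of_le_of_ne (hlub.1 hz) (fun h => hβc (h ▸ hz))⟩
          · rintro ⟨h | h, hz⟩
            · exact h
            · exact absurd (h.2.unique hlub) (ne_of_lt hz)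
    · rw [hCN α h0 α' hα' h1 h2] at hβ
      have hu' : Unb (c α') β := hu.mono fun w hw _ => (hCN α h0 α' hα' h1 h2 w).1 hw
      obtain ⟨g1, g2, g3⟩ := coh0 α' hα' β hβ hlim hu'
      refine ⟨Or.inl g1, fun z => ?_⟩
      rw [hC0 β g1 z, hCN α h0 α' hα' h1 h2 z, ← g3 z]
      refine ⟨fun h => h.elim id fun h => absurd g2 (hlub_ncc β g1 z h.1 h.2), Or.inl⟩
  · rintro α (hα | ⟨h0, α', hα', h1, h2, h3⟩)
    · by_cases hcα : CC α
      · refine Or.inl ⟨hcα, (hcc α hα hcα).mono fun w hw _ => (hC0 α hα w).2 (Or.inl hw)⟩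
      · obtain ⟨δ, hδ, hlub, hδ2⟩ := hncc α hα hcα
        refine Or.inr ⟨hcα, δ, (hC0 α hα δ).2 (Or.inr ⟨hδ, hlub⟩), fun β hβ => ?_, ?_⟩
        · rcases (hC0 α hα β).1 hβ with h | h
          · exact hlub.1 h
          · exact le_of_eq (h.2.unique hlub)
        · rintro β (hβ | ⟨hβ0, α'', hα'', g1, g2, g3⟩) hβα
          · exact hδ2 β hβ hβα
          · rcases lt_trichotomy α'' α with h | h | h
            · exact (g1.le).trans (hδ2 α'' hα'' h)
            · subst h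
              exact le_of_eq (g2.unique hlub)
            · obtain ⟨δ', -, hlub', hδ'⟩ := hncc α'' hα'' (hlub_ncc α'' hα'' β g1 g2)
              have e : δ' = β := hlub'.unique g2
              exact absurd ((hδ' α hα h).trans_eq e) (not_le.2 hβα)
    · have hu : Unb (C α) α := (hlubUnb α' hα' α h1 h2 h3).mono fun w hw _ =>
        (hCN α h0 α' hα' h1 h2 w).2 hw
      exact Or.inl ⟨⟨c α', hc_ct α', hlubUnb α' hα' α h1 h2 h3⟩, hu⟩
  · exact fun α hα => Or.inl ((mem0 α).2 ⟨n, hα⟩)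
  · intro α hα
    have hα0 : α ∈ D0 := (mem0 α).2 ⟨n, hα⟩
    refine ⟨fun β hβ => (hC0 α hα0 β).2 (Or.inl ⟨n, hα, hβ⟩), fun β hβ => ?_⟩
    rcases (hC0 α hα0 β).1 hβ with h | h
    · exact (hc_ext n α hα).2 β h
    · by_cases hβc : β ∈ c α
      · exact (hc_ext n α hα).2 β hβc
      · refine Or.inr fun γ hγ => ?_
        have hγc : γ ∈ c α := ⟨n, hα, hγ⟩
        exact lt_of_le_of_ne (h.2.1 hγc) (fun e => hβc (e ▸ hγc))
  · rintro β (hβ | ⟨-, α, hα, h1, -, -⟩)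
    · obtain ⟨n, hn⟩ := (mem0 β).1 hβ
      exact ⟨n, β, hn, le_rfl⟩
    · obtain ⟨n, hn⟩ := (mem0 α).1 hα
      exact ⟨n, α, hn, h1.le⟩

/-- **Adding a new top value.** -/
theorem Cond1.add_top (p : Cond1) (δ : K) (c : Set K) (hδ : Lim δ) (hp : ∀ α ∈ p.D, α < δ)
    (hct : c.Countable) (hlt : ∀ β ∈ c, β < δ) (hu : Unb c δ)
    (hc : ∀ β < δ, Lim β → Unb c β → β ∈ c ∧ β ∈ p.D ∧ ∀ z, z ∈ p.C β ↔ z ∈ c ∧ z < β) :
    ∃ q : Cond1, q ≤ p ∧ q.D = insert δ p.D ∧ q.C δ = c := by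
  classical
  have hδp : δ ∉ p.D := fun h => absurd (hp δ h) (lt_irrefl _)
  let C : K → Set K := fun α => if α = δ then c else p.C α
  have hC1 : C δ = c := if_pos rfl
  have hC2 : ∀ α ∈ p.D, C α = p.C α := fun α hα =>
    if_neg (fun h : α = δ => hδp (h ▸ hα))
  refine ⟨{ D := insert δ p.D, C := C, ctD := p.ctD.insert δ, limD := ?_, ctC := ?_, sub := ?_,
            closed := ?_, coh := ?_, top := ?_ }, ⟨subset_insert _ _, ?_⟩, rfl, hC1⟩
  · rintro α (rfl | hα)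
    · exact hδ
    · exact p.limD α hα
  · rintro α (rfl | hα)
    · rw [hC1]; exact hct
    · rw [hC2 α hα]; exact p.ctC α hα
  · rintro α (rfl | hα)
    · rw [hC1]; exact hlt
    · rw [hC2 α hα]; exact p.sub α hα
  · rintro α (rfl | hα)
    · rw [hC1]; exact fun β hβ hlim hu => (hc β hβ hlim hu).1
    · rw [hC2 α hα]; exact p.closed α hα
  · rintro α (rfl | hα)
    · rw [hC1]
      intro β hβ hlim hu
      obtain ⟨-, h2, h3⟩ := hc β (hlt β hβ) hlim hu
      rw [hC2 β h2]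
      exact ⟨Or.inr h2, h3⟩
    · rw [hC2 α hα]
      intro β hβ hlim hu
      obtain ⟨h2, h3⟩ := p.coh α hα β hβ hlim hu
      rw [hC2 β h2]
      exact ⟨Or.inr h2, h3⟩
  · rintro α (rfl | hα)
    · rw [hC1]; exact Or.inl ⟨⟨c, hct, hu⟩, hu⟩
    · rw [hC2 α hα]
      rcases p.top α hα with h | ⟨h1, m, hm1, hm2, hm3⟩
      · exact Or.inl h
      · refine Or.inr ⟨h1, m, hm1, hm2, ?_⟩
        rintro β (rfl | hβ) hβα
        · exact absurd (hβα.trans (hp α hα)) (lt_irrefl _)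
        · exact hm3 β hβ hβα
  · intro α hα
    change EndExt (p.C α) (C α)
    rw [hC2 α hα]
    exact EndExt.refl _

end H85.Forcing
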