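import Pool.Agent.H85.Forcing.SqForced

/-!
# The generic sequence is a square sequence
-/

open Set Ordinal Cardinal

namespace H85.Forcing
open BN RO

theorem Cond.exists_dec (p : Cond) {α β : K} (hα : Lim α) (hβ : β < α) :
    ∃ q, q ≤ p ∧ α ∈ q.1.D ∧ ∃ u ∈ q.1.C α, β < u := by
  obtain ⟨q, hq, h1, h2⟩ := p.1.exists_dec hα hβ
  exact ⟨(q, p.2), ⟨hq, le_rfl⟩, h1, h2⟩

theorem forces_unbIn {c : Nm} {α β : K} {p : Cond} :
    p ∈ unbInB (kapN K) c (ordN α) (ordN β) ↔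
      ∀ z < β, ∀ q ≤ p, ∃ r ≤ q, ∃ w < β, r ∈ rel c (ordN α) (ordN w) ∧ z < w := by
  unfold unbInB inCB
  simp only [forces_ball_ordN, forces_bex_ordN, forces_inf, forces_mem_kapN,
    forces_mem_ordN, true_and]

theorem unb_dec {p : Cond} {α β u : K} (hα : α ∈ p.1.D) (hu : u ∈ p.1.C α) (hβ : β ≤ u) :
    p ∈ unbInB (kapN K) sqN (ordN α) (ordN β) ↔ Unb (p.1.C α) β := by
  rw [forces_unbIn]
  constructor
  · intro h z hz
    obtain ⟨r, hr, w, hw, h1, h2⟩ := h z hz p le_rfl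
    rw [sqN, rel_relN] at h1
    exact ⟨w, (sqR_dec hr hα hu (hw.trans_le hβ).le).1 h1, hw, h2⟩
  · intro h z hz q hq
    obtain ⟨w, hw, hw1, hw2⟩ := h z hz
    refine ⟨q, le_rfl, w, hw1, ?_, hw2⟩
    rw [sqN, rel_relN]
    exact (sqR_of_mem hα hw).down hq

/-- in the case of uncountable cofinality the order type becomes `ω₁` -/
theorem exists_rank {α : K} (hα : Lim α) (hc : ¬ CC α) (i : K) (hi : i < ω₁) :
    ∀ p : Cond, ∃ q ≤ p, α ∈ q.1.D ∧ ∃ y ∈ q.1.C α, rk (q.1.C α) y = i := by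
  induction i using WellFoundedLT.induction with
  | ind i ih =>
    intro p
    have : Countable (Iio i) := (countable_Iio_of_lt hi).to_subtype
    obtain ⟨q, hq, hT⟩ := Cond.exists_tasks (ι := Iio i) p
      (fun j q => α ∈ q.1.D ∧ ∃ y ∈ q.1.C α, rk (q.1.C α) y = j.1)
      (fun j q r hrq h => by
        obtain ⟨h1, y, hy, h2⟩ := h
        refine ⟨hrq.1.1 h1, y, (hrq.1.2 α h1).1 hy, ?_⟩
        rw [← h2]
        exact rk_congr y fun γ hγ => (hrq.1.2 α h1).mem_iff hy hγ.le)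
      (fun j q hq => ih j.1 j.2 (lt_trans j.2 hi) q)
    choose h1 y hy hy2 using hT
    obtain ⟨z, hz, hz2⟩ := exists_bound hα hc (countable_range y)
    obtain ⟨r, hr, hr1, u, hu, hzu⟩ := q.exists_dec hα hz
    refine ⟨r, hr.trans hq, hr1, ?_⟩
    have hle : i ≤ rk (r.1.C α) u := by
      by_contra hlt
      rw [not_le] at hlt
      have hj : y ⟨_, hlt⟩ ∈ q.1.C α := hy ⟨_, hlt⟩
      have hjα : y ⟨_, hlt⟩ < α := q.1.sub α (h1 ⟨_, hlt⟩) _ hj
      have h3 : y ⟨_, hlt⟩ < u := (hz2 _ ⟨_, rfl⟩ hjα).trans hzu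
      have h4 : y ⟨_, hlt⟩ ∈ r.1.C α := (hr.1.2 α (h1 ⟨_, hlt⟩)).1 hj
      have h5 := rk_lt h3 h4
      have h6 : rk (r.1.C α) (y ⟨_, hlt⟩) = rk (q.1.C α) (y ⟨_, hlt⟩) :=
        rk_congr _ fun γ hγ => (hr.1.2 α (h1 ⟨_, hlt⟩)).mem_iff hj hγ.le
      rw [h6, hy2 ⟨_, hlt⟩] at h5
      exact lt_irrefl _ h5
    rcases hle.eq_or_lt with h | h
    · exact ⟨u, hu, h.symm⟩
    · obtain ⟨γ, hγ, -, h'⟩ := exists_rk u i h
      exact ⟨γ, hγ, h'⟩

/-- the name of the enumeration of `C_α` -/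
def enR (α i y : K) : RO Cond :=
  regl fun s => α ∈ s.1.D ∧ y ∈ s.1.C α ∧ rk (s.1.C α) y = i

theorem forces_enR {p : Cond} {α i y : K} : p ∈ enR α i y ↔
    ∀ q ≤ p, ∃ r ≤ q, α ∈ r.1.D ∧ y ∈ r.1.C α ∧ rk (r.1.C α) y = i := by
  unfold enR
  rw [forces_regl]
  constructor
  · intro h q hq
    obtain ⟨r, hr, s, hs, hrs⟩ := h q hq
    refine ⟨r, hr, hrs.1.1 hs.1, (hrs.1.2 α hs.1).1 hs.2.1, ?_⟩
    rw [← hs.2.2]
    exact rk_congr y fun γ hγ => (hrs.1.2 α hs.1).mem_iff hs.2.1 hγ.le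
  · intro h q hq
    obtain ⟨r, hr, hr2⟩ := h q hq
    exact ⟨r, hr, r, hr2, le_rfl⟩

theorem enR_of {p : Cond} {α i y : K} (h1 : α ∈ p.1.D) (h2 : y ∈ p.1.C α)
    (h3 : rk (p.1.C α) y = i) : p ∈ enR α i y := by
  rw [forces_enR]
  intro q hq
  refine ⟨q, le_rfl, hq.1.1 h1, (hq.1.2 α h1).1 h2, ?_⟩
  rw [← h3]
  exact rk_congr y fun γ hγ => (hq.1.2 α h1).mem_iff h2 hγ.le

theorem forces_isEnum_sq {p : Cond} {α k : K} 
    (h1 : ∀ i < k, ∀ q ≤ p, ∃ r ≤ q, α ∈ r.1.D ∧ ∃ y ∈ r.1.C α, rk (r.1.C α) y = i)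
    (h2 : ∀ r ≤ p, α ∈ r.1.D → ∀ y ∈ r.1.C α, rk (r.1.C α) y < k) :
    p ∈ isEnumB (kapN K) sqN (ordN α) (ordN k) (relN (enR α)) := by
  rw [forces_isEnum]
  refine ⟨?_, ?_, ?_⟩
  · intro i hi q hq
    obtain ⟨r, hr, hα, y, hy, hyi⟩ := h1 i hi q hq
    refine ⟨r, hr, y, ?_, enR_of hα hy hyi⟩
    rw [sqN, rel_relN]
    exact sqR_of_mem hα hy
  · intro y q hq hy q' hq'
    rw [sqN, rel_relN] at hy
    obtain ⟨r, hr, hα, hyr⟩ := forces_sqR.1 hy q' hq'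
    exact ⟨r, hr, _, h2 r (hr.trans (hq'.trans hq)) hα y hyr, enR_of hα hyr rfl⟩
  · intro i _ j _ y q _ hy z r hr hz
    obtain ⟨s, hs, g1, g2, g3⟩ := forces_enR.1 hy r hr
    obtain ⟨t, ht, k1, k2, k3⟩ := forces_enR.1 hz s hs
    have g2' : y ∈ t.1.C α := (ht.1.2 α g1).1 g2
    have g3' : rk (t.1.C α) y = i := by
      rw [← g3]
      exact rk_congr y fun γ hγ => (ht.1.2 α g1).mem_iff g2 hγ.le
    rcases lt_trichotomy y z with h | h | h
    · have := rk_lt h g2'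
      rw [g3', k3] at this
      exact ⟨fun e => absurd (e ▸ this) (lt_irrefl _), fun _ => h⟩
    · subst h
      have e : i = j := g3'.symm.trans k3
      exact ⟨fun _ => rfl, fun h => absurd (e ▸ h) (lt_irrefl _)⟩
    · have := rk_lt h k2
      rw [g3', k3] at this
      exact ⟨fun e => absurd (e ▸ this) (lt_irrefl _), fun h => absurd (h.trans this) (lt_irrefl _)⟩

theorem forces_otp (p : Cond) {α : K} (hα : Lim α) :
    p ∈ ⨆ θ, ⨆ e, (mem θ (ordN (ω₁ : K)) ⊔ beq θ (ordN ω₁)) ⊓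
      isEnumB (kapN K) sqN (ordN α) θ e := by
  refine forces_of_dense fun q hq => ?_
  obtain ⟨z, hz⟩ := hα.1
  obtain ⟨r, hr, hαr, -⟩ := q.exists_dec hα hz
  refine ⟨r, hr, ?_⟩
  by_cases hc : CC α
  · have hunb : Unb (r.1.C α) α := by
      rcases r.1.top α hαr with h | h
      · exact h.2
      · exact absurd hc h.1
    have hfin : ∀ s ≤ r, ∀ y, y ∈ s.1.C α ↔ y ∈ r.1.C α := fun s hs y =>
      Cond1.final hs.1 hαr hunb
    have hrk : ∀ s ≤ r, ∀ y, rk (s.1.C α) y = rk (r.1.C α) y := fun s hs y =>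
      rk_congr y fun γ _ => hfin s hs γ
    refine forces_iSup_of (ordN (rk (r.1.C α) α)) (forces_iSup_of (relN (enR α)) ⟨?_, ?_⟩)
    · refine Forces.mono ?_ le_sup_left
      exact forces_mem_ordN.2 (rk_lt_omega1 (r.1.ctC α hαr) α)
    · refine forces_isEnum_sq ?_ ?_
      · intro i hi s hs
        obtain ⟨y, hy, -, hyi⟩ := exists_rk α i hi
        exact ⟨s, le_rfl, hs.1.1 hαr, y, (hfin s hs y).2 hy, (hrk s hs y).trans hyi⟩
      · intro s hs _ y hy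
        rw [hrk s hs y]
        exact rk_lt (r.1.sub α hαr y ((hfin s hs y).1 hy)) ((hfin s hs y).1 hy)
  · refine forces_iSup_of (ordN ω₁) (forces_iSup_of (relN (enR α)) ⟨?_, ?_⟩)
    · refine Forces.mono ?_ le_sup_right
      exact forces_beq_ordN.2 rfl
    · refine forces_isEnum_sq ?_ ?_
      · intro i hi s _
        exact exists_rank hα hc i hi s
      · intro s _ hαs y _
        exact rk_lt_omega1 (s.1.ctC α hαs) y

theorem forces_coh (p : Cond) {α : K} (y : K) (h1 : p ∈ rel sqN (ordN α) (ordN y))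
    (h2 : p ∈ unbInB (kapN K) sqN (ordN α) (ordN y)) (z : K) :
    p ∈ rel sqN (ordN y) (ordN z) ↔ p ∈ rel sqN (ordN α) (ordN z) ∧ z < y := by
  rw [sqN, rel_relN] at h1
  rw [sqN, rel_relN, rel_relN]
  have hU : ∀ q ≤ p, α ∈ q.1.D → y ∈ q.1.C α → Unb (q.1.C α) y := by
    intro q hq hα hy
    exact (unb_dec hα hy le_rfl).1 (h2.down hq)
  have key : ∀ q ≤ p, α ∈ q.1.D → y ∈ q.1.C α → ∀ z, (q ∈ sqR y z ↔ q ∈ sqR α z ∧ z < y) := by
    intro q hq hα hy z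
    have hun := hU q hq hα hy
    by_cases hlim : Lim y
    · obtain ⟨g1, g2⟩ := q.1.coh α hα y hy hlim hun
      have hun' : Unb (q.1.C y) y := hun.mono fun w hw hwy => (g2 w).2 ⟨hw, hwy⟩
      rw [sqR_dec' le_rfl g1 hun', g2 z]
      refine and_congr_left fun hz => ?_
      rw [sqR_dec le_rfl hα hy hz.le]
    · have h0 : ∀ β, ¬ β < y := by
        intro β hβ
        apply hlim
        refine ⟨⟨β, hβ⟩, fun γ hγ => ?_⟩
        obtain ⟨w, -, hw1, hw2⟩ := hun γ hγ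
        exact ⟨w, hw1, hw2⟩
      constructor
      · intro h
        obtain ⟨r, hr, hyr, -⟩ := forces_sqR.1 h q le_rfl
        exact absurd (r.1.limD y hyr) hlim
      · intro h
        exact absurd h.2 (h0 z)
  constructor
  · intro h
    have hd : ∀ q ≤ p, ∃ r ≤ q, r ∈ sqR α z ∧ z < y := by
      intro q hq
      obtain ⟨r, hr, g1, g2⟩ := forces_sqR.1 h1 q hq
      exact ⟨r, hr, (key r (hr.trans hq) g1 g2 z).1 (h.down (hr.trans hq))⟩
    refine ⟨forces_of_dense fun q hq => ?_, ?_⟩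
    · obtain ⟨r, hr, g, -⟩ := hd q hq
      exact ⟨r, hr, g⟩
    · obtain ⟨r, hr, -, g⟩ := hd p le_rfl
      exact g
  · rintro ⟨h, hz⟩
    refine forces_of_dense fun q hq => ?_
    obtain ⟨r, hr, g1, g2⟩ := forces_sqR.1 h1 q hq
    exact ⟨r, hr, (key r (hr.trans hq) g1 g2 z).2 ⟨h.down (hr.trans hq), hz⟩⟩

theorem forces_isSquareSeq (p : Cond) : p ∈ isSquareSeqB (ordN (ω₁ : K)) (kapN K) sqN := by
  unfold isSquareSeqB
  simp only [forces_ball_kapN]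
  intro α
  rw [forces_himp]
  intro q _ hα
  rw [forces_isLimB] at hα
  have hα : Lim α := hα
  refine ⟨?_, ?_, ?_, forces_otp q hα, ?_⟩
  · change q ∈ ⨅ y, inCB (kapN K) sqN (ordN α) y ⇨ mem y (ordN α)
    simp only [forces_ballC, forces_himp, forces_mem_ordN, sqN, rel_relN]
    intro y r _ hy
    obtain ⟨s, _, h1, h2⟩ := forces_sqR.1 hy r le_rfl
    exact s.1.sub α h1 y h2
  · change q ∈ unbInB (kapN K) sqN (ordN α) (ordN α)
    rw [forces_unbIn]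
    intro z hz r _
    obtain ⟨s, hs, h1, u, hu, hzu⟩ := r.exists_dec hα hz
    refine ⟨s, hs, u, s.1.sub α h1 u hu, ?_, hzu⟩
    rw [sqN, rel_relN]
    exact sqR_of_mem h1 hu
  · change q ∈ ⨅ y, mem y (ordN α) ⇨ (isLimB y ⇨ (unbInB (kapN K) sqN (ordN α) y ⇨
      inCB (kapN K) sqN (ordN α) y))
    simp only [forces_ball_ordN, forces_himp, forces_isLimB]
    intro y hy r _ hlim s hs hu
    refine ⟨forces_mem_kapN.2 trivial, ?_⟩
    change s ∈ rel sqN (ordN α) (ordN y)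
    rw [sqN, rel_relN]
    refine forces_of_dense fun t ht => ?_
    obtain ⟨t1, ht1, g1, u, hu1, hyu⟩ := t.exists_dec hα hy
    refine ⟨t1, ht1, sqR_of_mem g1 ?_⟩
    refine t1.1.closed α g1 y hy hlim ?_
    exact (unb_dec g1 hu1 hyu.le).1 (hu.down (ht1.trans ht))
  · change q ∈ ⨅ y, inCB (kapN K) sqN (ordN α) y ⇨ (unbInB (kapN K) sqN (ordN α) y ⇨
      ⨅ z, (inCB (kapN K) sqN y z ⇨ inCB (kapN K) sqN (ordN α) z ⊓ mem z y) ⊓
        (inCB (kapN K) sqN (ordN α) z ⊓ mem z y ⇨ inCB (kapN K) sqN y z))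
    have e : ∀ y : Nm, (⨅ z, (inCB (kapN K) sqN y z ⇨ inCB (kapN K) sqN (ordN α) z ⊓ mem z y) ⊓
        (inCB (kapN K) sqN (ordN α) z ⊓ mem z y ⇨ inCB (kapN K) sqN y z)) =
        (⨅ z, (inCB (kapN K) sqN y z ⇨ inCB (kapN K) sqN (ordN α) z ⊓ mem z y)) ⊓
        ⨅ z, (inCB (kapN K) sqN (ordN α) z ⇨ (mem z y ⇨ inCB (kapN K) sqN y z)) := by
      intro y
      rw [← iInf_inf_eq]
      refine iInf_congr fun z => ?_
      rw [himp_himp]
    simp only [e]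
    simp only [forces_ballC, forces_himp, forces_inf, forces_mem_ordN]
    simp only [inCB, forces_inf, forces_mem_kapN, true_and]
    intro y r hr hy s hs hu
    refine ⟨fun z t ht h => ?_, fun z t ht h t' ht' hz => ?_⟩
    · exact (forces_coh t y (hy.down (ht.trans hs)) (hu.down ht) z).1 h
    · exact (forces_coh t' y (hy.down (ht'.trans (ht.trans hs))) (hu.down (ht'.trans ht)) z).2
        ⟨h.down ht', hz⟩

end H85.Forcing
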