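import Pool.Agent.H85.Forcing.Los

/-!
# The quotient of the Boolean-valued universe is a model of ZFC
-/

universe u

namespace H85.Forcing
namespace BN

variable {B : Type u} [CompleteBooleanAlgebra B]

/-- the Boolean value of inclusion -/
def sub (x y : BN B) : B := ⨅ z, mem z x ⇨ mem z y

theorem ext_sub_left (y : BN B) : Ext (fun x => sub x y) :=
  ext_iInf fun z => ext_himp (ext_mem (cong_const z) cong_id) (ext_const _)

theorem sub_antisymm {g : B} {x y : BN B} (h : g ≤ sub x y) (h' : g ≤ sub y x) : g ≤ beq x y :=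
  beq_of_forall (fun z => h.trans (iInf_le _ z)) (fun z => h'.trans (iInf_le _ z))

theorem sub_intro {g : B} {x y : BN B} (h : ∀ z, g ⊓ mem z x ≤ mem z y) : g ≤ sub x y :=
  le_iInf fun z => le_himp_iff.2 (h z)

theorem sub_elim {g : B} {x y z : BN B} (h : g ≤ sub x y) (h' : g ≤ mem z x) : g ≤ mem z y :=
  bmp (h.trans (iInf_le _ z)) h'

/-- the empty name -/
def emp : BN B := mk PEmpty (fun x => x.elim) (fun x => x.elim)

theorem mem_emp (z : BN B) : mem z emp = ⊥ := by
  rw [emp, mem_mk]; simp

/-- the name of an unordered pair -/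
def upair (x y : BN B) : BN B := mk (ULift Bool) (fun i => if i.down then x else y) (fun _ => ⊤)

theorem mem_upair (w x y : BN B) : mem w (upair x y) = beq w x ⊔ beq w y := by
  rw [upair, mem_mk]
  apply le_antisymm
  · refine iSup_le fun i => ?_
    rcases i with ⟨i⟩
    cases i
    · simp
    · simp
  · refine sup_le ?_ ?_
    · exact bex_intro ⟨true⟩ (by simp)
    · exact bex_intro ⟨false⟩ (by simp)

/-- the name of the union -/
def sUnionN : BN B → BN B
  | mk ι A b => mk (Σ i, (A i).dom) (fun p => (A p.1).fn p.2) (fun p => b p.1 ⊓ (A p.1).val p.2)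

theorem mem_eq (w x : BN B) : mem w x = ⨆ i, x.val i ⊓ beq w (x.fn i) := by
  cases x; rfl

theorem mem_sUnionN (w : BN B) : ∀ x, mem w (sUnionN x) = ⨆ y, mem y x ⊓ mem w y
  | mk ι A b => by
    rw [bex_mk (ext_mem (cong_const w) cong_id), sUnionN, mem_mk, iSup_sigma]
    refine iSup_congr fun i => ?_
    rw [mem_eq w (A i), inf_iSup_eq]
    refine iSup_congr fun j => ?_
    rw [inf_assoc]

/-- the name of the power set -/
def powN : BN B → BN B
  | mk ι A b => mk (ι → B) (fun f => mk ι A f) (fun f => sub (mk ι A f) (mk ι A b))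

theorem mem_powN (w : BN B) : ∀ x, mem w (powN x) = sub w x
  | mk ι A b => by
    rw [powN, mem_mk]
    apply le_antisymm
    · refine iSup_le fun f => ?_
      exact (ext_sub_left (mk ι A b)).app (bsymm inf_le_right) inf_le_left
    · refine bex_intro (fun i => mem (A i) w) ?_
      have h1 : sub w (mk ι A b) ≤ sub w (mk ι A fun i => mem (A i) w) := by
        refine sub_intro fun z => ?_
        have h2 : sub w (mk ι A b) ⊓ mem z w ≤ mem z (mk ι A b) :=
          sub_elim inf_le_left inf_le_right
        rw [mem_mk] at h2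
        refine bex_elim h2 fun i => ?_
        rw [mem_mk]
        refine bex_intro i (le_inf ?_ (inf_le_right.trans inf_le_right))
        exact mem_congr_left (inf_le_right.trans inf_le_right) (inf_le_left.trans inf_le_right)
      have h3 : sub w (mk ι A b) ≤ sub (mk ι A fun i => mem (A i) w) w := by
        refine sub_intro fun z => ?_
        refine bex_elim (f := fun i => mem (A i) w ⊓ beq z (A i))
          (by rw [← mem_mk z ι A fun i => mem (A i) w]; exact inf_le_right) fun i => ?_
        exact mem_congr_left (bsymm (inf_le_right.trans inf_le_right))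
          (inf_le_right.trans inf_le_left)
      have h4 := sub_antisymm h1 h3
      exact le_inf ((ext_sub_left (mk ι A b)).app h4 le_rfl) h4

/-- the name of the successor -/
def succN (y : BN B) : BN B :=
  mk (Option y.dom) (fun i => i.elim y y.fn) (fun i => i.elim ⊤ y.val)

theorem mem_succN (w y : BN B) : mem w (succN y) = mem w y ⊔ beq w y := by
  rw [succN, mem_mk, iSup_option, sup_comm, mem_eq w y]
  simp

theorem cong_succN : Cong (succN (B := B)) := by
  intro x y
  refine sub_antisymm (sub_intro fun z => ?_) (sub_intro fun z => ?_)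
  · rw [mem_succN, mem_succN, inf_sup_left]
    refine sup_le_sup (mem_congr_right inf_le_left inf_le_right) ?_
    exact btrans inf_le_right inf_le_left
  · rw [mem_succN, mem_succN, inf_sup_left]
    refine sup_le_sup (mem_congr_right (bsymm inf_le_left) inf_le_right) ?_
    exact btrans inf_le_right (bsymm inf_le_left)

/-- names of natural numbers -/
def natN : ℕ → BN B
  | 0 => emp
  | n + 1 => succN (natN n)

/-- the name of `ω` -/
def omN : BN B := mk (ULift ℕ) (fun n => natN n.down) (fun _ => ⊤)

theorem mem_omN_succ (y : BN B) : mem y omN ≤ mem (succN y) omN := by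
  rw [omN, mem_mk, mem_mk]
  refine iSup_le fun n => bex_intro ⟨n.down + 1⟩ ?_
  refine le_inf le_top (inf_le_right.trans ?_)
  exact cong_succN y (natN n.down)

/-- restricting a name by a predicate -/
theorem mem_sep {ι : Type u} {A : ι → BN B} {b : ι → B} {φ : BN B → B} (hφ : Ext φ) (w : BN B) :
    mem w (mk ι A fun i => b i ⊓ φ (A i)) = mem w (mk ι A b) ⊓ φ w := by
  rw [mem_mk, mem_mk, iSup_inf_eq]
  refine iSup_congr fun i => ?_
  apply le_antisymm
  · refine le_inf (le_inf (inf_le_left.trans inf_le_left) inf_le_right) ?_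
    exact hφ.app (bsymm inf_le_right) (inf_le_left.trans inf_le_right)
  · refine le_inf (le_inf (inf_le_left.trans inf_le_left) ?_) (inf_le_left.trans inf_le_right)
    exact hφ.app (inf_le_left.trans inf_le_right) inf_le_right

theorem regularity (x : BN B) :
    (⨆ y, mem y x) ≤ ⨆ y, mem y x ⊓ ⨅ z, (mem z y ⇨ (mem z x)ᶜ) := by
  have hE : Ext (fun z => (mem z x)ᶜ) := ext_compl (ext_mem cong_id (cong_const x))
  have key : ∀ y, (⨆ y, mem y x ⊓ ⨅ z, (mem z y ⇨ (mem z x)ᶜ))ᶜ ⊓ mem y x ≤ ⊥ := by
    intro y
    induction y with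
    | mk ι A b ih =>
      have h1 : (⨆ y, mem y x ⊓ ⨅ z, (mem z y ⇨ (mem z x)ᶜ))ᶜ ⊓ mem (mk ι A b) x ≤
          mem (mk ι A b) x ⊓ ⨅ z, (mem z (mk ι A b) ⇨ (mem z x)ᶜ) := by
        refine le_inf inf_le_right ?_
        rw [ball_mk hE]
        refine le_iInf fun i => ?_
        rw [le_himp_iff]
        refine (inf_le_left.trans inf_le_left).trans ?_
        rw [le_compl_iff_disjoint_right, disjoint_iff_inf_le]
        exact ih i
      have h2 : (⨆ y, mem y x ⊓ ⨅ z, (mem z y ⇨ (mem z x)ᶜ))ᶜ ⊓ mem (mk ι A b) x ≤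
          ⨆ y, mem y x ⊓ ⨅ z, (mem z y ⇨ (mem z x)ᶜ) := bex_intro _ h1
      exact (le_inf h2 inf_le_left).trans (by simp)
  refine bcases (a := ⨆ y, mem y x ⊓ ⨅ z, (mem z y ⇨ (mem z x)ᶜ)) inf_le_right ?_
  refine bex_elim inf_le_left fun y => ?_
  refine (le_inf (inf_le_left.trans inf_le_right) inf_le_right).trans ((key y).trans bot_le)

/-- the value of: `D k` is the first member of `η` in the enumeration `D` -/
def first {K : Type u} [LinearOrder K] (D : K → BN B) (k : K) (η : BN B) : B :=
  mem (D k) η ⊓ ⨅ l : {l // l < k}, (mem (D l.1) η)ᶜ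

theorem ext_first {K : Type u} [LinearOrder K] (D : K → BN B) (k : K) : Ext (first D k) :=
  ext_inf (ext_mem (cong_const _) cong_id)
    (ext_iInf fun _ => ext_compl (ext_mem (cong_const _) cong_id))

theorem exists_first {K : Type u} [LinearOrder K] [WellFoundedLT K] (D : K → BN B) (η : BN B) :
    (⨆ k, mem (D k) η) ≤ ⨆ k, first D k η := by
  refine iSup_le fun k => ?_
  induction k using WellFoundedLT.induction with
  | ind k ih =>
    refine bcases (a := ⨆ l : {l // l < k}, mem (D l.1) η) ?_ ?_
    · exact inf_le_right.trans (iSup_le fun l => ih l.1 l.2)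
    · refine bex_intro k (le_inf inf_le_left (inf_le_right.trans ?_))
      rw [compl_iSup]

theorem mem_sUnion_dom (x : BN B) : ∀ z y, mem y x ⊓ mem z y ≤
    ⨆ k, beq z ((sUnionN x).fn k) := by
  intro z y
  have h : mem y x ⊓ mem z y ≤ mem z (sUnionN x) := by
    rw [mem_sUnionN]; exact bex_intro y le_rfl
  rw [mem_eq z (sUnionN x)] at h
  exact h.trans (iSup_mono fun k => inf_le_right)

theorem isZFC (U : Ult B) : IsZFC (ME U) where
  nonempty := ⟨cl U emp⟩
  extensionality := by
    simp only [cl_forall U, ME_cl, cl_eq]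
    intro x y h
    have h1 : (⨅ z, (mem z x ⇨ mem z y) ⊓ (mem z y ⇨ mem z x)) ≤ beq x y :=
      beq_of_forall (fun z => (iInf_le _ z).trans inf_le_left)
        (fun z => (iInf_le _ z).trans inf_le_right)
    refine U.mono h1 ((T_iInf U ?_).2 fun z => ?_)
    · exact ext_inf (ext_himp (ext_mem cong_id (cong_const _)) (ext_mem cong_id (cong_const _)))
        (ext_himp (ext_mem cong_id (cong_const _)) (ext_mem cong_id (cong_const _)))
    · rw [U.inf, U.himp, U.himp]
      exact ⟨(h z).1, (h z).2⟩
  foundation := by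
    simp only [cl_forall U, ME_cl, cl_exists U]
    intro x h
    have e1 : Ext (fun y => mem y x) := ext_mem cong_id (cong_const x)
    have h1 := U.mono (regularity x) ((T_iSup U e1).2 h)
    have e2 : ∀ y, Ext (fun z => (mem z y ⇨ (mem z x)ᶜ)) := fun y =>
      ext_himp (ext_mem cong_id (cong_const _)) (ext_compl e1)
    have e3 : Ext (fun y => mem y x ⊓ ⨅ z, (mem z y ⇨ (mem z x)ᶜ)) :=
      ext_inf e1 (ext_iInf fun z => ext_himp (ext_mem (cong_const _) cong_id) (ext_const _))
    rw [T_iSup U e3] at h1
    obtain ⟨y, hy⟩ := h1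
    rw [U.inf, T_iInf U (e2 y)] at hy
    refine ⟨y, hy.1, fun z hz => ?_⟩
    have := hy.2 z
    rw [U.himp, U.compl] at this
    exact this hz
  pairing := by
    simp only [cl_forall U, ME_cl, cl_exists U, cl_eq]
    intro x y
    refine ⟨upair x y, fun w => ?_⟩
    rw [mem_upair, U.sup]
  union := by
    simp only [cl_forall U, ME_cl, cl_exists U]
    intro x
    refine ⟨sUnionN x, fun w => ?_⟩
    rw [mem_sUnionN, T_bex U (ext_mem (cong_const w) cong_id)]
  powerset := by
    simp only [cl_forall U, ME_cl, cl_exists U]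
    intro x
    refine ⟨powN x, fun w => ?_⟩
    rw [mem_powN, sub, T_ball U (ext_mem cong_id (cong_const x))]
  infinity := by
    simp only [cl_forall U, ME_cl, cl_exists U, cl_eq]
    refine ⟨omN, ⟨emp, ?_, fun z => ?_⟩, fun y hy => ⟨succN y, ?_, fun z => ?_⟩⟩
    · refine U.mono ?_ U.top
      exact le_mem_mk (ULift ℕ) (fun n => natN n.down) (fun _ => ⊤) ⟨0⟩
    · rw [mem_emp]; exact U.bot
    · exact U.mono (mem_omN_succ y) hy
    · rw [mem_succN, U.sup]
  separation := by
    intro φ v x
    obtain ⟨w, rfl⟩ := exists_lift U v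
    obtain ⟨x, rfl⟩ := Quotient.exists_rep x
    cases x with
    | mk ι A b =>
      refine ⟨cl U (mk ι A fun i => b i ⊓ BVal φ (Function.update w 0 (A i))), ?_⟩
      rw [cl_forall U]
      intro z
      rw [ME_cl, mem_sep (ext_BVal φ w 0) z, U.inf, update_cl, los]
      exact Iff.rfl
  replacement := by
    intro φ v x
    obtain ⟨v, rfl⟩ := exists_lift U v
    obtain ⟨x, rfl⟩ := Quotient.exists_rep x
    have e1 : ∀ z, Ext (fun w => BVal φ (Function.update (Function.update v 0 z) 1 w)) :=
      fun z => ext_BVal φ (Function.update v 0 z) 1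
    have e2 : ∀ w, Ext (fun z => BVal φ (Function.update (Function.update v 0 z) 1 w)) := by
      intro w x y
      refine BVal_congr φ (Function.update (Function.update v 0 x) 1 w)
        (Function.update (Function.update v 0 y) 1 w) _ ?_ inf_le_right
      intro n
      by_cases hn : n = 1
      · subst hn; simp only [Function.update_self]; exact brefl
      · rw [Function.update_of_ne hn, Function.update_of_ne hn]
        by_cases hn : n = 0
        · subst hn; simp only [Function.update_self]; exact inf_le_left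
        · rw [Function.update_of_ne hn, Function.update_of_ne hn]; exact brefl
    cases x with
    | mk ι A b =>
      have hu : ∀ z w, Function.update (Function.update (fun n => cl U (v n)) 0 (cl U z)) 1
          (cl U w) = fun n => cl U (Function.update (Function.update v 0 z) 1 w n) := by
        intro z w
        rw [update_cl, update_cl]
      have hx : Quotient.mk (setoid U) (mk ι A b) = cl U (mk ι A b) := rfl
      rw [hx]
      simp only [ExistsUnique, cl_forall U, cl_exists U, ME_cl, hu, los, cl_eq]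
      intro h
      choose τ hτ using fun i => exists_max (e1 (A i))
      refine ⟨mk ι τ fun i => b i ⊓ BVal φ (Function.update (Function.update v 0 (A i)) 1 (τ i)),
        fun w => ⟨fun hw => ?_, ?_⟩⟩
      · have h1 : mem w (mk ι τ fun i => b i ⊓
            BVal φ (Function.update (Function.update v 0 (A i)) 1 (τ i))) ≤
            ⨆ z, mem z (mk ι A b) ⊓ BVal φ (Function.update (Function.update v 0 z) 1 w) := by
          rw [mem_mk]
          refine iSup_le fun i => bex_intro (A i) (le_inf ?_ ?_)
          · exact (inf_le_left.trans inf_le_left).trans (le_mem_mk ι A b i)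
          · exact (e1 (A i)).app (bsymm inf_le_right) (inf_le_left.trans inf_le_right)
        exact (T_bex U (e2 w) _).1 (U.mono h1 hw)
      · rintro ⟨z, hz, hzw⟩
        obtain ⟨w0, hw0, hw1⟩ := h z hz
        have huniq : ∀ w', U.T (BVal φ (Function.update (Function.update v 0 z) 1 w')) →
            U.T (beq w' w) := by
          intro w' hw'
          have h1 := hw1 w' hw'
          have h2 := hw1 w hzw
          exact U.mono (btrans (inf_le_left : beq w' w0 ⊓ beq w w0 ≤ _) (bsymm inf_le_right))
            ((U.inf _ _).2 ⟨h1, h2⟩)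
        have e3 : Ext (fun w' => BVal φ (Function.update (Function.update v 0 z) 1 w') ⇨
            beq w' w) := ext_himp (e1 z) (ext_beq cong_id (cong_const w))
        have hU : U.T (mem z (mk ι A b) ⊓ BVal φ (Function.update (Function.update v 0 z) 1 w) ⊓
            ⨅ w', BVal φ (Function.update (Function.update v 0 z) 1 w') ⇨ beq w' w) := by
          rw [U.inf, U.inf, T_iInf U e3]
          refine ⟨⟨hz, hzw⟩, fun w' => ?_⟩
          rw [U.himp]
          exact huniq w'
        refine U.mono ?_ hU
        rw [mem_mk z]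
        refine bex_elim (inf_le_left.trans inf_le_left) fun i => ?_
        rw [mem_mk]
        refine bex_intro i ?_
        set g := mem z (mk ι A b) ⊓ BVal φ (Function.update (Function.update v 0 z) 1 w) ⊓
            ⨅ w', BVal φ (Function.update (Function.update v 0 z) 1 w') ⇨ beq w' w with hg
        have hb : (⨆ j, b j ⊓ beq z (A j)) ⊓ BVal φ (Function.update (Function.update v 0 z) 1 w) ⊓
            (⨅ w', BVal φ (Function.update (Function.update v 0 z) 1 w') ⇨ beq w' w) = g := by
          rw [hg, mem_mk]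
        rw [hb]
        have g1 : g ⊓ (b i ⊓ beq z (A i)) ≤ b i := inf_le_right.trans inf_le_left
        have g2 : g ⊓ (b i ⊓ beq z (A i)) ≤ beq z (A i) := inf_le_right.trans inf_le_right
        have g3 : g ⊓ (b i ⊓ beq z (A i)) ≤
            BVal φ (Function.update (Function.update v 0 (A i)) 1 w) :=
          (e2 w).app g2 (inf_le_left.trans (inf_le_left.trans inf_le_right))
        have g4 : g ⊓ (b i ⊓ beq z (A i)) ≤
            BVal φ (Function.update (Function.update v 0 (A i)) 1 (τ i)) :=
          g3.trans ((le_iSup (fun w => BVal φ (Function.update (Function.update v 0 (A i)) 1 w))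
            w).trans (hτ i))
        have g5 : g ⊓ (b i ⊓ beq z (A i)) ≤
            BVal φ (Function.update (Function.update v 0 z) 1 (τ i)) := (e2 (τ i)).app (bsymm g2) g4
        have g6 : g ⊓ (b i ⊓ beq z (A i)) ≤ beq (τ i) w :=
          bmp (inf_le_left.trans (inf_le_right.trans (iInf_le _ (τ i)))) g5
        exact le_inf (le_inf g1 g4) (bsymm g6)
  choice := by
    simp only [ExistsUnique, cl_forall U, cl_exists U, ME_cl, cl_eq]
    intro x h1 h2
    obtain ⟨r, hr⟩ := exists_wellFoundedLT (sUnionN x).dom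
    set D : (sUnionN x).dom → BN B := (sUnionN x).fn with hD
    let c : BN B := mk (sUnionN x).dom D (fun k => ⨆ y, mem y x ⊓ first D k y)
    have eH1 : Ext (fun y : BN B => ⨆ z, mem z y) :=
      ext_iSup fun z => ext_mem (cong_const z) cong_id
    have H1 : U.T (⨅ y, mem y x ⇨ ⨆ z, mem z y) := by
      rw [T_ball U eH1]
      intro y hy
      exact (T_iSup U (ext_mem cong_id (cong_const y))).2 (h1 y hy)
    have eI : ∀ y : BN B, Ext (fun z => ⨆ w, mem w y ⊓ mem w z) := fun y =>
      ext_iSup fun w => ext_inf (ext_const _) (ext_mem (cong_const w) cong_id)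
    have eI' : ∀ z : BN B, Ext (fun y => ⨆ w, mem w y ⊓ mem w z) := fun z =>
      ext_iSup fun w => ext_inf (ext_mem (cong_const w) cong_id) (ext_const _)
    have H2 : U.T (⨅ y, mem y x ⇨ ⨅ z, mem z x ⇨ ((⨆ w, mem w y ⊓ mem w z) ⇨ beq y z)) := by
      rw [T_ball U (ext_iInf fun z => ext_himp (ext_const _)
        (ext_himp (eI' z) (ext_beq cong_id (cong_const z))))]
      intro y hy
      rw [T_ball U (ext_himp (eI y) (ext_beq (cong_const y) cong_id))]
      intro z hz
      rw [U.himp, T_iSup U (ext_inf (ext_mem cong_id (cong_const y))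
        (ext_mem cong_id (cong_const z)))]
      rintro ⟨w, hw⟩
      rw [U.inf] at hw
      exact h2 y z hy hz ⟨w, hw⟩
    refine ⟨c, fun η hη => ?_⟩
    -- existence
    have hex : U.T (⨆ w, mem w η ⊓ mem w c) := by
      refine U.mono ?_ ((U.inf _ _).2 ⟨H1, hη⟩)
      set g := (⨅ y, mem y x ⇨ ⨆ z, mem z y) ⊓ mem η x with hg
      have g1 : g ≤ ⨆ z, mem z η := bmp (inf_le_left.trans (iInf_le _ η)) inf_le_right
      have g2 : g ≤ ⨆ k, mem (D k) η := by
        refine bex_elim g1 fun z => ?_
        have g3 : g ⊓ mem z η ≤ ⨆ k, beq z (D k) :=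
          (inf_le_inf_right _ inf_le_right).trans (mem_sUnion_dom x z η)
        refine bex_elim g3 fun k => bex_intro k ?_
        exact mem_congr_left inf_le_right (inf_le_left.trans inf_le_right)
      have g4 := g2.trans (exists_first D η)
      refine bex_elim g4 fun k => bex_intro (D k) (le_inf (inf_le_right.trans inf_le_left) ?_)
      rw [mem_mk]
      refine bex_intro k (le_inf (bex_intro η (le_inf ?_ inf_le_right)) brefl)
      exact inf_le_left.trans inf_le_right
    have hC : ∀ w, mem w c ⊓ mem w η ⊓ (mem η x ⊓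
        (⨅ y, mem y x ⇨ ⨅ z, mem z x ⇨ ((⨆ w, mem w y ⊓ mem w z) ⇨ beq y z))) ≤
        ⨆ k, beq w (D k) ⊓ first D k η := by
      intro w
      set G := mem w c ⊓ mem w η ⊓ (mem η x ⊓
        (⨅ y, mem y x ⇨ ⨅ z, mem z x ⇨ ((⨆ w, mem w y ⊓ mem w z) ⇨ beq y z))) with hG
      have g0 : G ≤ ⨆ k, (⨆ y, mem y x ⊓ first D k y) ⊓ beq w (D k) := by
        rw [← mem_mk w _ D (fun k => ⨆ y, mem y x ⊓ first D k y)]
        exact inf_le_left.trans inf_le_left
      refine bex_elim g0 fun k => bex_intro k ?_
      refine bex_elim (inf_le_right.trans inf_le_left : _ ≤ ⨆ y, mem y x ⊓ first D k y) fun y => ?_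
      set G1 := G ⊓ ((⨆ y, mem y x ⊓ first D k y) ⊓ beq w (D k)) ⊓ (mem y x ⊓ first D k y)
      have a1 : G1 ≤ G := inf_le_left.trans inf_le_left
      have a2 : G1 ≤ beq w (D k) := inf_le_left.trans (inf_le_right.trans inf_le_right)
      have a3 : G1 ≤ mem y x := inf_le_right.trans inf_le_left
      have a4 : G1 ≤ first D k y := inf_le_right.trans inf_le_right
      have a5 : G1 ≤ mem w η := a1.trans (inf_le_left.trans inf_le_right)
      have a6 : G1 ≤ mem η x := a1.trans (inf_le_right.trans inf_le_left)
      have a7 := a1.trans (inf_le_right.trans inf_le_right :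
        G ≤ (⨅ y, mem y x ⇨ ⨅ z, mem z x ⇨ ((⨆ w, mem w y ⊓ mem w z) ⇨ beq y z)))
      have a8 : G1 ≤ beq y η := by
        refine bmp (bmp ((bmp (a7.trans (iInf_le _ y)) a3).trans (iInf_le _ η)) a6) ?_
        refine bex_intro (D k) (le_inf (a4.trans inf_le_left) (mem_congr_left a2 a5))
      exact le_inf a2 ((ext_first D k).app a8 a4)
    have hTC : ∀ w, U.T (mem w η) → U.T (mem w c) → U.T (⨆ k, beq w (D k) ⊓ first D k η) := by
      intro w hw hwc
      exact U.mono (hC w) ((U.inf _ _).2 ⟨(U.inf _ _).2 ⟨hwc, hw⟩, (U.inf _ _).2 ⟨hη, H2⟩⟩)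
    rw [T_iSup U (ext_inf (ext_mem cong_id (cong_const η)) (ext_mem cong_id (cong_const c)))] at hex
    obtain ⟨w, hw⟩ := hex
    rw [U.inf] at hw
    refine ⟨w, hw, fun w' hw' => ?_⟩
    refine U.mono ?_ ((U.inf _ _).2 ⟨hTC w' hw'.1 hw'.2, hTC w hw.1 hw.2⟩)
    refine bex_elim inf_le_left fun k' => ?_
    refine bex_elim (f := fun k => beq w (D k) ⊓ first D k η)
      (inf_le_left.trans inf_le_right) fun k => ?_
    set G := (⨆ k, beq w' (D k) ⊓ first D k η) ⊓ (⨆ k, beq w (D k) ⊓ first D k η) ⊓
      (beq w' (D k') ⊓ first D k' η) ⊓ (beq w (D k) ⊓ first D k η)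
    have b1 : G ≤ beq w' (D k') := inf_le_left.trans (inf_le_right.trans inf_le_left)
    have b2 : G ≤ first D k' η := inf_le_left.trans (inf_le_right.trans inf_le_right)
    have b3 : G ≤ beq w (D k) := inf_le_right.trans inf_le_left
    have b4 : G ≤ first D k η := inf_le_right.trans inf_le_right
    rcases lt_trichotomy k k' with hkk | hkk | hkk
    · have c1 : G ≤ (mem (D k) η)ᶜ :=
        b2.trans (inf_le_right.trans (iInf_le (fun l : {l // l < k'} => (mem (D l.1) η)ᶜ) ⟨k, hkk⟩))
      have c2 : G ≤ mem (D k) η := b4.trans inf_le_left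
      exact (le_inf c2 c1).trans (by simp)
    · subst hkk; exact btrans b1 (bsymm b3)
    · have c1 : G ≤ (mem (D k') η)ᶜ :=
        b4.trans (inf_le_right.trans (iInf_le (fun l : {l // l < k} => (mem (D l.1) η)ᶜ) ⟨k', hkk⟩))
      have c2 : G ≤ mem (D k') η := b2.trans inf_le_left
      exact (le_inf c2 c1).trans (by simp)

end BN
end H85.Forcing
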